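import Pool.Agent.SAPK.DefsK

/-!
Polygons whose two arcs never backtrack by more than `k` columns.
-/

namespace Pool.Agent.SAPK

open scoped ENNReal
open Pool.Agent.SAPF

/-- the two arcs of a polygon, cut at a leftmost vertex (the origin) and a rightmost vertex -/
lemma arcs_at {n : ℕ} (hn : 2 ≤ n) {v : ZMod (2 * n) → ℤ × ℤ} (hv : IsSAP (2 * n) v)
    (hpos : ∀ j, 0 ≤ (v j).1) {k : ℕ} (hkm : k ≤ 2 * n)
    (hmax : ∀ j, (v j).1 ≤ (v (k : ZMod (2 * n))).1) :
    ∃ a b, IsBr (Dir.E :: a) ∧ IsBr (Dir.E :: b) ∧ X a = width v ∧ X b = width v ∧ Y a = Y b ∧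
      a.length + b.length = 2 * n ∧ v = loop (2 * n) (a ++ rv b) ∧ a.length = k ∧
      a ++ rv b = stepsW v (2 * n) := by
  have : NeZero (2 * n) := ⟨by omega⟩
  have hjpos : 0 < (v (k : ZMod (2 * n))).1 := by
    obtain ⟨i, hi⟩ := exists_ne_zero (by omega) hv
    have := hpos i
    have := hmax i
    omega
  have hk0 : 0 < k := by
    rcases Nat.eq_zero_or_pos k with h | h
    · exfalso
      rw [h] at hjpos
      simp [hv.1] at hjpos
    · exact h
  have hkm' : k < 2 * n := by
    rcases Nat.lt_or_ge k (2 * n) with h | h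
    · exact h
    · exfalso
      have hk : k = 2 * n := by omega
      rw [hk, ZMod.natCast_self, hv.1] at hjpos
      simp at hjpos
  have hwidth : width v = (v (k : ZMod (2 * n))).1 := by
    unfold width
    refine IsGreatest.csSup_eq ⟨⟨(k : ZMod (2 * n)), 0, by rw [hv.1]; simp⟩, ?_⟩
    rintro d ⟨i, i', rfl⟩
    have := hmax i
    have := hpos i'
    omega
  set w := stepsW v (2 * n) with hw
  have hwlen : w.length = 2 * n := length_stepsW v _
  set a := w.take k with ha
  set c := w.drop k with hc
  have hac : a ++ c = w := List.take_append_drop k w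
  have ha' : a = stepsW v k := stepsW_take v hkm
  have hal : a.length = k := by rw [ha', length_stepsW]
  have hcl : c.length = 2 * n - k := by rw [hc, List.length_drop, hwlen]
  have hXa : X a = (v (k : ZMod (2 * n))).1 := by rw [ha', X_stepsW hv]
  have hYa : Y a = (v (k : ZMod (2 * n))).2 := by rw [ha', Y_stepsW hv]
  have hXw : X w = 0 := by
    rw [hw, X_stepsW hv, ZMod.natCast_self, hv.1]; rfl
  have hYw : Y w = 0 := by
    rw [hw, Y_stepsW hv, ZMod.natCast_self, hv.1]; rfl
  have hXc : X c = -(v (k : ZMod (2 * n))).1 := by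
    have := X_append a c
    rw [hac, hXw] at this
    omega
  have hYc : Y c = -(v (k : ZMod (2 * n))).2 := by
    have := Y_append a c
    rw [hac, hYw] at this
    omega
  -- beginnings of `w`
  have hpre : ∀ t, t <+: w → X t = (v (t.length : ZMod (2 * n))).1 := by
    rintro t ⟨s, hs⟩
    have h := infix_stepsW hv (p := []) (t := t) (q := s) (k := 2 * n) (by simpa using hs)
    simp only [List.length_nil, Nat.cast_zero, hv.1, zero_add] at h
    rw [h]
  have hpa : ∀ t, t <+: a → 0 ≤ X t ∧ X t ≤ X a := by
    intro t ht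
    have h1 := hpre t (ht.trans (by rw [← hac]; exact List.prefix_append a c))
    rw [h1, hXa]
    exact ⟨hpos _, hmax _⟩
  have hsa : SAW a := by
    rintro t ⟨p, q, hpq⟩ hx hy
    have hl : p.length + t.length ≤ k := by
      have := congrArg List.length hpq
      simp [hal] at this
      omega
    have h := infix_stepsW hv (p := p) (t := t) (q := q ++ c) (k := 2 * n) (by
      rw [← List.append_assoc, hpq, hac])
    rw [hx, hy] at h
    rw [show ((0 : ℤ), (0 : ℤ)) = 0 from rfl, add_zero] at h
    have h2 := hv.2.1 h
    rcases zmod_cast_inj (by omega) (by omega) h2.symm with h3 | h3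
    · exact List.length_eq_zero_iff.1 (by omega)
    · omega
  have hsc : SAW c := by
    rintro t ⟨p, q, hpq⟩ hx hy
    have h := infix_stepsW hv (p := a ++ p) (t := t) (q := q) (k := 2 * n) (by
      rw [List.append_assoc, List.append_assoc, ← List.append_assoc p, hpq, hac])
    have hl : (a ++ p).length + t.length ≤ 2 * n := by
      have := congrArg List.length hpq
      simp [hcl] at this
      simp [hal]
      omega
    rw [hx, hy] at h
    rw [show ((0 : ℤ), (0 : ℤ)) = 0 from rfl, add_zero] at h
    have h2 := hv.2.1 h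
    rcases zmod_cast_inj (by omega) (by omega) h2.symm with h3 | h3
    · exact List.length_eq_zero_iff.1 (by omega)
    · exfalso
      have := h3.1
      simp [hal] at this
      omega
  refine ⟨a, rv c, isBr_cons_of hsa (fun t ht => (hpa t ht).1) (fun t ht => (hpa t ht).2),
    isBr_cons_of hsc.rv ?_ ?_, ?_, ?_, ?_, ?_, ?_, hal, ?_⟩
  · -- beginnings of `rv c`
    intro t ht
    obtain ⟨s, hs⟩ := prefix_rv.1 ht
    have h1 := hpre (a ++ s) ⟨rv t, by rw [List.append_assoc, hs, hac]⟩
    have h2 := hpos ((a ++ s).length : ZMod (2 * n))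
    have h3 := congrArg X hs
    rw [X_append, X_rv, hXc] at h3
    rw [X_append, hXa] at h1
    omega
  · intro t ht
    obtain ⟨s, hs⟩ := prefix_rv.1 ht
    have h1 := hpre (a ++ s) ⟨rv t, by rw [List.append_assoc, hs, hac]⟩
    have h2 := hmax ((a ++ s).length : ZMod (2 * n))
    have h3 := congrArg X hs
    rw [X_append, X_rv, hXc] at h3
    rw [X_append, hXa] at h1
    rw [X_rv, hXc]
    omega
  · rw [hXa, hwidth]
  · rw [X_rv, hXc, hwidth]; ring
  · rw [Y_rv, hYc, hYa]; ring
  · rw [length_rv, hal, hcl]; omega
  · rw [rv_rv, hac]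
    funext i
    have h1 : i.val ≤ 2 * n := (ZMod.val_lt i).le
    unfold loop
    rw [hw, stepsW_take v h1, XY_stepsW hv, ZMod.natCast_zmod_val]
  · rw [rv_rv, hac]

/-- membership of `E :: a` in `Ak k` -/
lemma cons_E_mem_Ak {a : Word} {k : ℕ} (h0 : IsBr (Dir.E :: a))
    (h : ∀ t, t <:+: a → -(k : ℤ) ≤ X t) : Dir.E :: a ∈ Ak k := by
  intro t ht
  rcases List.infix_cons_iff.1 ht with h1 | h1
  · have := h0.nonneg h1
    omega
  · exact h t h1

/-- factors of a word -/
lemma X_take_sub {w : Word} {s t : ℕ} (hst : s ≤ t) :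
    ∃ f, w.take t = w.take s ++ f ∧ f <:+: w ∧ X (w.take t) = X (w.take s) + X f := by
  refine ⟨(w.take t).drop s, ?_, ?_, ?_⟩
  · have := List.take_append_drop s (w.take t)
    rw [List.take_take, min_eq_left hst] at this
    exact this.symm
  · exact (List.drop_suffix s _).isInfix.trans (List.take_prefix t w).isInfix
  · have := List.take_append_drop s (w.take t)
    rw [List.take_take, min_eq_left hst] at this
    rw [← X_append, this]

theorem inK_iff {n : ℕ} (hn : 2 ≤ n) (k : ℕ) {v : ZMod (2 * n) → ℤ × ℤ}
    (hv : IsSAP (2 * n) v) : InK k v ↔ InA (Ak k) n v := by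
  have : NeZero (2 * n) := ⟨by omega⟩
  constructor
  · rintro ⟨i, p, hp, hext, h1, h2⟩
    have hv' := hv.rot i
    obtain ⟨a, b, ha, hb, hXa, hXb, hY, hlen, hloop, hal, hst⟩ := arcs_at hn hv' (by
      intro j
      have := (hext (j + i)).1
      simp [SAPF.rot]
      omega) hp (by
      intro j
      have h3 := (hext (j + i)).2
      have h4 : (p : ZMod (2 * n)) + i = i + p := add_comm _ _
      simp only [SAPF.rot, Prod.fst_sub, h4]
      omega)
    have hX : ∀ s : ℕ, (SAPF.rot i v (s : ZMod (2 * n))).1 = (v (i + s)).1 - (v i).1 := by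
      intro s
      simp [SAPF.rot, add_comm]
    refine ⟨-i, a, b, ⟨ha, hb, ?_, ?_, hY, hlen, ?_⟩, cons_E_mem_Ak ha ?_, cons_E_mem_Ak hb ?_⟩
    · rw [hXa, width_rot]
    · rw [hXb, width_rot]
    · rw [← hloop]
      funext j
      simp [SAPF.rot, hv.1]
    · rintro t ⟨p0, q, hpq⟩
      have h := infix_stepsW hv' (p := p0) (t := t) (q := q ++ rv b) (k := 2 * n) (by
        rw [← List.append_assoc, hpq, hst])
      have hl : p0.length + t.length ≤ p := by
        have := congrArg List.length hpq
        simp [hal] at this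
        omega
      have h3 := h1 p0.length (p0.length + t.length) (by omega) hl
      have h4 := congrArg Prod.fst h
      rw [Prod.fst_add, hX, hX] at h4
      simp only at h4
      omega
    · intro t ht
      obtain ⟨p0, q, hpq⟩ : rv t <:+: rv b := infix_rv.2 (by simpa using ht)
      have h := infix_stepsW hv' (p := a ++ p0) (t := rv t) (q := q) (k := 2 * n) (by
        rw [List.append_assoc, List.append_assoc, ← List.append_assoc p0, hpq, hst])
      have hl : (a ++ p0).length + (rv t).length ≤ 2 * n := by
        have := congrArg List.length hpq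
        simp at this
        simp
        omega
      have h3 := h2 (a ++ p0).length ((a ++ p0).length + (rv t).length)
        (by rw [List.length_append, hal]; omega) (by omega) hl
      have h4 := congrArg Prod.fst h
      rw [Prod.fst_add, hX, hX] at h4
      simp only [X_rv] at h4
      omega
  · rintro ⟨i, a, b, hA, ha, hb⟩
    set w := a ++ rv b with hw
    have hwl : w.length = 2 * n := by
      rw [hw, List.length_append, length_rv]; exact hA.len
    have hXw : X w = 0 := by
      rw [hw, X_append, X_rv, hA.Xa, hA.Xb]; ring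
    have hL : ∀ s : ℕ, s ≤ 2 * n → (loop (2 * n) w (s : ZMod (2 * n))).1 = X (w.take s) := by
      intro s hs
      rcases Nat.lt_or_ge s (2 * n) with h | h
      · simp [loop, ZMod.val_natCast_of_lt h]
      · have h' : s = 2 * n := by omega
        rw [h', ZMod.natCast_self, ← hwl, List.take_length, hXw]
        simp [loop]
    have hvL : ∀ j, (v j).1 = (loop (2 * n) w (j + i)).1 - (loop (2 * n) w i).1 := by
      intro j
      conv_lhs => rw [hA.eq]
      simp [SAPF.rot, hw]
    -- beginnings of `a` and ends of `b`
    have hpa : ∀ t, t <+: a → 0 ≤ X t ∧ X t ≤ X a := by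
      intro t ht
      have h1 : Dir.E :: t <+: Dir.E :: a := by
        obtain ⟨s, rfl⟩ := ht
        exact ⟨s, by simp⟩
      have h2 := hA.bra.pos h1 (by simp)
      have h3 := hA.bra.le h1
      rw [X_cons] at h2
      rw [X_cons, X_cons] at h3
      have : Dir.E.dx = 1 := rfl
      omega
    have hpb : ∀ t, t <:+ b → 0 ≤ X t ∧ X t ≤ X b := by
      intro t ht
      have h1 := hA.brb.suf (ht.trans (List.suffix_cons _ _))
      obtain ⟨s, rfl⟩ := ht
      have h2 : Dir.E :: s <+: Dir.E :: (s ++ t) := ⟨t, by simp⟩
      have h3 := hA.brb.pos h2 (by simp)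
      rw [X_cons] at h3
      rw [X_append]
      have : Dir.E.dx = 1 := rfl
      omega
    have hab : X a = X b := by rw [hA.Xa, hA.Xb]
    have hrange : ∀ t, t <+: w → 0 ≤ X t ∧ X t ≤ X a := by
      intro t ht
      rcases prefix_append_cases ht with h | ⟨s, hs, -, rfl⟩
      · exact hpa t h
      · have h1 := hpb _ (prefix_rv.1 hs)
        rw [X_rv] at h1
        rw [X_append]
        omega
    have hal : a.length ≤ 2 * n := by have := hA.len; omega
    have hs' : ∀ s : ℕ, s ≤ 2 * n → (v (-i + s)).1 = X (w.take s) - (loop (2 * n) w i).1 := by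
      intro s hs
      rw [hvL, show -i + (s : ZMod (2 * n)) + i = s by ring, hL s hs]
    have hi0 : (v (-i)).1 = -(loop (2 * n) w i).1 := by
      have := hs' 0 (by omega)
      simpa using this
    have hta : w.take a.length = a := by rw [hw, List.take_left' rfl]
    refine ⟨-i, a.length, hal, ?_, ?_, ?_⟩
    · intro j
      have h1 := hL (j + i).val (ZMod.val_lt _).le
      rw [ZMod.natCast_zmod_val] at h1
      have h2 := hrange _ (List.take_prefix (j + i).val w)
      rw [hi0, hs' _ hal, hvL j, h1, hta]
      omega
    · intro s t hst ht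
      rw [hs' s (by omega), hs' t (by omega)]
      obtain ⟨f, -, hf, hX⟩ := X_take_sub (w := a) hst
      have h3 := ha f (hf.trans (List.suffix_cons _ _).isInfix)
      have h4 : w.take s = a.take s := by
        rw [hw, List.take_append_of_le_length (by omega)]
      have h5 : w.take t = a.take t := by
        rw [hw, List.take_append_of_le_length (by omega)]
      rw [h4, h5]
      omega
    · intro s t hs hst ht
      rw [hs' s (by omega), hs' t (by omega)]
      have h4 : w.take s = a ++ (rv b).take (s - a.length) := by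
        rw [hw, List.take_append, List.take_of_length_le hs]
      have h5 : w.take t = a ++ (rv b).take (t - a.length) := by
        rw [hw, List.take_append, List.take_of_length_le (by omega)]
      obtain ⟨f, -, hf, hX⟩ := X_take_sub (w := rv b) (s := s - a.length) (t := t - a.length)
        (by omega)
      have h3 := hb (rv f) ((infix_rv.1 hf).trans (List.suffix_cons _ _).isInfix)
      rw [X_rv] at h3
      rw [h4, h5, X_append, X_append]
      omega

end Pool.Agent.SAPK
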