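import Pool.Agent.SAPF.MainT

/-!
Classes of bridges: definitions and basic lemmas.
-/

namespace Pool.Agent.SAPK

open scoped ENNReal
open Pool.Agent.SAPF

/-- a class of words compatible with the factorization of bridges -/
structure IsClass (A : Set Word) : Prop where
  mul : ∀ {v w : Word}, IsBr v → IsBr w → (v ++ w ∈ A ↔ v ∈ A ∧ w ∈ A)
  flip : ∀ {w : Word}, w ∈ A → flipY w ∈ A
  EN : ∀ j : ℕ, Dir.E :: List.replicate j Dir.N ∈ A

/-- words that never backtrack by more than `k` columns -/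
def Ak (k : ℕ) : Set Word := {w | ∀ t, t <:+: w → -(k : ℤ) ≤ X t}

/-- self-avoiding words of horizontal extension at most `k` -/
def Strip (k : ℕ) : Set Word := {w | SAW w ∧ ∀ t, t <:+: w → |X t| ≤ k}

/-- exponential weights restricted to a class -/
noncomputable def exA (A : Set Word) (u c θ : ℝ) : Word → ℝ≥0∞ := A.indicator (ex u c θ)

namespace IsClass
variable {A : Set Word} (hA : IsClass A)
include hA
lemma E : [Dir.E] ∈ A := hA.EN 0
lemma EN1 : [Dir.E, Dir.N] ∈ A := hA.EN 1
lemma ES1 : [Dir.E, Dir.S] ∈ A := by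
  have := hA.flip hA.EN1
  simpa [flipY, Dir.my] using this
lemma nil : [] ∈ A := by
  have h := (hA.mul (v := []) (w := [Dir.E]) isBr_nil isBr_singleton_E).1 (by simpa using hA.E)
  exact h.1
lemma flip_iff {w : Word} : flipY w ∈ A ↔ w ∈ A :=
  ⟨fun h => by simpa using hA.flip h, hA.flip⟩
lemma flatten {ps : List Word} (h : AllIrr ps) : ps.flatten ∈ A ↔ ∀ p ∈ ps, p ∈ A := by
  induction ps with
  | nil => simp [hA.nil]
  | cons p ps ih =>
    have hp : IsIrr p := h p (by simp)
    have hps : AllIrr ps := fun q hq => h q (by simp [hq])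
    rw [List.flatten_cons, hA.mul hp.br (isBr_flatten hps), ih hps]
    simp
end IsClass

lemma isClass_Ak (k : ℕ) : IsClass (Ak k) := by
  refine ⟨?_, ?_, ?_⟩
  · intro v w hv hw
    constructor
    · intro h
      exact ⟨fun t ht => h t (ht.trans (List.prefix_append v w).isInfix),
        fun t ht => h t (ht.trans (List.suffix_append v w).isInfix)⟩
    · rintro ⟨h1, h2⟩ t ht
      rcases infix_append_cases ht with h | h | ⟨a, b, ha, hb, ha0, hb0, rfl⟩
      · exact h1 t h
      · exact h2 t h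
      · have h3 := hv.suf ha
        have h4 := hw.pos hb hb0
        rw [X_append]
        omega
  · intro w h t ht
    have := h _ (infix_flipY.1 ht)
    simpa using this
  · intro j t ht
    have key : ∀ (w : Word), (∀ d ∈ w, 0 ≤ d.dx) → 0 ≤ X w := by
      intro w hw
      induction w with
      | nil => simp
      | cons d w ih =>
        rw [X_cons]
        have h1 := hw d (by simp)
        have h2 := ih fun e he => hw e (by simp [he])
        omega
    have h0 : 0 ≤ X t := by
      apply key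
      intro d hd
      have hd' : d ∈ Dir.E :: List.replicate j Dir.N := ht.subset hd
      rw [List.mem_cons] at hd'
      rcases hd' with rfl | h
      · simp [Dir.dx]
      · rw [List.eq_of_mem_replicate h]; simp [Dir.dx]
    omega

variable {A : Set Word} {u c θ : ℝ}

lemma exA_of_mem {w : Word} (h : w ∈ A) : exA A u c θ w = ex u c θ w := Set.indicator_of_mem h _
lemma exA_of_notMem {w : Word} (h : w ∉ A) : exA A u c θ w = 0 := Set.indicator_of_notMem h _
lemma exA_le (A : Set Word) (u c θ : ℝ) (w : Word) : exA A u c θ w ≤ ex u c θ w :=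
  Set.indicator_le_self _ _ _
lemma exA_ne_top (w : Word) : exA A u c θ w ≠ ∞ :=
  ne_top_of_le_ne_top (ex_ne_top u c θ w) (exA_le A u c θ w)

lemma exA_nil (hA : IsClass A) : exA A u c θ [] = 1 := by rw [exA_of_mem hA.nil, ex_nil]

lemma exA_append (hA : IsClass A) {v w : Word} (hv : IsBr v) (hw : IsBr w) :
    exA A u c θ (v ++ w) = exA A u c θ v * exA A u c θ w := by
  by_cases h1 : v ∈ A
  · by_cases h2 : w ∈ A
    · rw [exA_of_mem ((hA.mul hv hw).2 ⟨h1, h2⟩), exA_of_mem h1, exA_of_mem h2, ex_append]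
    · rw [exA_of_notMem (fun h => h2 ((hA.mul hv hw).1 h).2), exA_of_notMem h2, mul_zero]
  · rw [exA_of_notMem (fun h => h1 ((hA.mul hv hw).1 h).1), exA_of_notMem h1, zero_mul]

lemma exA_flipY (hA : IsClass A) (w : Word) : exA A u c θ (flipY w) = exA A u c (-θ) w := by
  by_cases h : w ∈ A
  · rw [exA_of_mem (hA.flip h), exA_of_mem h, ex_flipY]
  · rw [exA_of_notMem (fun h' => h (hA.flip_iff.1 h')), exA_of_notMem h]

lemma mass_exA (A : Set Word) (u c θ : ℝ) (B : Set Word) :
    mass (exA A u c θ) B = mass (ex u c θ) (B ∩ A) := by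
  rw [mass_eq_indicator, mass_eq_indicator]
  refine tsum_congr fun w => ?_
  by_cases h1 : w ∈ B
  · by_cases h2 : w ∈ A
    · rw [Set.indicator_of_mem h1, Set.indicator_of_mem (show w ∈ B ∩ A from ⟨h1, h2⟩),
        exA_of_mem h2]
    · rw [Set.indicator_of_mem h1, Set.indicator_of_notMem (fun h : w ∈ B ∩ A => h2 h.2),
        exA_of_notMem h2]
  · rw [Set.indicator_of_notMem h1, Set.indicator_of_notMem (fun h : w ∈ B ∩ A => h1 h.1)]

/-- parameters for a class (compare `SAPF.Params`) -/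
structure ParamsA (A : Set Word) (u c : ℝ) : Prop where
  u_pos : 0 < u
  c_nonneg : 0 ≤ c
  one : mass (exA A u c 0) Irr = 1
  tail : ∃ δ > 0, mass (exA A (u - δ) c 0) Irr ≠ ∞
  low : ∃ κ > 0, ∀ n : ℕ, ENNReal.ofReal κ ≤ mass (exA A u c 0) {w | IsBr w ∧ w.length = n}
  up : ∀ n : ℕ, mass (exA A u c 0) {w | IsBr w ∧ w.length = n} ≤ 1

/-- the polygon has two arcs in the class `A` -/
def InA (A : Set Word) (n : ℕ) (v : ZMod (2 * n) → ℤ × ℤ) : Prop :=
  ∃ i a b, IsArcs n v i a b ∧ Dir.E :: a ∈ A ∧ Dir.E :: b ∈ A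

/-- the two arcs from a leftmost vertex `v i` to a rightmost vertex `v (i + p)` never backtrack by
more than `k` columns -/
def InK (k : ℕ) {m : ℕ} (v : ZMod m → ℤ × ℤ) : Prop :=
  ∃ (i : ZMod m) (p : ℕ), p ≤ m ∧ (∀ j, (v i).1 ≤ (v j).1 ∧ (v j).1 ≤ (v (i + p)).1) ∧
    (∀ s t : ℕ, s ≤ t → t ≤ p → (v (i + s)).1 ≤ (v (i + t)).1 + k) ∧
    (∀ s t : ℕ, p ≤ s → s ≤ t → t ≤ m → (v (i + t)).1 ≤ (v (i + s)).1 + k)

end Pool.Agent.SAPK
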