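import Pool.Agent.SAPK.DefsK

/-!
Anti-concentration for the signs of the flippable pieces, for a class of words.
-/

namespace Pool.Agent.SAPK

open scoped ENNReal
open Pool.Agent.SAPF

namespace FlipK

open Pool.Agent.SAPF.Flip

/-- weight of a list of pieces -/
noncomputable def wp (φ : Word → ℝ≥0∞) (ps : List Word) : ℝ≥0∞ := (ps.map φ).prod

lemma wp_append (φ : Word → ℝ≥0∞) (a b : List Word) : wp φ (a ++ b) = wp φ a * wp φ b := by
  unfold wp
  rw [List.map_append, List.prod_append]

/-- the weights of the two flippable pieces are `w` -/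
structure Wt (φ : Word → ℝ≥0∞) (w : ℝ≥0∞) : Prop where
  fp : ∀ b, φ (Fp b) = w
  ne_zero : w ≠ 0
  ne_top : w ≠ ∞
  one : mass φ Irr = 1

variable {φ : Word → ℝ≥0∞} {w : ℝ≥0∞}

lemma wp_build (h : Wt φ w) (ks : List (List Word)) (bs : List Bool)
    (hl : ks.length = bs.length) :
    wp φ (build ks bs) = (ks.map (wp φ)).prod * w ^ bs.length := by
  induction ks generalizing bs with
  | nil =>
    rw [List.length_nil] at hl
    have : bs = [] := List.length_eq_zero_iff.1 hl.symm
    subst this
    simp [build, wp]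
  | cons ns ks ih =>
    rcases bs with _ | ⟨b, bs⟩
    · simp at hl
    · simp only [List.length_cons, Nat.add_right_cancel_iff] at hl
      have h1 : wp φ (Fp b :: build ks bs) = w * wp φ (build ks bs) := by
        unfold wp
        rw [List.map_cons, List.prod_cons, h.fp]
      rw [build, wp_append, h1, ih bs hl, List.map_cons, List.prod_cons, List.length_cons, pow_succ]
      ring

lemma split_massA (h : Wt φ w) : mass φ (Irr \ {p | Flp p}) + 2 * w = 1 := by
  have h1 := split_irr φ irr_Fp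
  rw [h.one, h.fp, h.fp, ← two_mul] at h1
  exact h1.symm

lemma mass_NfA (h : Wt φ w) : mass (wp φ) Nf * (2 * w) ≤ 1 := by
  set α := mass φ (Irr \ {p | Flp p}) with hα
  have hsplit : α + 2 * w = 1 := split_massA h
  have hw0 : 2 * w ≠ 0 := mul_ne_zero two_ne_zero h.ne_zero
  have hwt : 2 * w ≠ ∞ := ENNReal.mul_ne_top ENNReal.ofNat_ne_top h.ne_top
  have hαt : α ≠ ∞ := by
    intro h'
    rw [h'] at hsplit
    simp at hsplit
  have h1α : 1 - α = 2 * w := by
    rw [← hsplit]
    exact ENNReal.add_sub_cancel_left hαt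
  have hN : mass (wp φ) Nf ≤ (1 - α)⁻¹ := by
    rw [← ENNReal.tsum_geometric]
    have hset : (Nf : Set (List Word)) = ⋃ k : ℕ, {l : List Word | l.length = k ∧
        ∀ a ∈ l, a ∈ Irr \ {p | Flp p}} := by
      ext l
      simp only [Set.mem_iUnion, Set.mem_ofPred_eq]
      constructor
      · intro h
        exact ⟨l.length, rfl, h⟩
      · rintro ⟨k, _, h⟩
        exact h
    rw [hset]
    refine (mass_iUnion_le _ _).trans (ENNReal.tsum_le_tsum fun k => ?_)
    exact mass_lists_le φ (Irr \ {p | Flp p}) k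
  calc mass (wp φ) Nf * (2 * w) ≤ (1 - α)⁻¹ * (2 * w) := by gcongr
    _ = (2 * w)⁻¹ * (2 * w) := by rw [h1α]
    _ = 1 := ENNReal.inv_mul_cancel hw0 hwt

lemma mass_badA (h : Wt φ w) (D : ℤ → Finset ℤ)
    (l r q : ℕ) (hq0 : 0 < q) (hD : ∀ x, (D x).card ≤ l) (hq : 64 * r ^ 2 * l ^ 2 ≤ q) (x y : ℤ) :
    mass (wp φ) {ps | ps ∈ Blk (4 * q) ∧ farP r D x y ps < q} ≤ 1 / 2 := by
  set Sk : Set (List (List Word)) := {ks | ks.length = 4 * q ∧ ∀ ns ∈ ks, ns ∈ Nf} with hSk
  set B : List (List Word) → Set (List Bool) := fun ks =>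
    {bs | bs.length = 4 * q ∧ farP r D x y (build ks bs) < q} with hB
  have h1 : mass (wp φ) {ps | ps ∈ Blk (4 * q) ∧ farP r D x y ps < q} ≤
      mass (fun p : List (List Word) × List Bool =>
        (p.1.map (wp φ)).prod * (fun _ : List Bool => w ^ (4 * q)) p.2)
        {p | p.1 ∈ Sk ∧ p.2 ∈ B p.1} := by
    refine mass_le_of_section (fun p : List (List Word) × List Bool => build p.1 p.2) ?_
    rintro ps ⟨⟨ks, bs, hk, hb, hN, rfl⟩, hf⟩
    refine ⟨(ks, bs), ⟨⟨hk, hN⟩, hb, hf⟩, rfl, ?_⟩
    have := wp_build h ks bs (by rw [hk, hb])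
    rw [this, hb]
  have h2 : mass (fun p : List (List Word) × List Bool =>
        (p.1.map (wp φ)).prod * (fun _ : List Bool => w ^ (4 * q)) p.2)
        {p | p.1 ∈ Sk ∧ p.2 ∈ B p.1} ≤
      mass (fun ks : List (List Word) => (ks.map (wp φ)).prod) Sk *
        ((2 : ℝ≥0∞) ^ (4 * q) / 2 * w ^ (4 * q)) := by
    refine mass_sigma_le (fun ks : List (List Word) => (ks.map (wp φ)).prod)
      (fun _ : List Bool => w ^ (4 * q)) Sk B _ ?_
    rintro ks ⟨hk, hN⟩
    have hsub : B ks ⊆ ↑((Lst (4 * q)).filter (fun b => farS r (Dl D x y ks) 0 b < q)) := by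
      rintro bs ⟨hb, hf⟩
      rw [Finset.mem_coe, Finset.mem_filter, mem_Lst]
      refine ⟨hb, ?_⟩
      rw [← farP_build r D x y 0 hN bs, add_zero]
      exact hf
    have hcard := sign_lemma r l q hq0 hq (Dl D x y ks) (by rw [length_Dl, hk])
      (card_Dl hD x y ks) 0
    refine (mass_mono hsub).trans ?_
    rw [mass, Finset.tsum_subtype' _ (fun _ : List Bool => w ^ (4 * q)), Finset.sum_const,
      nsmul_eq_mul]
    gcongr
    rw [ENNReal.le_div_iff_mul_le (Or.inl two_ne_zero) (Or.inl ENNReal.ofNat_ne_top)]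
    have : ((((Lst (4 * q)).filter (fun b => farS r (Dl D x y ks) 0 b < q)).card * 2 : ℕ) : ℝ≥0∞) ≤
        ((2 ^ (4 * q) : ℕ) : ℝ≥0∞) := by
      exact_mod_cast (by rw [mul_comm]; exact hcard)
    simpa using this
  have h3 : mass (fun ks : List (List Word) => (ks.map (wp φ)).prod) Sk ≤
      (mass (wp φ) Nf) ^ (4 * q) := mass_lists_le (wp φ) Nf (4 * q)
  calc _ ≤ _ := h1.trans h2
    _ ≤ (mass (wp φ) Nf) ^ (4 * q) * ((2 : ℝ≥0∞) ^ (4 * q) / 2 * w ^ (4 * q)) := by gcongr
    _ = (mass (wp φ) Nf * (2 * w)) ^ (4 * q) / 2 := by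
        rw [mul_pow, mul_pow]
        simp only [div_eq_mul_inv]
        ring
    _ ≤ 1 ^ (4 * q) / 2 := by
        gcongr
        exact mass_NfA h
    _ = 1 / 2 := by rw [one_pow]

lemma bad_boundA (h : Wt φ w) (D : ℤ → Finset ℤ)
    (l r q : ℕ) (hD : ∀ x, (D x).card ≤ l) (hq : 64 * r ^ 2 * l ^ 2 ≤ q) (J k : ℕ) (x y : ℤ) :
    mass (wp φ) (Bad D r q J k x y) ≤ (1 / 2) ^ J := by
  induction J generalizing k x y with
  | zero =>
    rw [pow_zero]
    have h1 : Bad D r q 0 k x y ⊆ {l : List Word | l.length = k ∧ ∀ a ∈ l, a ∈ Irr} :=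
      fun ps h => ⟨h.1, h.2.1⟩
    refine (mass_mono h1).trans ?_
    have h2 := mass_lists_le φ Irr k
    rw [h.one, one_pow] at h2
    exact h2
  | succ J ih =>
    rcases Nat.eq_zero_or_pos q with hq0 | hq0
    · have : Bad D r q (J + 1) k x y = ∅ := by
        ext ps
        simp only [Set.mem_empty_iff_false, iff_false]
        rintro ⟨_, _, _, h⟩
        omega
      rw [this, mass_empty]
      exact zero_le
    · have h1 : mass (wp φ) (Bad D r q (J + 1) k x y) ≤
          mass (fun p : List Word × List Word => wp φ p.1 * wp φ p.2)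
            {p | p.1 ∈ {ps | ps ∈ Blk (4 * q) ∧ farP r D x y ps < q} ∧
              p.2 ∈ Bad D r q J (k - p.1.length) (x + X p.1.flatten) (y + Y p.1.flatten)} := by
        refine mass_le_of_section (fun p : List Word × List Word => p.1 ++ p.2) ?_
        rintro ps ⟨hk, hirr, hcnt, hfar⟩
        obtain ⟨b, rest, rfl, hb, hcnt'⟩ := split_block (4 * q) hirr (by
          have : 4 * q ≤ (J + 1) * (4 * q) := Nat.le_mul_of_pos_left _ (by omega)
          omega)
        rw [farP_append] at hfar
        have hf1 : farP r D x y b < q := by omega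
        have hf2 : farP r D (x + X b.flatten) (y + Y b.flatten) rest < q := by omega
        refine ⟨(b, rest), ⟨⟨hb, hf1⟩, ?_, fun p hp => hirr p (List.mem_append_right _ hp),
          ?_, hf2⟩, rfl, ?_⟩
        · rw [List.length_append] at hk
          show rest.length = k - b.length
          omega
        · show J * (4 * q) ≤ rest.countP (fun p => decide (Flp p))
          have : (J + 1) * (4 * q) = J * (4 * q) + 4 * q := by ring
          omega
        · show wp φ (b ++ rest) ≤ wp φ b * wp φ rest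
          exact (wp_append φ b rest).le
      refine h1.trans ?_
      refine (mass_sigma_le (wp φ) (wp φ) {ps | ps ∈ Blk (4 * q) ∧ farP r D x y ps < q}
        (fun p => Bad D r q J (k - p.length) (x + X p.flatten) (y + Y p.flatten)) ((1 / 2) ^ J)
        (fun a _ => ih _ _ _)).trans ?_
      rw [pow_succ, mul_comm]
      gcongr
      exact mass_badA h D l r q hq0 hD hq x y

lemma exA_flatten {A : Set Word} (hA : IsClass A) {u c : ℝ} {ps : List Word} (h : AllIrr ps) :
    exA A u c 0 ps.flatten = wp (exA A u c 0) ps := by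
  induction ps with
  | nil => simp [exA_nil hA, wp]
  | cons p ps ih =>
    have hp : IsIrr p := h p (by simp)
    have hps : AllIrr ps := fun q hq => h q (by simp [hq])
    rw [List.flatten_cons, exA_append hA hp.br (isBr_flatten hps), ih hps]
    unfold wp
    rw [List.map_cons, List.prod_cons]

lemma wt_exA {A : Set Word} (hA : IsClass A) {u c : ℝ} (hone : mass (exA A u c 0) Irr = 1) :
    Wt (exA A u c 0) (ex u c 0 [Dir.E, Dir.N]) := by
  refine ⟨?_, (ex_pos u c 0 _).ne', ex_ne_top u c 0 _, hone⟩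
  intro b
  have hb : Fp b ∈ A := by
    cases b
    · exact hA.ES1
    · exact hA.EN1
  rw [exA_of_mem hb, ex_Fp]

/-- few flippable pieces -/
lemma few_flips_gen {w : ℝ} (hw0 : 0 < w) (hW : Wt φ (ENNReal.ofReal w)) :
    ∃ ε > 0, ∃ ρ < 1, 0 < ρ ∧ ∀ k : ℕ,
    mass (wp φ)
      {ps | ps.length = k ∧ AllIrr ps ∧ (ps.countP (fun p => decide (Flp p)) : ℝ) < ε * k} ≤
        ENNReal.ofReal (ρ ^ k) := by
  set α := mass φ (Irr \ {p | Flp p}) with hα
  have hsplit : α + 2 * ENNReal.ofReal w = 1 := split_massA hW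
  have hαt : α ≠ ∞ := by
    intro h'
    rw [h'] at hsplit
    simp at hsplit
  have hreal : α.toReal + 2 * w = 1 := by
    have h1 := congrArg ENNReal.toReal hsplit
    rw [ENNReal.toReal_add hαt (ENNReal.mul_ne_top ENNReal.ofNat_ne_top ENNReal.ofReal_ne_top),
      ENNReal.toReal_mul, ENNReal.toReal_ofReal hw0.le] at h1
    simpa using h1
  have hα0 : 0 ≤ α.toReal := ENNReal.toReal_nonneg
  have hw1 : w ≤ 1 / 2 := by linarith
  have hαeq : α = ENNReal.ofReal (1 - 2 * w) := by
    rw [← ENNReal.ofReal_toReal hαt]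
    congr 1
    linarith
  set L : ℝ := Real.log (1 - w) with hL
  have hL0 : L < 0 := Real.log_neg (by linarith) (by linarith)
  have hexpL : Real.exp L = 1 - w := Real.exp_log (by linarith)
  have hlog2 : 0 < Real.log 2 := Real.log_pos (by norm_num)
  refine ⟨-L / (2 * Real.log 2), by apply div_pos <;> linarith, Real.exp (L / 2), ?_,
    Real.exp_pos _, fun k => ?_⟩
  · rw [Real.exp_lt_one_iff]
    linarith
  classical
  set ψ : Word → ℝ≥0∞ := fun p => if Flp p then ENNReal.ofReal (w / 2) else φ p with hψ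
  have hψirr : mass ψ Irr = ENNReal.ofReal (1 - w) := by
    rw [split_irr ψ irr_Fp]
    have h1 : mass ψ (Irr \ {p | Flp p}) = α := by
      refine mass_congr fun p hp => ?_
      have hp' : ¬ Flp p := hp.2
      simp only [hψ]
      rw [if_neg hp']
    have h2 : ∀ b, ψ (Fp b) = ENNReal.ofReal (w / 2) := fun b => by
      simp only [hψ]
      rw [if_pos (flp_Fp b)]
    rw [h1, h2, h2, hαeq, ← ENNReal.ofReal_add (by linarith) (by linarith),
      ← ENNReal.ofReal_add (by linarith) (by linarith)]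
    congr 1
    ring
  have hpt : ∀ ps : List Word, wp φ ps ≤
      (ps.map ψ).prod * 2 ^ ps.countP (fun p => decide (Flp p)) := by
    intro ps
    unfold wp
    induction ps with
    | nil => simp
    | cons p ps ih =>
      by_cases hp : Flp p
      · rw [List.map_cons, List.prod_cons, List.map_cons, List.prod_cons,
          List.countP_cons_of_pos (by simpa using hp), pow_succ]
        have h1 : φ p = ψ p * 2 := by
          obtain ⟨b, rfl⟩ := flp_iff.1 hp
          simp only [hψ]
          rw [if_pos (flp_Fp b), hW.fp]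
          have h2 : (2 : ℝ≥0∞) = ENNReal.ofReal 2 := by simp
          rw [h2, ← ENNReal.ofReal_mul (by linarith)]
          congr 1
          ring
        calc φ p * (ps.map φ).prod
            ≤ (ψ p * 2) * ((ps.map ψ).prod * 2 ^ ps.countP (fun p => decide (Flp p))) := by
              rw [h1]; gcongr
          _ = _ := by ring
      · rw [List.map_cons, List.prod_cons, List.map_cons, List.prod_cons,
          List.countP_cons_of_neg (by simpa using hp)]
        have h1 : φ p = ψ p := by
          simp only [hψ]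
          rw [if_neg hp]
        calc φ p * (ps.map φ).prod
            ≤ ψ p * ((ps.map ψ).prod * 2 ^ ps.countP (fun p => decide (Flp p))) := by
              rw [h1]; gcongr
          _ = _ := by ring
  set ε : ℝ := -L / (2 * Real.log 2) with hε
  calc mass (wp φ)
        {ps | ps.length = k ∧ AllIrr ps ∧ (ps.countP (fun p => decide (Flp p)) : ℝ) < ε * k}
      ≤ mass (fun ps : List Word => ENNReal.ofReal (2 ^ (ε * k)) * (ps.map ψ).prod)
        {ps | ps.length = k ∧ AllIrr ps ∧ (ps.countP (fun p => decide (Flp p)) : ℝ) < ε * k} := by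
        refine mass_mono_fun ?_
        rintro ps ⟨_, _, hc⟩
        rw [mul_comm]
        refine (hpt ps).trans ?_
        gcongr
        rw [show (2 : ℝ≥0∞) = ENNReal.ofReal 2 by simp, ← ENNReal.ofReal_pow (by norm_num)]
        apply ENNReal.ofReal_le_ofReal
        rw [← Real.rpow_natCast]
        exact Real.rpow_le_rpow_of_exponent_le (by norm_num) hc.le
    _ = ENNReal.ofReal (2 ^ (ε * k)) * mass (fun ps : List Word => (ps.map ψ).prod)
        {ps | ps.length = k ∧ AllIrr ps ∧ (ps.countP (fun p => decide (Flp p)) : ℝ) < ε * k} :=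
        mass_const_mul _ _ _
    _ ≤ ENNReal.ofReal (2 ^ (ε * k)) * mass (fun ps : List Word => (ps.map ψ).prod)
        {l : List Word | l.length = k ∧ ∀ a ∈ l, a ∈ Irr} := by
        gcongr
        exact mass_mono fun ps hps => ⟨hps.1, hps.2.1⟩
    _ ≤ ENNReal.ofReal (2 ^ (ε * k)) * (mass ψ Irr) ^ k := by
        gcongr
        exact mass_lists_le ψ Irr k
    _ = ENNReal.ofReal (Real.exp (L / 2) ^ k) := by
        rw [hψirr, ← ENNReal.ofReal_pow (by linarith), ← ENNReal.ofReal_mul (by positivity)]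
        congr 1
        rw [← hexpL, ← Real.exp_nat_mul, ← Real.exp_nat_mul, Real.rpow_def_of_pos (by norm_num),
          ← Real.exp_add]
        congr 1
        rw [hε]
        field_simp
        ring

end FlipK

open FlipK

theorem flip_boundA {A : Set Word} (hA : IsClass A) {u c : ℝ} (hone : mass (exA A u c 0) Irr = 1)
    (D : ℤ → Finset ℤ) (l r q J k : ℕ) (hD : ∀ x, (D x).card ≤ l) (hq : 64 * r ^ 2 * l ^ 2 ≤ q) :
    mass (fun ps : List Word => exA A u c 0 ps.flatten)
      {ps | ps.length = k ∧ AllIrr ps ∧ J * (4 * q) ≤ ps.countP (fun p => decide (Flp p)) ∧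
        farP r D 0 0 ps < q} ≤ (1 / 2) ^ J := by
  refine le_trans (le_of_eq ?_) (bad_boundA (wt_exA hA hone) D l r q hD hq J k 0 0)
  refine mass_congr fun ps hps => ?_
  exact exA_flatten hA hps.2.1

theorem few_flipsA {A : Set Word} (hA : IsClass A) {u c : ℝ} (h : ParamsA A u c) :
    ∃ ε > 0, ∃ ρ < 1, 0 < ρ ∧ ∀ k : ℕ,
    mass (fun ps : List Word => exA A u c 0 ps.flatten)
      {ps | ps.length = k ∧ AllIrr ps ∧ (ps.countP (fun p => decide (Flp p)) : ℝ) < ε * k} ≤
        ENNReal.ofReal (ρ ^ k) := by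
  have hW := wt_exA hA h.one
  have hexw : ex u c 0 [Dir.E, Dir.N] = ENNReal.ofReal (Real.exp (-u * 2 + c)) := by
    unfold ex
    congr 2
    simp [Dir.dx]
  rw [hexw] at hW
  obtain ⟨ε, hε, ρ, hρ, hρ0, hk⟩ := few_flips_gen (Real.exp_pos _) hW
  refine ⟨ε, hε, ρ, hρ, hρ0, fun k => le_trans (le_of_eq ?_) (hk k)⟩
  refine mass_congr fun ps hps => ?_
  exact exA_flatten hA hps.2.1

end Pool.Agent.SAPK
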