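import Pool.Agent.SAPK.LowK

/-!
Irreducible bridges of `Ak k` of span `s` are exponentially rarer than bridges of span `s`.
-/

namespace Pool.Agent.SAPK

open scoped ENNReal
open Pool.Agent.SAPF

/-- all slabs are good for words of `Ak k` -/
lemma gd_of_Ak {k : ℕ} {w : Word} (h : w ∈ Ak k) (i : ℤ) : Gd ((k + 1 : ℕ) : ℤ) i w := by
  intro u u' huu hu' hx hx'
  obtain ⟨t, rfl⟩ := huu
  have ht : t <:+: w := (List.suffix_append u t).isInfix.trans hu'.isInfix
  have h1 := h t ht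
  rw [X_append, hx] at hx'
  push_cast at hx'
  have : X t = -((k : ℤ) + 1) := by linarith
  omega

lemma gc_of_Ak {k : ℕ} {w : Word} (h : w ∈ Ak k) (j : ℤ) : GC (k + 1) j w :=
  ⟨gd_of_Ak h _, gd_of_Ak h _⟩

/-- bridges of the class with few cuts -/
def SkA (k q s : ℕ) (m : ℕ) : Set Word :=
  {w | w ∈ BrS s ∧ w ∈ Ak k ∧ ncut (k + 1) q w ≤ m}

lemma surg_memA {k q s m : ℕ} {i : ℕ} {A V Z : Word}
    (h : Win (k + 1) (3 * i + 1) A V Z) (hw : A ++ (V ++ Z) ∈ SkA k q s m) :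
    A ++ (seg (k + 1) ++ Z) ∈ SkA k q s (m + 1) := by
  classical
  obtain ⟨⟨-, hX⟩, hA, hk⟩ := hw
  have hcl := isClass_Ak k
  refine ⟨⟨h.br', by rw [h.X', hX]⟩, ?_, ?_⟩
  · rw [hcl.mul h.brA ((isBr_replicate_E _).append h.brZ), hcl.mul (isBr_replicate_E _) h.brZ]
    refine ⟨Ak_factor hA (List.prefix_append _ _).isInfix, ?_,
      Ak_factor hA ((List.suffix_append V Z).trans (List.suffix_append A _)).isInfix⟩
    intro t ht
    have h0 : 0 ≤ X t := by
      have hmem : ∀ d ∈ t, d = Dir.E := fun d hd => List.eq_of_mem_replicate (ht.subset hd)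
      have : t = List.replicate t.length Dir.E := List.eq_replicate_of_mem hmem
      rw [this, X_replicate_E]
      positivity
    omega
  · refine le_trans ?_ (Nat.succ_le_succ hk)
    unfold ncut
    rw [Nat.succ_eq_add_one]
    refine le_trans (Finset.card_le_card (t := insert i ((Finset.range q).filter
      (fun i : ℕ => Cut (k + 1) (3 * i + 1) (A ++ (V ++ Z))))) ?_) (Finset.card_insert_le _ _)
    intro i' hi'
    rw [Finset.mem_filter] at hi'
    rw [Finset.mem_insert, Finset.mem_filter]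
    by_cases hii : i' = i
    · exact Or.inl hii
    · refine Or.inr ⟨hi'.1, h.cut_of_cut (Nat.succ_pos k) ?_ hi'.2⟩
      rcases Nat.lt_or_gt_of_ne hii with h1 | h1
      · left; omega
      · right; omega

/-- the surgery inequality at one centre -/
lemma surg_oneA {u : ℝ} {k q s m : ℕ} (hs : 3 * q * (k + 1) ≤ s) {i : ℕ} (hi : i < q) :
    mass (ex u 0 0) {w | w ∈ SkA k q s m ∧ ¬ Cut (k + 1) (3 * i + 1) w} ≤
      (ENNReal.ofReal (Real.exp (u * (k + 1 : ℕ))) *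
        mass (ex u 0 0) (Low k (2 * (k + 1)))) *
        mass (ex u 0 0) {w | w ∈ SkA k q s (m + 1) ∧ Cut (k + 1) (3 * i + 1) w} := by
  have key : mass (ex u 0 0) {w | w ∈ SkA k q s m ∧ ¬ Cut (k + 1) (3 * i + 1) w} ≤
      mass (fun p : Word × Word =>
        (ENNReal.ofReal (Real.exp (u * (k + 1 : ℕ))) * ex u 0 0 p.1) * ex u 0 0 p.2)
        ({w | w ∈ SkA k q s (m + 1) ∧ Cut (k + 1) (3 * i + 1) w} ×ˢ Low k (2 * (k + 1))) := by
    refine mass_le_of_rel (Rel (k + 1) (3 * i + 1)) ?_ fun a a' b h h' => h.unique h'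
    rintro w ⟨hw, -⟩
    have hX : X w = s := hw.1.2
    have hi3 : (3 * (i : ℤ) + 1 + 1) * ((k + 1 : ℕ) : ℤ) < X w := by
      rw [hX]
      have h1 : (3 * i + 1 + 1) * (k + 1) < 3 * q * (k + 1) :=
        Nat.mul_lt_mul_of_pos_right (by omega) (Nat.succ_pos k)
      have h2 : (3 * i + 1 + 1) * (k + 1) < s := by omega
      exact_mod_cast h2
    obtain ⟨A, V, Z, rfl, hW⟩ := exists_win (Nat.succ_pos k) (by omega) hw.1.1 hi3
      (gc_of_Ak hw.2.1 _)
    have hVfac : V <:+: A ++ (V ++ Z) := ⟨A, Z, by rw [List.append_assoc]⟩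
    refine ⟨(A ++ (seg (k + 1) ++ Z), V), ⟨⟨surg_memA hW hw, hW.cut⟩, ?_⟩,
      ⟨A, Z, rfl, rfl, hW.XA, hW.first⟩, ?_⟩
    · refine ⟨hW.br.saw.right.left, Ak_factor hw.2.1 hVfac, fun t ht => ?_⟩
      have := hW.hi t ht
      push_cast at this ⊢
      exact this.le
    · simp only [ex_append]
      have hseg : ENNReal.ofReal (Real.exp (u * (k + 1 : ℕ))) * ex u 0 0 (seg (k + 1)) = 1 := by
        unfold ex
        rw [← ENNReal.ofReal_mul (Real.exp_pos _).le, ← Real.exp_add]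
        simp
      calc ex u 0 0 A * (ex u 0 0 V * ex u 0 0 Z)
          = (ENNReal.ofReal (Real.exp (u * (k + 1 : ℕ))) * ex u 0 0 (seg (k + 1))) *
            (ex u 0 0 A * (ex u 0 0 V * ex u 0 0 Z)) := by rw [hseg, one_mul]
        _ ≤ _ := le_of_eq (by ring)
  refine key.trans (le_of_eq ?_)
  rw [mass_prod (fun w => ENNReal.ofReal (Real.exp (u * (k + 1 : ℕ))) * ex u 0 0 w) (ex u 0 0),
    mass_const_mul]
  ring

/-- the summed surgery inequality -/
lemma surg_sumA {u : ℝ} {k q s m : ℕ} (hs : 3 * q * (k + 1) ≤ s) :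
    ((q - m : ℕ) : ℝ≥0∞) * mass (ex u 0 0) (SkA k q s m) ≤
      (ENNReal.ofReal (Real.exp (u * (k + 1 : ℕ))) * mass (ex u 0 0) (Low k (2 * (k + 1)))) *
        (((m + 1 : ℕ) : ℝ≥0∞) * mass (ex u 0 0) (SkA k q s (m + 1))) := by
  classical
  set C := ENNReal.ofReal (Real.exp (u * (k + 1 : ℕ))) *
    mass (ex u 0 0) (Low k (2 * (k + 1))) with hC
  calc ((q - m : ℕ) : ℝ≥0∞) * mass (ex u 0 0) (SkA k q s m)
      = mass (fun w => ((q - m : ℕ) : ℝ≥0∞) * ex u 0 0 w) (SkA k q s m) :=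
        (mass_const_mul _ _ _).symm
    _ ≤ mass (fun w => (((Finset.range q).filter (fun i : ℕ =>
          ¬ Cut (k + 1) (3 * i + 1) w)).card : ℝ≥0∞) * ex u 0 0 w) (SkA k q s m) := by
        refine mass_mono_fun fun w hw => mul_le_mul' (Nat.cast_le.2 ?_) le_rfl
        have h1 : ncut (k + 1) q w ≤ m := hw.2.2
        have h3 : ((Finset.range q).filter (fun i : ℕ => Cut (k + 1) (3 * i + 1) w)).card +
            ((Finset.range q).filter (fun i : ℕ => ¬ Cut (k + 1) (3 * i + 1) w)).card = q := by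
          rw [Finset.card_filter_add_card_filter_not, Finset.card_range]
        unfold ncut at h1
        omega
    _ = ∑ i ∈ Finset.range q, mass (ex u 0 0) {w | w ∈ SkA k q s m ∧
          ¬ Cut (k + 1) (3 * i + 1) w} :=
        (sum_mass _ _ _ (fun (i : ℕ) w => ¬ Cut (k + 1) (3 * i + 1) w)).symm
    _ ≤ ∑ i ∈ Finset.range q, C *
        mass (ex u 0 0) {w | w ∈ SkA k q s (m + 1) ∧ Cut (k + 1) (3 * i + 1) w} :=
        Finset.sum_le_sum fun i hi => surg_oneA hs (Finset.mem_range.1 hi)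
    _ = C * mass (fun w =>
          (((Finset.range q).filter (fun i : ℕ => Cut (k + 1) (3 * i + 1) w)).card : ℝ≥0∞) *
            ex u 0 0 w) (SkA k q s (m + 1)) := by
        rw [← Finset.mul_sum, sum_mass _ _ _ (fun (i : ℕ) w => Cut (k + 1) (3 * i + 1) w)]
    _ ≤ C * mass (fun w =>
          ((m + 1 : ℕ) : ℝ≥0∞) * ex u 0 0 w) (SkA k q s (m + 1)) := by
        refine mul_le_mul' le_rfl ?_
        exact mass_mono_fun fun w hw => mul_le_mul' (Nat.cast_le.2 hw.2.2) le_rfl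
    _ = _ := by rw [mass_const_mul]

/-- one halving step -/
lemma surg_halfA {u : ℝ} {k q s m K : ℕ} (hs : 3 * q * (k + 1) ≤ s)
    (hK : ENNReal.ofReal (Real.exp (u * (k + 1 : ℕ))) *
      mass (ex u 0 0) (Low k (2 * (k + 1))) ≤ K) (hK0 : 0 < K)
    (hm : 2 * K * (m + 1) + m ≤ q) :
    2 * mass (ex u 0 0) (SkA k q s m) ≤ mass (ex u 0 0) (SkA k q s (m + 1)) := by
  have h := surg_sumA (u := u) (m := m) hs
  have h1 : (((K * (m + 1) : ℕ) : ℝ≥0∞)) * (2 * mass (ex u 0 0) (SkA k q s m)) ≤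
      ((K * (m + 1) : ℕ) : ℝ≥0∞) * mass (ex u 0 0) (SkA k q s (m + 1)) := by
    calc (((K * (m + 1) : ℕ) : ℝ≥0∞)) * (2 * mass (ex u 0 0) (SkA k q s m))
        = ((2 * K * (m + 1) : ℕ) : ℝ≥0∞) * mass (ex u 0 0) (SkA k q s m) := by
          push_cast; ring
      _ ≤ ((q - m : ℕ) : ℝ≥0∞) * mass (ex u 0 0) (SkA k q s m) := by
          gcongr
          omega
      _ ≤ _ := h
      _ ≤ (K : ℝ≥0∞) * (((m + 1 : ℕ) : ℝ≥0∞) * mass (ex u 0 0) (SkA k q s (m + 1))) := by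
          gcongr
      _ = _ := by push_cast; ring
  have h2 : ((K * (m + 1) : ℕ) : ℝ≥0∞) ≠ 0 := by
    have : K * (m + 1) ≠ 0 := by positivity
    exact_mod_cast this
  exact (ENNReal.mul_le_mul_iff_right h2 (ENNReal.natCast_ne_top _)).1 h1

lemma surg_powA {u : ℝ} {k q s K : ℕ} (hs : 3 * q * (k + 1) ≤ s)
    (hK : ENNReal.ofReal (Real.exp (u * (k + 1 : ℕ))) *
      mass (ex u 0 0) (Low k (2 * (k + 1))) ≤ K) (hK0 : 0 < K) (r : ℕ)
    (hr : (2 * K + 1) * r ≤ q) :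
    2 ^ r * mass (ex u 0 0) (SkA k q s 0) ≤ mass (ex u 0 0) (SkA k q s r) := by
  induction r with
  | zero => simp
  | succ r ih =>
    have h1 := ih (by nlinarith)
    have h2 := surg_halfA (u := u) (m := r) hs hK hK0 (by nlinarith)
    calc (2 : ℝ≥0∞) ^ (r + 1) * mass (ex u 0 0) (SkA k q s 0)
        = 2 * (2 ^ r * mass (ex u 0 0) (SkA k q s 0)) := by ring
      _ ≤ 2 * mass (ex u 0 0) (SkA k q s r) := by gcongr
      _ ≤ _ := h2

/-- bound for one span -/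
lemma irr_spanA {u : ℝ} {k K : ℕ} (hK : ENNReal.ofReal (Real.exp (u * (k + 1 : ℕ))) *
      mass (ex u 0 0) (Low k (2 * (k + 1))) ≤ K) (hK0 : 0 < K) (s : ℕ) :
    mass (ex u 0 0) {w | w ∈ Irr ∧ w ∈ Ak k ∧ X w = s} ≤
        (2⁻¹) ^ (s / (3 * (k + 1)) / (2 * K + 1)) * mass (ex u 0 0) (BrS s ∩ Ak k) := by
  set q := s / (3 * (k + 1)) with hq
  set r := q / (2 * K + 1) with hr
  have hs : 3 * q * (k + 1) ≤ s := by
    have := Nat.mul_div_le s (3 * (k + 1))
    rw [← hq] at this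
    nlinarith
  have hsub : {w | w ∈ Irr ∧ w ∈ Ak k ∧ X w = s} ⊆ SkA k q s 0 := by
    rintro w ⟨hw, hA, hX⟩
    exact ⟨⟨hw.br, hX⟩, hA, (ncut_irr (Nat.succ_pos k) hw).le⟩
  refine (mass_mono hsub).trans ?_
  have h2 : (2 * K + 1) * r ≤ q := Nat.mul_div_le _ _
  have h3 := surg_powA (u := u) hs hK hK0 r h2
  have h4 : mass (ex u 0 0) (SkA k q s r) ≤ mass (ex u 0 0) (BrS s ∩ Ak k) :=
    mass_mono fun w hw => ⟨hw.1, hw.2.1⟩
  calc mass (ex u 0 0) (SkA k q s 0)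
      = (2⁻¹) ^ r * (2 ^ r * mass (ex u 0 0) (SkA k q s 0)) := by
        rw [← mul_assoc, ← mul_pow, ENNReal.inv_mul_cancel (by norm_num) (by norm_num),
          one_pow, one_mul]
    _ ≤ (2⁻¹) ^ r * mass (ex u 0 0) (BrS s ∩ Ak k) := by
        gcongr
        exact h3.trans h4

lemma half_pow_le {M : ℕ} (hM0 : 0 < M) (s : ℕ) :
    Real.exp (Real.log 2 / (2 * (M : ℕ)) * s) * ((2 : ℝ)⁻¹) ^ (s / M) ≤
      2 * Real.exp (-(Real.log 2 / (2 * (M : ℕ)))) ^ s := by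
  set ε : ℝ := Real.log 2 / (2 * (M : ℕ)) with hε
  set r := s / M with hr
  have hM0' : (0 : ℝ) < M := by exact_mod_cast hM0
  have hlog : 0 < Real.log 2 := Real.log_pos (by norm_num)
  have hε0 : 0 < ε := by rw [hε]; positivity
  have hsM : s < M * (r + 1) := Nat.lt_mul_div_succ s hM0
  have hεM : 2 * ε * M = Real.log 2 := by
    rw [hε]; field_simp
  have hhalf : ((2 : ℝ)⁻¹) ^ r ≤ 2 * Real.exp (-(2 * ε * s)) := by
    have h1 : ((2 : ℝ)⁻¹) ^ r = 2 * Real.exp (-((r + 1 : ℕ) * Real.log 2)) := by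
      rw [Real.exp_neg, Real.exp_nat_mul, Real.exp_log (by norm_num), pow_succ, inv_pow]
      field_simp
    rw [h1]
    have h2 : 2 * ε * s ≤ (r + 1 : ℕ) * Real.log 2 := by
      rw [← hεM]
      have h3 : (s : ℝ) ≤ (M : ℝ) * ((r + 1 : ℕ) : ℝ) := by exact_mod_cast hsM.le
      nlinarith
    gcongr
  calc Real.exp (ε * s) * ((2 : ℝ)⁻¹) ^ r ≤ Real.exp (ε * s) * (2 * Real.exp (-(2 * ε * s))) := by
        gcongr
    _ = 2 * (Real.exp (ε * s) * Real.exp (-(2 * ε * s))) := by ring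
    _ = 2 * Real.exp (-ε) ^ s := by
        rw [← Real.exp_add, ← Real.exp_nat_mul]
        congr 2
        ring

theorem mass_gapK {k : ℕ} {u c : ℝ} (_hc : 0 ≤ c) (hR : mass (ex u 0 0) (Strip k) ≠ ∞)
    (h1 : ∀ s : ℕ, mass (exA (Ak k) u c 0) (BrS s) ≤ 1) :
    ∃ ε > 0, mass (exA (Ak k) u (c + ε) 0) Irr ≠ ∞ := by
  -- choice of K
  obtain ⟨K, hK⟩ : ∃ K : ℕ, ENNReal.ofReal (Real.exp (u * (k + 1 : ℕ))) *
      mass (ex u 0 0) (Low k (2 * (k + 1))) ≤ K ∧ 0 < K := by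
    obtain ⟨K, hK⟩ := ENNReal.exists_nat_gt (ENNReal.mul_ne_top ENNReal.ofReal_ne_top
      (mass_low_ne_top hR _) : ENNReal.ofReal (Real.exp (u * (k + 1 : ℕ))) *
      mass (ex u 0 0) (Low k (2 * (k + 1))) ≠ ∞)
    exact ⟨K + 1, by rw [Nat.cast_add K 1]; exact hK.le.trans le_self_add, Nat.succ_pos K⟩
  obtain ⟨M, hM⟩ : ∃ M : ℕ, M = 3 * (k + 1) * (2 * K + 1) := ⟨_, rfl⟩
  have hM0 : 0 < M := by rw [hM]; positivity
  have hlog : 0 < Real.log 2 := Real.log_pos (by norm_num)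
  refine ⟨Real.log 2 / (2 * (M : ℕ)), by positivity, ?_⟩
  set ε : ℝ := Real.log 2 / (2 * (M : ℕ)) with hε
  have hε0 : 0 < ε := by rw [hε]; positivity
  have hterm : ∀ s : ℕ, mass (exA (Ak k) u (c + ε) 0) {w | w ∈ Irr ∧ X w = s} ≤
      ENNReal.ofReal (2 * Real.exp (-ε) ^ s) := by
    intro s
    have e1 : mass (exA (Ak k) u (c + ε) 0) {w | w ∈ Irr ∧ X w = s} ≤
        ENNReal.ofReal (Real.exp ((c + ε) * s)) *
          mass (ex u 0 0) {w | w ∈ Irr ∧ w ∈ Ak k ∧ X w = s} := by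
      rw [mass_exA, ← mass_const_mul]
      have hset : {w | w ∈ Irr ∧ X w = s} ∩ Ak k = {w | w ∈ Irr ∧ w ∈ Ak k ∧ X w = s} := by
        ext w
        simp only [Set.mem_inter_iff, Set.mem_ofPred_eq]
        tauto
      rw [hset]
      exact mass_mono_fun fun w hw => (ex_split hw.2.2).le
    have e2 : mass (ex u 0 0) (BrS s ∩ Ak k) ≤ ENNReal.ofReal (Real.exp (-c * s)) := by
      have e3 : mass (exA (Ak k) u c 0) (BrS s) =
          ENNReal.ofReal (Real.exp (c * s)) * mass (ex u 0 0) (BrS s ∩ Ak k) := by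
        rw [mass_exA, ← mass_const_mul]
        exact mass_congr fun w hw => ex_split hw.1.2
      have e4 := h1 s
      rw [e3] at e4
      calc mass (ex u 0 0) (BrS s ∩ Ak k)
          = ENNReal.ofReal (Real.exp (-c * s)) *
            (ENNReal.ofReal (Real.exp (c * s)) * mass (ex u 0 0) (BrS s ∩ Ak k)) := by
            rw [← mul_assoc, ← ENNReal.ofReal_mul (Real.exp_pos _).le, ← Real.exp_add]
            simp
        _ ≤ ENNReal.ofReal (Real.exp (-c * s)) * 1 := by gcongr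
        _ = _ := mul_one _
    have e5 := irr_spanA (u := u) (k := k) hK.1 hK.2 s
    rw [Nat.div_div_eq_div_mul, ← hM] at e5
    have h2 : ENNReal.ofReal ((2 : ℝ)⁻¹) = 2⁻¹ := by
      rw [ENNReal.ofReal_inv_of_pos (by norm_num)]; simp
    calc mass (exA (Ak k) u (c + ε) 0) {w | w ∈ Irr ∧ X w = s}
        ≤ ENNReal.ofReal (Real.exp ((c + ε) * s)) *
          mass (ex u 0 0) {w | w ∈ Irr ∧ w ∈ Ak k ∧ X w = s} := e1
      _ ≤ ENNReal.ofReal (Real.exp ((c + ε) * s)) *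
          ((2⁻¹) ^ (s / M) * ENNReal.ofReal (Real.exp (-c * s))) := by
          gcongr
          refine e5.trans ?_
          gcongr
      _ = ENNReal.ofReal (Real.exp (ε * s) * ((2 : ℝ)⁻¹) ^ (s / M)) := by
          rw [← h2, ← ENNReal.ofReal_pow (by norm_num), ← ENNReal.ofReal_mul (by positivity),
            ← ENNReal.ofReal_mul (Real.exp_pos _).le]
          congr 1
          have : Real.exp ((c + ε) * s) = Real.exp (ε * s) * Real.exp (c * s) := by
            rw [← Real.exp_add]; congr 1; ring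
          have h3 : Real.exp (c * s) * Real.exp (-c * s) = 1 := by
            rw [← Real.exp_add]; simp
          rw [this]
          calc Real.exp (ε * s) * Real.exp (c * s) * (((2 : ℝ)⁻¹) ^ (s / M) * Real.exp (-c * s))
              = Real.exp (ε * s) * ((2 : ℝ)⁻¹) ^ (s / M) *
                (Real.exp (c * s) * Real.exp (-c * s)) := by ring
            _ = _ := by rw [h3, mul_one]
      _ ≤ _ := ENNReal.ofReal_le_ofReal (half_pow_le hM0 s)
  have hsub : Irr ⊆ ⋃ s : ℕ, {w | w ∈ Irr ∧ X w = s} := by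
    intro w hw
    rw [Set.mem_iUnion]
    exact ⟨(X w).toNat, hw, (Int.toNat_of_nonneg hw.br.X_nonneg).symm⟩
  have hsum : Summable fun s : ℕ => 2 * Real.exp (-ε) ^ s :=
    (summable_geometric_of_lt_one (Real.exp_pos _).le
      (Real.exp_lt_one_iff.2 (by linarith))).mul_left _
  have hfin : ∑' s : ℕ, ENNReal.ofReal (2 * Real.exp (-ε) ^ s) ≠ ∞ := by
    rw [← ENNReal.ofReal_tsum_of_nonneg (fun s => by positivity) hsum]
    exact ENNReal.ofReal_ne_top
  refine ne_top_of_le_ne_top hfin ?_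
  calc mass (exA (Ak k) u (c + ε) 0) Irr
      ≤ mass (exA (Ak k) u (c + ε) 0) (⋃ s : ℕ, {w | w ∈ Irr ∧ X w = s}) := mass_mono hsub
    _ ≤ ∑' s : ℕ, mass (exA (Ak k) u (c + ε) 0) {w | w ∈ Irr ∧ X w = s} :=
        mass_iUnion_le _ _
    _ ≤ _ := ENNReal.tsum_le_tsum hterm

end Pool.Agent.SAPK
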