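import Pool.Agent.SAPK.DefsK

/-!
Words with bounded backtracking that stay to the left of a level.
-/

namespace Pool.Agent.SAPK

open scoped ENNReal
open Pool.Agent.SAPF

/-- self-avoiding words of `Ak k` that never go beyond column `s` -/
def Low (k s : ℕ) : Set Word := {w | SAW w ∧ w ∈ Ak k ∧ ∀ t, t <+: w → X t ≤ s}

lemma Ak_factor {k : ℕ} {w t : Word} (h : w ∈ Ak k) (ht : t <:+: w) : t ∈ Ak k :=
  fun s hs => h s (hs.trans ht)

/-- a factor is a difference of two beginnings -/
lemma infix_iff_prefixes {t w : Word} (h : t <:+: w) :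
    ∃ a : Word, a <+: w ∧ a ++ t <+: w := by
  obtain ⟨p, q, hpq⟩ := h
  exact ⟨p, ⟨t ++ q, by rw [← hpq, List.append_assoc]⟩, ⟨q, hpq⟩⟩

/-- a word of `Ak k` whose beginnings all have `X ≤ 0` is in the strip -/
lemma strip_of_nonpos {k : ℕ} {w : Word} (hw : SAW w) (hA : w ∈ Ak k)
    (h : ∀ t, t <+: w → X t ≤ 0) : w ∈ Strip k := by
  refine ⟨hw, fun t ht => ?_⟩
  obtain ⟨a, ha, hat⟩ := infix_iff_prefixes ht
  have h1 := hA t ht
  have h2 := hA a ha.isInfix
  have h3 := h _ hat
  rw [X_append] at h3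
  rw [abs_le]
  constructor
  · exact h1
  · omega

lemma low_zero (k : ℕ) : Low k 0 ⊆ Strip k := by
  rintro w ⟨h1, h2, h3⟩
  exact strip_of_nonpos h1 h2 (by simpa using h3)

lemma low_succ_cases {k s : ℕ} {w : Word} (h : w ∈ Low k (s + 1)) :
    w ∈ Strip k ∨ ∃ a ∈ Strip k, ∃ b ∈ Low k s, w = (a ++ [Dir.E]) ++ b := by
  obtain ⟨h1, h2, h3⟩ := h
  by_cases hex : ∃ t, t <+: w ∧ 1 ≤ X t
  · right
    obtain ⟨a', b, rfl, ha', hlt⟩ := exists_first_ge w 1 one_pos hex
    rcases List.eq_nil_or_concat a' with h0 | ⟨a, d, had⟩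
    · rw [h0] at ha'; simp at ha'
    · have had' : a' = a ++ [d] := by simpa using had
      subst had'
      have hXa : X a < 1 := hlt a (List.prefix_append a [d]) (by simp)
      have hd : d = Dir.E := by
        rw [X_append, X_cons, X_nil] at ha'
        cases d <;> simp [Dir.dx] at ha' ⊢ <;> omega
      subst hd
      refine ⟨a, ?_, b, ?_, rfl⟩
      · refine strip_of_nonpos (h1.left.left) ?_ ?_
        · exact Ak_factor h2 (((List.prefix_append a [Dir.E]).trans
            (List.prefix_append _ b)).isInfix)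
        · intro t ht
          have hne : t ≠ a ++ [Dir.E] := by
            intro h
            have := ht.length_le
            rw [h] at this
            simp at this
          have := hlt t (ht.trans (List.prefix_append a [Dir.E])) hne
          omega
      · refine ⟨h1.right, Ak_factor h2 (List.suffix_append _ b).isInfix, ?_⟩
        intro t ht
        have := h3 (a ++ [Dir.E] ++ t) ((List.prefix_append_right_inj _).2 ht)
        rw [X_append, ha'] at this
        push_cast at this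
        omega
  · left
    push Not at hex
    exact strip_of_nonpos h1 h2 fun t ht => by
      have := hex t ht
      omega

lemma mass_low_succ (u : ℝ) (k s : ℕ) : mass (ex u 0 0) (Low k (s + 1)) ≤
    mass (ex u 0 0) (Strip k) +
      (mass (ex u 0 0) (Strip k) * ENNReal.ofReal (Real.exp (-u))) *
        mass (ex u 0 0) (Low k s) := by
  have hsub : Low k (s + 1) ⊆ Strip k ∪
      {w | ∃ a ∈ Strip k, ∃ b ∈ Low k s, w = (a ++ [Dir.E]) ++ b} := by
    intro w hw
    exact low_succ_cases hw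
  refine (mass_mono hsub).trans ((mass_union_le _ _ _).trans (add_le_add le_rfl ?_))
  have hE : ex u 0 0 [Dir.E] = ENNReal.ofReal (Real.exp (-u)) := by
    unfold ex
    simp
  have h1 : mass (ex u 0 0) {w | ∃ a ∈ Strip k, w = a ++ [Dir.E]} ≤
      mass (ex u 0 0) (Strip k) * ENNReal.ofReal (Real.exp (-u)) := by
    have := mass_le_mul (φ := ex u 0 0) (φ₁ := ex u 0 0) (φ₂ := ex u 0 0)
      (A := {w | ∃ a ∈ Strip k, w = a ++ [Dir.E]}) (B := Strip k) (C := {[Dir.E]})
      (fun a _ b _ => (ex_append u 0 0 a b).le) (by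
        rintro w ⟨a, ha, rfl⟩
        exact ⟨a, ha, _, rfl, rfl⟩)
    rwa [mass_singleton, hE] at this
  refine (mass_le_mul (φ₁ := ex u 0 0) (φ₂ := ex u 0 0)
    (B := {w | ∃ a ∈ Strip k, w = a ++ [Dir.E]}) (C := Low k s)
    (fun a _ b _ => (ex_append u 0 0 a b).le) ?_).trans (mul_le_mul' h1 le_rfl)
  rintro w ⟨a, ha, b, hb, rfl⟩
  exact ⟨_, ⟨a, ha, rfl⟩, b, hb, rfl⟩

/-- **P1**: the mass of `Low k s`. -/
theorem mass_low_le (u : ℝ) (k s : ℕ) : mass (ex u 0 0) (Low k s) ≤
    mass (ex u 0 0) (Strip k) *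
      (1 + mass (ex u 0 0) (Strip k) * ENNReal.ofReal (Real.exp (-u))) ^ s := by
  set R := mass (ex u 0 0) (Strip k) with hR
  set T := R * ENNReal.ofReal (Real.exp (-u)) with hT
  induction s with
  | zero =>
    rw [pow_zero, mul_one]
    exact mass_mono (low_zero k)
  | succ s ih =>
    refine (mass_low_succ u k s).trans ?_
    rw [← hR, ← hT]
    have h1 : (1 : ℝ≥0∞) ≤ (1 + T) ^ s := one_le_pow₀ le_self_add
    calc R + T * mass (ex u 0 0) (Low k s) ≤ R * (1 + T) ^ s + T * (R * (1 + T) ^ s) := by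
          gcongr
          exact le_mul_of_one_le_right zero_le h1
      _ = R * (1 + T) ^ (s + 1) := by ring

theorem mass_low_ne_top {u : ℝ} {k : ℕ} (hR : mass (ex u 0 0) (Strip k) ≠ ∞) (s : ℕ) :
    mass (ex u 0 0) (Low k s) ≠ ∞ := by
  refine ne_top_of_le_ne_top ?_ (mass_low_le u k s)
  refine ENNReal.mul_ne_top hR (ENNReal.pow_ne_top ?_)
  exact ENNReal.add_ne_top.2 ⟨ENNReal.one_ne_top, ENNReal.mul_ne_top hR ENNReal.ofReal_ne_top⟩

/-- bridges of the class of span `s` are in `Low k s` -/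
lemma brS_inter_subset_low (k s : ℕ) : BrS s ∩ Ak k ⊆ Low k s := by
  rintro w ⟨⟨hb, hX⟩, hA⟩
  exact ⟨hb.saw, hA, fun t ht => (hb.le ht).trans_eq hX⟩

end Pool.Agent.SAPK
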