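import Pool.Agent.SAPK.DefsK
import Pool.Agent.SAPF.Params

/-!
The critical step weight for the words that never backtrack by more than `k` columns, and its
distance from the step weights at which all walks are summable.
-/

namespace Pool.Agent.SAPK
namespace PrmK

open scoped ENNReal Topology
open Filter Pool.Agent.SAPF Pool.Agent.SAPF.Prm

/-! ### factor closed languages: openness of the set of step weights with finite mass -/

/-- the words of length `N` -/
def LN (Q : Set Word) (N : ℕ) : Set Word := {w | w ∈ Q ∧ w.length = N}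

lemma LN_finite (Q : Set Word) (N : ℕ) : (LN Q N).Finite :=
  (List.finite_length_eq Dir N).subset fun _ hw => hw.2

lemma mass_LN (Q : Set Word) (u : ℝ) (N : ℕ) : mass (ex u 0 0) (LN Q N) =
    ENNReal.ofReal (Real.exp (-u * N)) * mass (fun _ => 1) (LN Q N) := by
  rw [← mass_const_mul]
  refine mass_congr fun w hw => ?_
  rw [mul_one]
  unfold ex
  rw [hw.2]
  congr 2
  ring

lemma LN_ne_top (Q : Set Word) (N : ℕ) : mass (fun _ => 1) (LN Q N) ≠ ∞ :=
  mass_lt_top_of_finite (LN_finite Q N) fun _ _ => ENNReal.one_ne_top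

variable {Q : Set Word}

lemma mass_ne_top_of (hQ : ∀ w ∈ Q, ∀ t, t <:+: w → t ∈ Q) {u : ℝ} {N : ℕ} (hN : 0 < N)
    (h : mass (ex u 0 0) (LN Q N) < 1) : mass (ex u 0 0) Q ≠ ∞ := by
  set M : ℝ≥0∞ := mass (ex u 0 0) {w | w ∈ Q ∧ w.length < N} with hM
  have hMtop : M ≠ ∞ :=
    mass_lt_top_of_finite ((List.finite_length_lt Dir N).subset fun _ hw => hw.2)
      fun w _ => ex_ne_top u 0 0 w
  have step : ∀ k : ℕ, mass (ex u 0 0) {w | w ∈ Q ∧ w.length / N = k} ≤
      (mass (ex u 0 0) (LN Q N)) ^ k * M := by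
    intro k
    induction k with
    | zero =>
      rw [pow_zero, one_mul, hM]
      refine mass_mono ?_
      rintro w ⟨h1, h2⟩
      exact ⟨h1, by
        rcases Nat.div_eq_zero_iff.1 h2 with h3 | h3
        · omega
        · exact h3⟩
    | succ k ih =>
      have h1 : mass (ex u 0 0) {w | w ∈ Q ∧ w.length / N = k + 1} ≤
          mass (ex u 0 0) (LN Q N) * mass (ex u 0 0) {w | w ∈ Q ∧ w.length / N = k} := by
        refine mass_le_mul (fun a _ b _ => (ex_append u 0 0 a b).le) ?_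
        rintro w ⟨h1, h2⟩
        have hle : N ≤ w.length := by
          by_contra hlt
          rw [Nat.div_eq_of_lt (by omega)] at h2
          omega
        have hw : w = w.take N ++ w.drop N := (List.take_append_drop N w).symm
        refine ⟨w.take N, ⟨hQ w h1 _ (List.take_prefix N w).isInfix, by simp [hle]⟩, w.drop N,
          ⟨hQ w h1 _ (List.drop_suffix N w).isInfix, ?_⟩, hw⟩
        rw [List.length_drop]
        have := Nat.div_eq_sub_div hN hle
        omega
      calc _ ≤ _ := h1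
        _ ≤ mass (ex u 0 0) (LN Q N) * ((mass (ex u 0 0) (LN Q N)) ^ k * M) := by gcongr
        _ = _ := by rw [pow_succ]; ring
  have hsub : Q ⊆ ⋃ k : ℕ, {w | w ∈ Q ∧ w.length / N = k} := by
    intro w hw
    exact Set.mem_iUnion.2 ⟨w.length / N, hw, rfl⟩
  have hle : mass (ex u 0 0) Q ≤ ∑' k : ℕ, (mass (ex u 0 0) (LN Q N)) ^ k * M :=
    (mass_mono hsub).trans ((mass_iUnion_le _ _).trans (ENNReal.tsum_le_tsum step))
  rw [ENNReal.tsum_mul_right, ENNReal.tsum_geometric] at hle
  refine ne_top_of_le_ne_top ?_ hle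
  refine ENNReal.mul_ne_top ?_ hMtop
  rw [Ne, ENNReal.inv_eq_top, tsub_eq_zero_iff_le, not_le]
  exact h

lemma exists_LN_lt {u : ℝ} (h : mass (ex u 0 0) Q ≠ ∞) :
    ∃ N : ℕ, 0 < N ∧ mass (ex u 0 0) (LN Q N) < 1 := by
  by_contra hcon
  push Not at hcon
  apply h
  have h1 : ∑' N : ℕ, mass (ex u 0 0) (LN Q N) ≤ mass (ex u 0 0) Q := by
    simp only [mass_eq_indicator]
    rw [ENNReal.tsum_comm]
    refine ENNReal.tsum_le_tsum fun w => ?_
    rw [tsum_eq_single w.length]
    · refine Set.indicator_le_indicator_of_subset ?_ (fun _ => zero_le) w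
      intro v hv
      exact hv.1
    · intro N hN
      refine Set.indicator_of_notMem ?_ _
      intro hw
      exact hN hw.2.symm
  have h2 : ∑' N : ℕ, (1 : ℝ≥0∞) ≤ ∑' N : ℕ, mass (ex u 0 0) (LN Q (N + 1)) :=
    ENNReal.tsum_le_tsum fun N => hcon (N + 1) (Nat.succ_pos N)
  have h3 : ∑' N : ℕ, mass (ex u 0 0) (LN Q (N + 1)) ≤ ∑' N : ℕ, mass (ex u 0 0) (LN Q N) :=
    ENNReal.tsum_comp_le_tsum_of_injective (f := fun N : ℕ => N + 1)
      (fun a b hab => Nat.succ_injective hab) fun N => mass (ex u 0 0) (LN Q N)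
  have h4 : ∑' N : ℕ, (1 : ℝ≥0∞) = ∞ := ENNReal.tsum_const_eq_top_of_ne_zero one_ne_zero
  rw [h4] at h2
  exact top_le_iff.1 (h2.trans (h3.trans h1))

/-- openness -/
lemma exists_lt_mass (hQ : ∀ w ∈ Q, ∀ t, t <:+: w → t ∈ Q) {u : ℝ}
    (h : mass (ex u 0 0) Q ≠ ∞) : ∃ u' < u, mass (ex u' 0 0) Q ≠ ∞ := by
  obtain ⟨N, hN, hlt⟩ := exists_LN_lt h
  set C : ℝ := (mass (fun _ => 1) (LN Q N)).toReal with hC
  have hCeq : mass (fun _ => 1) (LN Q N) = ENNReal.ofReal C :=
    (ENNReal.ofReal_toReal (LN_ne_top Q N)).symm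
  have key : ∀ v : ℝ, mass (ex v 0 0) (LN Q N) < 1 ↔ Real.exp (-v * N) * C < 1 := by
    intro v
    rw [mass_LN, hCeq, ← ENNReal.ofReal_mul (Real.exp_pos _).le, ENNReal.ofReal_lt_one]
  have hc : Continuous fun v : ℝ => Real.exp (-v * N) * C := by fun_prop
  have hev : ∀ᶠ v in 𝓝 u, Real.exp (-v * N) * C < 1 :=
    (hc.tendsto u).eventually (gt_mem_nhds ((key u).1 hlt))
  have hev' : ∀ᶠ v in 𝓝[<] u, Real.exp (-v * N) * C < 1 := hev.filter_mono nhdsWithin_le_nhds
  obtain ⟨v, hv1, hv2⟩ := (hev'.and self_mem_nhdsWithin).exists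
  exact ⟨v, hv2, mass_ne_top_of hQ hN ((key v).2 hv1)⟩

/-! ### words of `Ak k` up to a level are products of words in strips -/

lemma Strip_factor {k : ℕ} : ∀ w ∈ Strip k, ∀ t, t <:+: w → t ∈ Strip k :=
  fun _ hw _ ht => ⟨hw.1.factor ht, fun s hs => hw.2 s (hs.trans ht)⟩

/-- self-avoiding words of `Ak k` with all beginnings at level at most `s` -/
def Wk (k s : ℕ) : Set Word := {w | SAW w ∧ w ∈ Ak k ∧ ∀ t, t <+: w → X t ≤ s}

lemma mem_strip_of {k : ℕ} {w : Word} (h1 : SAW w) (h2 : w ∈ Ak k)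
    (h3 : ∀ t, t <+: w → X t ≤ 0) : w ∈ Strip k := by
  refine ⟨h1, fun t ht => ?_⟩
  have h4 := h2 t ht
  obtain ⟨p, q, hpq⟩ := ht
  have h5 := h3 (p ++ t) (by rw [← hpq]; exact List.prefix_append _ q)
  have h6 := h2 p (by rw [← hpq, List.append_assoc]; exact (List.prefix_append p _).isInfix)
  rw [X_append] at h5
  rw [abs_le]
  constructor <;> omega

lemma mass_Wk_succ {u : ℝ} (hu : 0 ≤ u) (k s : ℕ) : mass (ex u 0 0) (Wk k (s + 1)) ≤
    mass (ex u 0 0) (Strip k) + mass (ex u 0 0) (Strip k) * mass (ex u 0 0) (Wk k s) := by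
  have h1 : Wk k (s + 1) ⊆ Strip k ∪ {w | w ∈ Wk k (s + 1) ∧ ∃ t, t <+: w ∧ (1 : ℤ) ≤ X t} := by
    intro w hw
    by_cases h : ∃ t, t <+: w ∧ (1 : ℤ) ≤ X t
    · exact Or.inr ⟨hw, h⟩
    · left
      refine mem_strip_of hw.1 hw.2.1 fun t ht => ?_
      push Not at h
      have := h t ht
      omega
  refine (mass_mono h1).trans ((mass_union_le _ _ _).trans ?_)
  gcongr
  rw [← mass_prod]
  refine mass_le_of_section (fun p : Word × Word => p.1 ++ (Dir.E :: p.2)) ?_
  rintro w ⟨⟨hsaw, hA, hle⟩, h⟩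
  obtain ⟨a, v, rfl, ha, hv⟩ := exists_first_ge w 1 one_pos h
  rcases List.eq_nil_or_concat a with h0 | ⟨a', d, had⟩
  · rw [h0] at ha; simp at ha
  · have had' : a = a' ++ [d] := by simpa using had
    subst had'
    have h2 := hv a' (List.prefix_append a' [d]) (by simp)
    have h3 : X a' + d.dx = 1 := by simpa using ha
    have hd : d = Dir.E := by
      cases d
      · rfl
      all_goals (exfalso; simp [Dir.dx] at h3; omega)
    subst hd
    refine ⟨(a', v), ⟨?_, ⟨?_, ?_, ?_⟩⟩, by simp, ?_⟩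
    · refine mem_strip_of (hsaw.left.left) ?_ ?_
      · intro t ht
        refine hA t (ht.trans ?_)
        rw [List.append_assoc]
        exact (List.prefix_append a' _).isInfix
      · intro t ht
        have h4 := hv t (ht.trans (List.prefix_append a' _)) (by
          rintro rfl
          have := ht.length_le
          simp at this)
        omega
    · exact hsaw.right
    · intro t ht
      exact hA t (ht.trans (List.suffix_append _ v).isInfix)
    · intro t ht
      have h4 := hle _ ((List.prefix_append_right_inj (a' ++ [Dir.E])).2 ht)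
      rw [X_append, ha] at h4
      push_cast at h4
      omega
    · show ex u 0 0 (a' ++ [Dir.E] ++ v) ≤ ex u 0 0 a' * ex u 0 0 v
      rw [ex_append, ex_append]
      have h4 : ex u 0 0 [Dir.E] ≤ 1 := by
        unfold ex
        rw [← ENNReal.ofReal_one, ← Real.exp_zero]
        apply ENNReal.ofReal_le_ofReal
        apply Real.exp_le_exp.2
        simp
        exact hu
      calc ex u 0 0 a' * ex u 0 0 [Dir.E] * ex u 0 0 v ≤ ex u 0 0 a' * 1 * ex u 0 0 v := by
            gcongr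
        _ = _ := by rw [mul_one]

lemma mass_Wk_le {u : ℝ} (hu : 0 ≤ u) (k s : ℕ) : mass (ex u 0 0) (Wk k s) ≤
    mass (ex u 0 0) (Strip k) * (1 + mass (ex u 0 0) (Strip k)) ^ s := by
  induction s with
  | zero =>
    rw [pow_zero, mul_one]
    refine mass_mono ?_
    rintro w ⟨h1, h2, h3⟩
    exact mem_strip_of h1 h2 fun t ht => by simpa using h3 t ht
  | succ s ih =>
    set R := mass (ex u 0 0) (Strip k) with hR
    have h1 : (1 : ℝ≥0∞) ≤ (1 + R) ^ s := one_le_pow₀ (by simp)
    calc mass (ex u 0 0) (Wk k (s + 1)) ≤ R + R * mass (ex u 0 0) (Wk k s) := mass_Wk_succ hu k s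
      _ ≤ R * (1 + R) ^ s + R * (R * (1 + R) ^ s) := by
        gcongr
        calc R = R * 1 := (mul_one R).symm
          _ ≤ R * (1 + R) ^ s := by gcongr
      _ = R * (1 + R) ^ (s + 1) := by rw [pow_succ]; ring

lemma BrS_inter_subset (k s : ℕ) : BrS (s : ℤ) ∩ Ak k ⊆ Wk k s := by
  rintro w ⟨⟨h1, h2⟩, h3⟩
  exact ⟨h1.saw, h3, fun t ht => h2 ▸ h1.le ht⟩

/-- bridges of `Ak k` are summable when the span is penalised enough -/
lemma exists_pen {k : ℕ} {u : ℝ} (hu : 0 ≤ u) (hR : mass (ex u 0 0) (Strip k) ≠ ∞) :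
    ∃ c : ℝ, 0 < c ∧ mass (exA (Ak k) u (-c) 0) Br ≠ ∞ := by
  set R := mass (ex u 0 0) (Strip k) with hRdef
  obtain ⟨n, hn⟩ := ENNReal.exists_nat_gt (ENNReal.add_ne_top.2 ⟨ENNReal.one_ne_top, hR⟩ :
    1 + R ≠ ∞)
  have hn0 : (0 : ℝ) < n := by
    have h1 : (0 : ℝ≥0∞) < n := lt_of_le_of_lt zero_le hn
    exact_mod_cast h1
  set c : ℝ := Real.log (2 * n + 1) with hc
  have h2n : (0 : ℝ) < 2 * n + 1 := by positivity
  refine ⟨c, Real.log_pos (by linarith), ?_⟩
  rw [mass_exA]
  have hsub : Br ∩ Ak k ⊆ ⋃ s : ℕ, (BrS (s : ℤ) ∩ Ak k) := by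
    rintro w ⟨h1, h2⟩
    have h1' : IsBr w := h1
    refine Set.mem_iUnion.2 ⟨(X w).toNat, ⟨⟨h1', ?_⟩, h2⟩⟩
    have := h1'.X_nonneg
    omega
  have hterm : ∀ s : ℕ, mass (ex u (-c) 0) (BrS (s : ℤ) ∩ Ak k) ≤ R * (2⁻¹ : ℝ≥0∞) ^ s := by
    intro s
    have h1 : mass (ex u (-c) 0) (BrS (s : ℤ) ∩ Ak k) =
        ENNReal.ofReal (Real.exp (-c * s)) * mass (ex u 0 0) (BrS (s : ℤ) ∩ Ak k) := by
      rw [← mass_const_mul]
      refine mass_congr fun w hw => ?_
      unfold ex
      rw [← ENNReal.ofReal_mul (Real.exp_pos _).le, ← Real.exp_add, hw.1.2]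
      congr 2
      push_cast
      ring
    have h2 : ENNReal.ofReal (Real.exp (-c * s)) = (ENNReal.ofReal ((2 * n + 1 : ℝ)⁻¹)) ^ s := by
      rw [← ENNReal.ofReal_pow (by positivity)]
      congr 1
      rw [show -c * (s : ℝ) = (s : ℝ) * (-c) by ring, Real.exp_nat_mul, Real.exp_neg, hc,
        Real.exp_log h2n]
    rw [h1, h2]
    calc (ENNReal.ofReal ((2 * n + 1 : ℝ)⁻¹)) ^ s * mass (ex u 0 0) (BrS (s : ℤ) ∩ Ak k)
        ≤ (ENNReal.ofReal ((2 * n + 1 : ℝ)⁻¹)) ^ s * (R * (n : ℝ≥0∞) ^ s) := by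
          gcongr
          refine (mass_mono (BrS_inter_subset k s)).trans ((mass_Wk_le hu k s).trans ?_)
          gcongr
      _ = R * (ENNReal.ofReal ((2 * n + 1 : ℝ)⁻¹) * n) ^ s := by rw [mul_pow]; ring
      _ ≤ R * (2⁻¹ : ℝ≥0∞) ^ s := by
          gcongr
          rw [← ENNReal.ofReal_natCast n, ← ENNReal.ofReal_mul (by positivity)]
          rw [show (2⁻¹ : ℝ≥0∞) = ENNReal.ofReal (2⁻¹ : ℝ) by
            rw [ENNReal.ofReal_inv_of_pos (by norm_num)]; simp]
          apply ENNReal.ofReal_le_ofReal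
          rw [inv_mul_le_iff₀ h2n]
          linarith
  refine ne_top_of_le_ne_top ?_ ((mass_mono hsub).trans ((mass_iUnion_le _ _).trans
    (ENNReal.tsum_le_tsum hterm)))
  rw [ENNReal.tsum_mul_left, ENNReal.tsum_geometric]
  refine ENNReal.mul_ne_top hR ?_
  rw [Ne, ENNReal.inv_eq_top, tsub_eq_zero_iff_le, not_le]
  exact ENNReal.inv_lt_one.2 (by norm_num)

/-! ### Hammersley-Welsh in a strip -/

/-- bridges of small span backtrack little -/
lemma BrS_subset_Ak {k : ℕ} {j : ℤ} (hj : j ≤ k + 1) : BrS j ⊆ Ak k := by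
  rintro w ⟨h1, h2⟩ t ⟨p, q, hpq⟩
  have hp : p <+: w := by rw [← hpq, List.append_assoc]; exact List.prefix_append p _
  have hpt : p ++ t <+: w := by rw [← hpq]; exact List.prefix_append _ q
  rcases eq_or_ne p [] with h0 | h0
  · have h3 := h1.nonneg hpt
    rw [h0] at h3
    simp at h3
    omega
  · have h3 := h1.pos hpt (by simp [h0])
    have h4 := h1.le hp
    rw [X_append] at h3
    omega

lemma mass_BrS_small {k : ℕ} {u : ℝ} (h : ∀ s : ℕ, mass (exA (Ak k) u 0 0) (BrS s) ≤ 1) {j : ℕ}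
    (hj : j ≤ k + 1) : mass (ex u 0 0) (BrS (j : ℤ)) ≤ 1 := by
  have h1 := h j
  rwa [mass_exA, Set.inter_eq_left.2 (BrS_subset_Ak (by exact_mod_cast hj))] at h1

lemma mass_Hs_small {k : ℕ} {u : ℝ} (h : ∀ s : ℕ, mass (exA (Ak k) u 0 0) (BrS s) ≤ 1) :
    ∀ j : ℕ, j ≤ k + 1 → mass (ex u 0 0) (Hs j) ≤ 2 ^ j := by
  intro j
  induction j with
  | zero => intro _; simpa using mass_Hs_zero u
  | succ j ih =>
    intro hj
    refine (mass_Hs_succ u j).trans ?_
    rw [pow_succ, mul_comm]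
    gcongr
    · exact ih (by omega)
    · calc 1 + mass (ex u 0 0) (BrS ((j + 1 : ℕ) : ℤ)) ≤ 1 + 1 := by
            gcongr
            exact mass_BrS_small h hj
        _ = 2 := by norm_num

lemma mass_Strip_le {k : ℕ} {u : ℝ} (h : ∀ s : ℕ, mass (exA (Ak k) u 0 0) (BrS s) ≤ 1) :
    mass (ex u 0 0) (Strip k) ≤
      ENNReal.ofReal (Real.exp u) * (2 ^ (k + 1) * 2 ^ (k + 1)) := by
  have h1 : mass (ex u 0 0) (Strip k) ≤ mass (fun p : Word × Word =>
      (ENNReal.ofReal (Real.exp u) * ex u 0 0 p.1) * ex u 0 0 p.2)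
        (Hs (k + 1) ×ˢ Hs (k + 1)) := by
    refine mass_le_of_section (fun p : Word × Word => rv p.1.tail ++ p.2) ?_
    intro w hw
    obtain ⟨a, b, rfl, ha, hb⟩ := exists_split w
    have hsaw : SAW (a ++ b) := hw.1
    have hstr := hw.2
    have hnn : ∀ t, t <+: rv a → 0 ≤ X t := by
      intro t ht
      have := ha _ (prefix_rv.1 ht)
      rw [X_rv] at this
      omega
    have hle : ∀ t, t <+: rv a → X t ≤ k := by
      intro t ht
      have h3 : rv t <:+ a := prefix_rv.1 ht
      have h4 := hstr (rv t) (h3.isInfix.trans (List.prefix_append a b).isInfix)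
      rw [X_rv, abs_neg] at h4
      exact (abs_le.1 h4).2
    refine ⟨(Dir.E :: rv a, b), ⟨⟨?_, ?_, ?_⟩, ⟨hsaw.right, hb, ?_⟩⟩, by simp, ?_⟩
    · intro t ht hx hy
      rcases infix_append_cases (u := [Dir.E]) (v := rv a) (by simpa using ht) with h2 | h2 | h2
      · exact isBr_singleton_E.saw t h2 hx hy
      · exact hsaw.left.rv t h2 hx hy
      · obtain ⟨p, q, hp, hq, hp0, -, rfl⟩ := h2
        exfalso
        have h3 : p = [Dir.E] := by
          obtain ⟨r, hr⟩ := hp
          have h4 := congrArg List.length hr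
          have h5 := List.length_pos_iff.2 hp0
          simp at h4
          have h6 : r = [] := List.length_eq_zero_iff.1 (by omega)
          rw [h6] at hr
          simpa using hr
        have h4 := hnn q hq
        rw [h3] at hx
        simp [Dir.dx] at hx
        omega
    · intro t ht h0
      rcases prefix_append_cases (u := [Dir.E]) (v := rv a) (by simpa using ht) with h2 | h2
      · exact isBr_singleton_E.pos h2 h0
      · obtain ⟨q, hq, -, rfl⟩ := h2
        have h4 := hnn q hq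
        simp [Dir.dx]
        omega
    · intro t ht
      rcases prefix_append_cases (u := [Dir.E]) (v := rv a) (by simpa using ht) with h2 | h2
      · rcases eq_nil_or_singleton_of_prefix h2 with h3 | h3
        · rw [h3]; simp; omega
        · rw [h3]; simp [Dir.dx]
      · obtain ⟨q, hq, -, rfl⟩ := h2
        have h4 := hle q hq
        simp [Dir.dx]
        omega
    · intro t ht
      have h4 := hstr t (ht.isInfix.trans (List.suffix_append a b).isInfix)
      have h5 := (abs_le.1 h4).2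
      push_cast
      omega
    · show ex u 0 0 (a ++ b) ≤
        (ENNReal.ofReal (Real.exp u) * ex u 0 0 (Dir.E :: rv a)) * ex u 0 0 b
      rw [ex_append]
      gcongr
      have h2 : Dir.E :: rv a = [Dir.E] ++ rv a := rfl
      rw [h2, ex_append, ex_rv, ← mul_assoc]
      have h3 : ENNReal.ofReal (Real.exp u) * ex u 0 0 [Dir.E] = 1 := by
        unfold ex
        rw [← ENNReal.ofReal_mul (Real.exp_pos _).le, ← Real.exp_add]
        simp
      rw [h3, one_mul, neg_zero]
  refine h1.trans ?_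
  rw [mass_prod (fun a => ENNReal.ofReal (Real.exp u) * ex u 0 0 a) (ex u 0 0), mass_const_mul,
    mul_assoc]
  gcongr
  · exact mass_Hs_small h _ le_rfl
  · exact mass_Hs_small h _ le_rfl

/-! ### bridges in a class -/

lemma massA_mul_le {A : Set Word} (hA : IsClass A) (u c : ℝ) (s t : ℤ) :
    mass (exA A u c 0) (BrS s) * mass (exA A u c 0) (BrS t) ≤ mass (exA A u c 0) (BrS (s + t)) := by
  rw [← mass_prod]
  refine mass_le_of_injOn (fun p : Word × Word => p.1 ++ p.2) ?_ ?_ ?_
  · rintro ⟨a, b⟩ ⟨⟨ha, hXa⟩, ⟨hb, hXb⟩⟩ ⟨a', b'⟩ ⟨⟨ha', hXa'⟩, ⟨hb', hXb'⟩⟩ hab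
    have hab' : a ++ b = a' ++ b' := hab
    have hXa2 : X a = s := hXa
    have hXa2' : X a' = s := hXa'
    rcases List.append_eq_append_iff.1 hab' with ⟨r, h1, h2⟩ | ⟨r, h1, h2⟩
    · rcases eq_or_ne r [] with h0 | h0
      · subst h0; simp at h1 h2; rw [h1, h2]
      · exfalso
        have hb2 : IsBr b := hb
        have h3 := hb2.pos (u := r) (by rw [h2]; exact List.prefix_append r b') h0
        rw [h1, X_append] at hXa2'
        omega
    · rcases eq_or_ne r [] with h0 | h0
      · subst h0; simp at h1 h2; rw [h1, h2]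
      · exfalso
        have hb2 : IsBr b' := hb'
        have h3 := hb2.pos (u := r) (by rw [h2]; exact List.prefix_append r b) h0
        rw [h1, X_append] at hXa2
        omega
  · rintro ⟨a, b⟩ ⟨⟨ha, hXa⟩, ⟨hb, hXb⟩⟩
    have hXa2 : X a = s := hXa
    have hXb2 : X b = t := hXb
    exact ⟨IsBr.append ha hb, by rw [X_append, hXa2, hXb2]⟩
  · rintro ⟨a, b⟩ ⟨⟨ha, hXa⟩, ⟨hb, hXb⟩⟩
    exact (exA_append hA ha hb).ge

lemma massA_pow_le {A : Set Word} (hA : IsClass A) (u c : ℝ) (s k : ℕ) :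
    (mass (exA A u c 0) (BrS s)) ^ k ≤ mass (exA A u c 0) (BrS ((k * s : ℕ) : ℤ)) := by
  induction k with
  | zero =>
    have h : ([] : Word) ∈ BrS ((0 * s : ℕ) : ℤ) := ⟨isBr_nil, by simp⟩
    simpa [exA_nil hA] using le_mass (φ := exA A u c 0) h
  | succ k ih =>
    rw [pow_succ]
    refine (mul_le_mul_left ih _).trans ((massA_mul_le hA u c _ _).trans ?_)
    refine le_of_eq ?_
    congr 2
    push_cast
    ring

lemma leA_one_of_bounded {A : Set Word} (hA : IsClass A) {u c : ℝ} {M : ℝ≥0∞} (hM : M ≠ ∞)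
    (h : ∀ s : ℕ, mass (exA A u c 0) (BrS s) ≤ M) (s : ℕ) : mass (exA A u c 0) (BrS s) ≤ 1 := by
  by_contra hcon
  push Not at hcon
  have h1 : Tendsto (fun k : ℕ => (mass (exA A u c 0) (BrS s)) ^ k) atTop (𝓝 ∞) :=
    ENNReal.tendsto_pow_atTop_nhds_top_iff.2 hcon
  have h2 : ∞ ≤ M := le_of_tendsto' h1 fun k => (massA_pow_le hA u c s k).trans (h _)
  exact hM (top_le_iff.1 h2)

lemma exA_anti (A : Set Word) {u v : ℝ} (h : u ≤ v) (c θ : ℝ) (w : Word) :
    exA A v c θ w ≤ exA A u c θ w :=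
  Set.indicator_le_indicator (ex_anti h c θ w)

/-- interpolation of weights -/
lemma exA_interp (A : Set Word) {u v c c' t : ℝ} (ht0 : 0 ≤ t) (ht1 : t ≤ 1)
    (hcc : (1 - t) * c' - t * c = 0) (w : Word) :
    exA A ((1 - t) * u + t * v) 0 0 w ≤ exA A u c' 0 w + exA A v (-c) 0 w := by
  by_cases hw : w ∈ A
  · rw [exA_of_mem hw, exA_of_mem hw, exA_of_mem hw]
    have h1 : -((1 - t) * u + t * v) * w.length + 0 * X w + 0 * Y w =
        (1 - t) * (-u * w.length + c' * X w + 0 * Y w) +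
          t * (-v * w.length + -c * X w + 0 * Y w) := by
      linear_combination (-(X w : ℝ)) * hcc
    rcases le_total (-u * w.length + c' * X w + 0 * Y w) (-v * w.length + -c * X w + 0 * Y w)
      with h | h
    · refine le_trans ?_ le_add_self
      unfold ex
      apply ENNReal.ofReal_le_ofReal
      apply Real.exp_le_exp.2
      rw [h1]
      nlinarith
    · refine le_trans ?_ le_self_add
      unfold ex
      apply ENNReal.ofReal_le_ofReal
      apply Real.exp_le_exp.2
      rw [h1]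
      nlinarith
  · rw [exA_of_notMem hw]
    exact zero_le

/-! ### the words `E N ^ j` -/

lemma isBr_EN (j : ℕ) : IsBr (Dir.E :: List.replicate j Dir.N) := by
  have hX : ∀ i : ℕ, X (List.replicate i Dir.N) = 0 := fun i => by simp [X, Dir.dx]
  have hY : ∀ i : ℕ, Y (List.replicate i Dir.N) = i := fun i => by simp [Y, Dir.dy]
  have hpre : ∀ t, t <+: Dir.E :: List.replicate j Dir.N → t ≠ [] → X t = 1 := by
    intro t ht h0
    rcases prefix_append_cases (u := [Dir.E]) (v := List.replicate j Dir.N) (by simpa using ht)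
      with h2 | ⟨q, hq, -, rfl⟩
    · rcases eq_nil_or_singleton_of_prefix h2 with h3 | h3
      · exact absurd h3 h0
      · rw [h3]; simp [Dir.dx]
    · have h3 : q = List.replicate q.length Dir.N := by
        rw [List.eq_replicate_iff]
        refine ⟨rfl, fun b hb => ?_⟩
        exact List.eq_of_mem_replicate (hq.subset hb)
      rw [h3]
      simp [hX, Dir.dx]
  refine ⟨?_, ?_, ?_⟩
  · intro t ht hx hy
    rcases infix_append_cases (u := [Dir.E]) (v := List.replicate j Dir.N) (by simpa using ht)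
      with h2 | h2 | ⟨a, b, ha, hb, ha0, hb0, rfl⟩
    · exact isBr_singleton_E.saw t h2 hx hy
    · have h3 : t = List.replicate t.length Dir.N := by
        rw [List.eq_replicate_iff]
        exact ⟨rfl, fun b hb => List.eq_of_mem_replicate (h2.subset hb)⟩
      rw [h3, hY] at hy
      exact List.length_eq_zero_iff.1 (by exact_mod_cast hy)
    · exfalso
      have h3 : b = List.replicate b.length Dir.N := by
        rw [List.eq_replicate_iff]
        exact ⟨rfl, fun c hc => List.eq_of_mem_replicate (hb.subset hc)⟩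
      have h4 : a = [Dir.E] := by
        obtain ⟨r, hr⟩ := ha
        have h4 := congrArg List.length hr
        have h5 := List.length_pos_iff.2 ha0
        simp at h4
        have h6 : r = [] := List.length_eq_zero_iff.1 (by omega)
        rw [h6] at hr
        simpa using hr
      rw [h3, h4] at hx
      simp [hX, Dir.dx] at hx
  · intro t ht h0
    rw [hpre t ht h0]
    exact one_pos
  · intro t ht
    obtain ⟨p, hp⟩ := ht
    have h1 := congrArg X hp
    have h2 : X (Dir.E :: List.replicate j Dir.N) = 1 := hpre _ (List.prefix_refl _) (by simp)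
    rw [h2, X_append] at h1
    rcases eq_or_ne p [] with h0 | h0
    · rw [h0] at h1; simp at h1; omega
    · have h3 := hpre p ⟨t, hp⟩ h0
      omega

lemma X_EN (j : ℕ) : X (Dir.E :: List.replicate j Dir.N) = 1 := by
  simp [X, Dir.dx]

/-- the step weight of a summable class is positive -/
lemma pos_of_le {A : Set Word} (hA : IsClass A) {u : ℝ}
    (h : mass (exA A u 0 0) (BrS ((1 : ℕ) : ℤ)) ≤ 1) : 0 < u := by
  by_contra hu
  push Not at hu
  have key : (2 : ℝ≥0∞) ≤ mass (exA A u 0 0) (BrS ((1 : ℕ) : ℤ)) := by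
    let s : Finset Word := (Finset.range 2).image (fun j => Dir.E :: List.replicate j Dir.N)
    have hs : (↑s : Set Word) ⊆ BrS ((1 : ℕ) : ℤ) := by
      intro w hw
      simp only [s, Finset.coe_image, Set.mem_image, Finset.mem_coe, Finset.mem_range] at hw
      obtain ⟨j, -, rfl⟩ := hw
      exact ⟨isBr_EN j, by rw [X_EN]; rfl⟩
    have hcard : s.card = 2 := by
      rw [Finset.card_image_of_injective, Finset.card_range]
      intro a b hab
      have := congrArg List.length hab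
      simpa using this
    calc (2 : ℝ≥0∞) = ∑ a ∈ s, 1 := by rw [Finset.sum_const, hcard]; simp
      _ ≤ ∑ a ∈ s, exA A u 0 0 a := by
        refine Finset.sum_le_sum fun a ha => ?_
        have haA : a ∈ A := by
          simp only [s, Finset.mem_image, Finset.mem_range] at ha
          obtain ⟨j, -, rfl⟩ := ha
          exact hA.EN j
        rw [exA_of_mem haA]
        unfold ex
        rw [← ENNReal.ofReal_one]
        apply ENNReal.ofReal_le_ofReal
        rw [← Real.exp_zero]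
        apply Real.exp_le_exp.2
        have h1 : (0 : ℝ) ≤ a.length := Nat.cast_nonneg _
        have h2 : 0 ≤ (-u) * a.length := mul_nonneg (by linarith) h1
        linarith
      _ ≤ _ := sum_le_mass hs
  have h3 := key.trans h
  norm_num at h3

end PrmK

open scoped ENNReal Topology
open Filter Pool.Agent.SAPF Pool.Agent.SAPF.Prm PrmK

theorem exists_uk (k : ℕ) : ∃ u u' : ℝ, 0 < u' ∧ u' < u ∧ mass (ex u 0 0) (Strip k) ≠ ∞ ∧
    (∃ c'' : ℝ, mass (exA (Ak k) u' (-c'') 0) Br ≠ ∞) ∧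
    (∀ s : ℕ, mass (exA (Ak k) u 0 0) (BrS s) ≤ 1) ∧
    (∀ c' > 0, ∃ s : ℕ, 1 < mass (exA (Ak k) u c' 0) (BrS s)) := by
  have hA := isClass_Ak k
  set S : Set ℝ := {u | ∀ s : ℕ, mass (exA (Ak k) u 0 0) (BrS s) ≤ 1} with hS
  have hne : S.Nonempty := by
    obtain ⟨u₂, -, hs₂⟩ := exists_small 1 one_pos
    refine ⟨u₂, fun s => ?_⟩
    rw [mass_exA]
    refine (mass_mono Set.inter_subset_left).trans ((mass_mono_fun fun w hw => ?_).trans (hs₂ s))
    unfold ex
    apply ENNReal.ofReal_le_ofReal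
    apply Real.exp_le_exp.2
    rw [hw.2]
    push_cast
    have : (0 : ℝ) ≤ s := Nat.cast_nonneg s
    linarith
  have hlb : ∀ u ∈ S, 0 < u := fun u hu => pos_of_le hA (hu 1)
  have hbd : BddBelow S := ⟨0, fun u hu => (hlb u hu).le⟩
  set u := sInf S with hu
  have hmem : ∀ v, u < v → v ∈ S := by
    intro v hv s
    obtain ⟨a, ha, hav⟩ := exists_lt_of_csInf_lt hne hv
    exact (mass_mono_fun fun w _ => exA_anti (Ak k) hav.le 0 0 w).trans (ha s)
  have hle : ∀ s : ℕ, mass (exA (Ak k) u 0 0) (BrS s) ≤ 1 := by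
    intro s
    rw [mass_exA]
    refine mass_le_of_nhdsGT ?_
    filter_upwards [self_mem_nhdsWithin] with v hv
    have := hmem v hv s
    rwa [mass_exA] at this
  have hu0 : 0 < u := hlb u hle
  have hR : mass (ex u 0 0) (Strip k) ≠ ∞ := by
    refine ne_top_of_le_ne_top ?_ (mass_Strip_le hle)
    refine ENNReal.mul_ne_top ENNReal.ofReal_ne_top (ENNReal.mul_ne_top ?_ ?_) <;>
      exact ENNReal.pow_ne_top (by norm_num)
  obtain ⟨u₁, hu₁, hR₁⟩ := exists_lt_mass Strip_factor hR
  set u' : ℝ := max u₁ (u / 2) with hu'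
  have hu'0 : 0 < u' := lt_of_lt_of_le (by positivity) (le_max_right _ _)
  have hu'u : u' < u := max_lt hu₁ (by linarith)
  have hR' : mass (ex u' 0 0) (Strip k) ≠ ∞ :=
    ne_top_of_le_ne_top hR₁ (mass_mono_fun fun w _ => ex_anti (le_max_left _ _) 0 0 w)
  obtain ⟨c'', hc''0, hc''⟩ := exists_pen hu'0.le hR'
  refine ⟨u, u', hu'0, hu'u, hR, ⟨c'', hc''⟩, hle, fun c' hc' => ?_⟩
  by_contra hcon
  push Not at hcon
  set t : ℝ := c' / (c' + c'') with ht
  have hcc0 : 0 < c' + c'' := by linarith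
  have ht0 : 0 < t := by rw [ht]; positivity
  have ht1 : t < 1 := by rw [ht, div_lt_one hcc0]; linarith
  have hcc : (1 - t) * c' - t * c'' = 0 := by rw [ht]; field_simp; ring
  set v : ℝ := (1 - t) * u + t * u' with hv
  have hvlt : v < u := by rw [hv]; nlinarith
  have hvS : v ∈ S := by
    refine leA_one_of_bounded hA (M := 1 + mass (exA (Ak k) u' (-c'') 0) Br)
      (ENNReal.add_ne_top.2 ⟨ENNReal.one_ne_top, hc''⟩) ?_
    intro s
    calc mass (exA (Ak k) v 0 0) (BrS s)
        ≤ mass (fun w => exA (Ak k) u c' 0 w + exA (Ak k) u' (-c'') 0 w) (BrS s) :=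
          mass_mono_fun fun w _ => exA_interp (Ak k) ht0.le ht1.le hcc w
      _ = mass (exA (Ak k) u c' 0) (BrS s) + mass (exA (Ak k) u' (-c'') 0) (BrS s) :=
          mass_add _ _ _
      _ ≤ 1 + mass (exA (Ak k) u' (-c'') 0) Br :=
          add_le_add (hcon s) (mass_mono fun w hw => hw.1)
  exact absurd (csInf_le hbd hvS) (not_le.2 hvlt)

theorem growth_k (ε : ℝ) (hε : 0 < ε) : ∃ k₀ : ℕ, ∀ k ≥ k₀, ∀ u : ℝ,
    (∀ s : ℕ, mass (exA (Ak k) u 0 0) (BrS s) ≤ 1) → chi (u + ε) ≠ ∞ := by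
  classical
  obtain ⟨u₁, hu₁, s, hs⟩ := exists_big ε hε
  -- a finite set of bridges is enough
  obtain ⟨F, hF, hF1⟩ : ∃ F : Finset Word, (↑F : Set Word) ⊆ BrS (s : ℤ) ∧
      1 < ∑ w ∈ F, ex u₁ ε 0 w := by
    by_contra hcon
    push Not at hcon
    exact absurd (mass_le_of_finset fun F hF => hcon F hF) (not_le.2 hs)
  refine ⟨F.sup List.length, fun k hk u hu => ?_⟩
  have hFA : (↑F : Set Word) ⊆ BrS (s : ℤ) ∩ Ak k := by
    intro w hw
    refine ⟨hF hw, fun t ht => ?_⟩
    have h1 := (abs_le.1 (abs_X_le t)).1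
    have h2 := ht.length_le
    have h3 : w.length ≤ F.sup List.length :=
      Finset.le_sup (f := List.length) (by simpa using hw)
    have h4 : (t.length : ℤ) ≤ k := by exact_mod_cast (h2.trans h3).trans hk
    omega
  rcases le_total u₁ (u + ε) with h | h
  · exact ne_top_of_le_ne_top hu₁ (chi_anti h)
  · exfalso
    have h1 : (1 : ℝ≥0∞) < mass (exA (Ak k) u 0 0) (BrS s) := by
      rw [mass_exA]
      refine lt_of_lt_of_le hF1 (le_trans (Finset.sum_le_sum fun w hw => ?_)
        (sum_le_mass (φ := ex u 0 0) hFA))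
      unfold ex
      apply ENNReal.ofReal_le_ofReal
      apply Real.exp_le_exp.2
      have h2 : (X w : ℝ) ≤ w.length := by
        have := (abs_le.1 (abs_X_le w)).2
        exact_mod_cast this
      have h3 : (0 : ℝ) ≤ w.length := Nat.cast_nonneg _
      have h4 := mul_le_mul_of_nonneg_right h h3
      have h5 := mul_le_mul_of_nonneg_left h2 hε.le
      nlinarith
    exact absurd (hu s) (not_le.2 h1)

end Pool.Agent.SAPK
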