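import Pool.Agent.SAPK.DefsK

/-!
Lower bound for the partition function of the polygons with two arcs in a class.
-/

namespace Pool.Agent.SAPK

open scoped ENNReal
open Filter Pool.Agent.SAPF

namespace ZLowK

variable {A : Set Word}

lemma exA_flipY0 (hA : IsClass A) (u c : ℝ) (w : Word) :
    exA A u c 0 (flipY w) = exA A u c 0 w := by
  rw [exA_flipY hA, neg_zero]

lemma mass_mul_fiber {φ : Word → ℝ≥0∞} {A B : Set Word} {C : Word → Set Word}
    {M : ℝ≥0∞} (hφ : ∀ u ∈ B, ∀ v ∈ C u, φ (u ++ v) = φ u * φ v) (hC : ∀ u ∈ B, mass φ (C u) ≤ M)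
    (h : ∀ w ∈ A, ∃ u ∈ B, ∃ v ∈ C u, w = u ++ v) : mass φ A ≤ mass φ B * M := by
  have h1 : mass φ A ≤ mass (fun p : Word × Word => φ p.1 * φ p.2) {p | p.1 ∈ B ∧ p.2 ∈ C p.1} := by
    refine mass_le_of_section (fun p : Word × Word => p.1 ++ p.2) ?_
    intro w hw
    obtain ⟨u, hu, v, hv, rfl⟩ := h w hw
    exact ⟨(u, v), ⟨hu, hv⟩, rfl, (hφ u hu v hv).le⟩
  refine h1.trans ?_
  rw [mass_eq_indicator, mass_eq_indicator, ENNReal.tsum_prod', ← ENNReal.tsum_mul_right]
  refine ENNReal.tsum_le_tsum fun a => ?_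
  by_cases ha : a ∈ B
  · rw [Set.indicator_of_mem ha]
    have h2 : ∀ b, Set.indicator {p : Word × Word | p.1 ∈ B ∧ p.2 ∈ C p.1}
        (fun p : Word × Word => φ p.1 * φ p.2) (a, b) = φ a * (C a).indicator φ b := by
      intro b
      by_cases hb : b ∈ C a
      · rw [Set.indicator_of_mem (by exact ⟨ha, hb⟩), Set.indicator_of_mem hb]
      · rw [Set.indicator_of_notMem (by rintro ⟨_, h⟩; exact hb h), Set.indicator_of_notMem hb,
          mul_zero]
    rw [tsum_congr h2, ENNReal.tsum_mul_left, ← mass_eq_indicator]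
    gcongr
    exact hC a ha
  · have h2 : ∀ b, Set.indicator {p : Word × Word | p.1 ∈ B ∧ p.2 ∈ C p.1}
        (fun p : Word × Word => φ p.1 * φ p.2) (a, b) = 0 := by
      intro b
      rw [Set.indicator_of_notMem (by rintro ⟨h, _⟩; exact ha h)]
    rw [tsum_congr h2]; simp

/-! ### long pieces -/

lemma tail_bound {u c δ : ℝ} (hδ : 0 < δ) (l : ℕ) :
    mass (exA A u c 0) {p | IsIrr p ∧ l < p.length} ≤
      ENNReal.ofReal (Real.exp (-δ * l)) * mass (exA A (u - δ) c 0) Irr := by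
  rw [← mass_const_mul]
  refine le_trans ?_ (mass_mono (A := {p | IsIrr p ∧ l < p.length}) ?_)
  · refine mass_mono_fun ?_
    rintro p ⟨_, hp⟩
    by_cases hpA : p ∈ A
    · rw [exA_of_mem hpA, exA_of_mem hpA]
      unfold ex
      rw [← ENNReal.ofReal_mul (Real.exp_pos _).le, ← Real.exp_add]
      apply ENNReal.ofReal_le_ofReal
      apply Real.exp_le_exp.2
      have h1 : (l : ℝ) ≤ p.length := by exact_mod_cast hp.le
      nlinarith
    · rw [exA_of_notMem hpA]
      exact zero_le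
  · rintro p ⟨hp, _⟩
    exact hp

noncomputable def wt (A : Set Word) (u c : ℝ) (ps : List Word) : ℝ≥0∞ := exA A u c 0 ps.flatten

lemma wt_append (hA : IsClass A) (u c : ℝ) {ps qs : List Word} (hp : AllIrr ps)
    (hq : AllIrr qs) : wt A u c (ps ++ qs) = wt A u c ps * wt A u c qs := by
  unfold wt; rw [List.flatten_append, exA_append hA (isBr_flatten hp) (isBr_flatten hq)]

/-! ### lists of short pieces -/

lemma mass_short (hA : IsClass A) {u c : ℝ} (h : ParamsA A u c) (l N : ℕ) :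
    mass (exA A u c 0) {w | IsBr w ∧ w.length = N} ≤ mass (wt A u c) (ZLow.Gd l N) +
      (N + 1 : ℕ) * mass (exA A u c 0) {p | IsIrr p ∧ l < p.length} := by
  set T := mass (exA A u c 0) {p | IsIrr p ∧ l < p.length} with hT
  let A1 : Set Word := {w | ∃ ps ∈ ZLow.Gd l N, ps.flatten = w}
  let A2 : Set Word := {w | ∃ a p b : Word, IsBr a ∧ IsIrr p ∧ IsBr b ∧ l < p.length ∧
    w = a ++ (p ++ b) ∧ w.length = N}
  have h1 : {w | IsBr w ∧ w.length = N} ⊆ A1 ∪ A2 := by
    rintro w ⟨hw, hl⟩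
    obtain ⟨ps, hps, rfl⟩ := exists_factor hw
    by_cases hs : ∀ p ∈ ps, p.length ≤ l
    · left
      exact ⟨ps, ⟨hps, hs, hl⟩, rfl⟩
    · right
      push Not at hs
      obtain ⟨p, hp, hlp⟩ := hs
      obtain ⟨a, b, rfl⟩ := List.append_of_mem hp
      have ha := (ZLow.allIrr_append.1 hps).1
      have hb := (ZLow.allIrr_append.1 hps).2
      have hb' : AllIrr b := fun q hq => hb q (List.mem_cons_of_mem _ hq)
      exact ⟨a.flatten, p, b.flatten, isBr_flatten ha, hb p (by simp), isBr_flatten hb', hlp,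
        by simp, hl⟩
  refine (mass_mono h1).trans ((mass_union_le _ _ _).trans ?_)
  gcongr
  · refine mass_le_of_section (fun ps => ps.flatten) ?_
    rintro w ⟨ps, hps, rfl⟩
    exact ⟨ps, hps, rfl, le_rfl⟩
  · have h2 : mass (exA A u c 0) A2 ≤ mass (exA A u c 0) {a | IsBr a ∧ a.length ≤ N} * (T * 1) := by
      refine mass_mul_fiber
        (C := fun a => {w | ∃ p b : Word, IsIrr p ∧ IsBr b ∧ l < p.length ∧ w = p ++ b ∧
          w.length = N - a.length}) ?_ ?_ ?_
      · rintro a ⟨ha, _⟩ w ⟨p, b, hp, hb, _, rfl, _⟩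
        exact exA_append hA ha (hp.br.append hb)
      · rintro a ⟨ha, hal⟩
        refine mass_mul_fiber
          (C := fun p => {b | IsBr b ∧ b.length = N - a.length - p.length}) ?_ ?_ ?_
        · rintro p ⟨hp, _⟩ b ⟨hb, _⟩
          exact exA_append hA hp.br hb
        · rintro p hp
          exact h.up _
        · rintro w ⟨p, b, hp, hb, hlp, rfl, hl⟩
          refine ⟨p, ⟨hp, hlp⟩, b, ⟨hb, ?_⟩, rfl⟩
          simp at hl
          omega
      · rintro w ⟨a, p, b, ha, hp, hb, hlp, rfl, hl⟩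
        simp at hl
        refine ⟨a, ⟨ha, by omega⟩, p ++ b, ⟨p, b, hp, hb, hlp, rfl, ?_⟩, rfl⟩
        simp
        omega
    refine h2.trans ?_
    rw [mul_one]
    gcongr
    refine (ZLow.mass_le_sum_of_cover (Finset.range (N + 1))
      (fun i => {a | IsBr a ∧ a.length = i}) ?_).trans ?_
    · rintro a ⟨ha, hal⟩
      exact ⟨a.length, by simp; omega, ha, rfl⟩
    · refine (Finset.sum_le_sum (fun i _ => h.up i)).trans ?_
      simp

/-! ### pigeonhole and concatenation -/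

lemma pigeon {u c : ℝ} (l N : ℕ) : ∃ s h : ℤ,
    mass (wt A u c) (ZLow.Gd l N) ≤ ((2 * N + 1) * (2 * N + 1) : ℕ) * mass (wt A u c) (ZLow.Gsh l N s h) := by
  classical
  let F : Finset (ℤ × ℤ) := (Finset.Icc (-(N : ℤ)) N) ×ˢ (Finset.Icc (-(N : ℤ)) N)
  have hcard : F.card = (2 * N + 1) * (2 * N + 1) := by
    simp only [F, Finset.card_product, Int.card_Icc]
    have : ((N : ℤ) + 1 - -(N : ℤ)).toNat = 2 * N + 1 := by omega
    rw [this]
  have hne : F.Nonempty := ⟨(0, 0), by simp [F]⟩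
  obtain ⟨p, hp, hmax⟩ := Finset.exists_max_image F (fun p => mass (wt A u c) (ZLow.Gsh l N p.1 p.2)) hne
  refine ⟨p.1, p.2, ?_⟩
  refine (ZLow.mass_le_sum_of_cover F (fun p => ZLow.Gsh l N p.1 p.2) ?_).trans ?_
  · intro ps hps
    have hl := hps.2.2
    have hX := abs_X_le ps.flatten
    have hY := abs_Y_le ps.flatten
    rw [hl] at hX hY
    refine ⟨(X ps.flatten, Y ps.flatten), ?_, hps, rfl, rfl⟩
    simp only [F, Finset.mem_product, Finset.mem_Icc]
    exact ⟨abs_le.1 hX, abs_le.1 hY⟩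
  · refine (Finset.sum_le_card_nsmul F _ _ hmax).trans ?_
    rw [nsmul_eq_mul, hcard]

lemma concat (hA : IsClass A) {u c : ℝ} (l N : ℕ) (s h : ℤ) :
    mass (wt A u c) (ZLow.Gsh l N s h) * mass (wt A u c) (ZLow.Gsh l N s h) ≤ mass (wt A u c) (ZLow.Z0 l N s) := by
  rw [← mass_prod]
  refine mass_le_of_injOn (fun p : List Word × List Word => p.1 ++ p.2.map flipY) ?_ ?_ ?_
  · rintro ⟨a, b⟩ ⟨ha, hb⟩ ⟨a', b'⟩ ⟨ha', hb'⟩ hab
    simp only at ha hb ha' hb' hab
    have h1 : a.flatten ++ (b.map flipY).flatten = a'.flatten ++ (b'.map flipY).flatten := by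
      rw [← List.flatten_append, ← List.flatten_append, hab]
    have h2 : a.flatten = a'.flatten :=
      (List.append_inj h1 (by rw [ha.1.2.2, ha'.1.2.2])).1
    have h3 : a = a' := factor_unique ha.1.1 ha'.1.1 h2
    subst h3
    have h4 : b.map flipY = b'.map flipY := List.append_cancel_left hab
    have h5 : Function.Injective flipY := fun x y hxy => by
      rw [← flipY_flipY x, hxy, flipY_flipY]
    have h6 : b = b' := List.map_injective_iff.2 h5 h4
    rw [h6]
  · rintro ⟨a, b⟩ ⟨ha, hb⟩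
    simp only at ha hb
    obtain ⟨⟨ha1, ha2, ha3⟩, hax, hay⟩ := ha
    obtain ⟨⟨hb1, hb2, hb3⟩, hbx, hby⟩ := hb
    refine ⟨⟨?_, ?_, ?_⟩, ?_, ?_⟩
    · exact ZLow.allIrr_append.2 ⟨ha1, ZLow.allIrr_map_flipY hb1⟩
    · intro p hp
      rcases List.mem_append.1 hp with h | h
      · exact ha2 p h
      · obtain ⟨q, hq, rfl⟩ := List.mem_map.1 h
        rw [length_flipY]; exact hb2 q hq
    · rw [List.flatten_append, ZLow.flatten_map_flipY, List.length_append, length_flipY, ha3, hb3]; ring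
    · rw [List.flatten_append, ZLow.flatten_map_flipY, X_append, X_flipY, hax, hbx]; ring
    · rw [List.flatten_append, ZLow.flatten_map_flipY, Y_append, Y_flipY, hay, hby]; ring
  · rintro ⟨a, b⟩ ⟨ha, hb⟩
    simp only at ha hb ⊢
    rw [wt_append hA u c ha.1.1 (ZLow.allIrr_map_flipY hb.1.1)]
    unfold wt
    rw [ZLow.flatten_map_flipY, exA_flipY0 hA]

/-! ### rotation -/

lemma rotate_top (hA : IsClass A) {u c : ℝ} (l N : ℕ) (s : ℤ) :
    mass (wt A u c) (ZLow.Z0 l N s) ≤ (2 * N + 1 : ℕ) * mass (wt A u c) (ZLow.Top l N s) := by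
  classical
  refine (ZLow.mass_le_sum_of_cover (Finset.range (2 * N + 1))
    (fun i => {ps | i ≤ ps.length ∧ ps.rotate i ∈ ZLow.Top l N s}) ?_).trans ?_
  · intro ps hps
    obtain ⟨⟨h1, h2, h3⟩, h4, h5⟩ := hps
    obtain ⟨i, hi, hmin⟩ := Finset.exists_min_image (Finset.range (ps.length + 1))
      (fun i => Y (ps.take i).flatten) ⟨0, by simp⟩
    have hi' : i ≤ ps.length := by simp at hi; omega
    refine ⟨i, ?_, hi', ?_⟩
    · have := ZLow.length_le_flatten h1
      simp; omega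
    · rw [List.rotate_eq_drop_append_take hi']
      have hsplit : (ps.take i).flatten ++ (ps.drop i).flatten = ps.flatten := by
        rw [← List.flatten_append, List.take_append_drop]
      have hYs : Y (ps.take i).flatten + Y (ps.drop i).flatten = 0 := by
        rw [← Y_append, hsplit, h5]
      refine ⟨⟨⟨?_, ?_, ?_⟩, ?_, ?_⟩, ?_⟩
      · intro p hp
        rcases List.mem_append.1 hp with h | h
        · exact h1 p (List.mem_of_mem_drop h)
        · exact h1 p (List.mem_of_mem_take h)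
      · intro p hp
        rcases List.mem_append.1 hp with h | h
        · exact h2 p (List.mem_of_mem_drop h)
        · exact h2 p (List.mem_of_mem_take h)
      · rw [List.flatten_append, List.length_append, add_comm, ← List.length_append, hsplit, h3]
      · rw [List.flatten_append, X_append, add_comm, ← X_append, hsplit, h4]
      · rw [List.flatten_append, Y_append, add_comm, ← Y_append, hsplit, h5]
      · intro qs hqs
        have key : ∀ rs : List Word, rs <+: ps → Y (ps.take i).flatten ≤ Y rs.flatten := by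
          intro rs hrs
          have hr : rs = ps.take rs.length := List.prefix_iff_eq_take.1 hrs
          have := hmin rs.length (by simp; exact hrs.length_le)
          rw [← hr] at this
          exact this
        obtain ⟨t, ht⟩ := hqs
        rcases List.append_eq_append_iff.1 ht with ⟨e, he, _⟩ | ⟨e, he, hte⟩
        · -- drop = qs ++ e
          have h6 : ps.take i ++ qs <+: ps := by
            refine ⟨e, ?_⟩
            rw [List.append_assoc, ← he, List.take_append_drop]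
          have h7 := key _ h6
          rw [List.flatten_append, Y_append] at h7
          omega
        · -- qs = drop ++ e, take = e ++ t
          have h6 : e <+: ps := by
            refine ⟨t ++ ps.drop i, ?_⟩
            rw [← List.append_assoc, ← hte, List.take_append_drop]
          have h7 := key _ h6
          rw [he, List.flatten_append, Y_append]
          omega
  · refine (Finset.sum_le_card_nsmul (Finset.range (2 * N + 1)) _ (mass (wt A u c) (ZLow.Top l N s))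
      ?_).trans ?_
    · intro i _
      refine mass_le_of_injOn (fun ps => ps.rotate i) ?_ ?_ ?_
      · exact fun x _ y _ hxy => List.rotate_injective i hxy
      · intro ps hps; exact hps.2
      · intro ps hps
        have h7 : ps.rotate i = ps.drop i ++ ps.take i := List.rotate_eq_drop_append_take hps.1
        have h8 : AllIrr (ps.rotate i) := hps.2.1.1.1
        rw [h7] at h8
        obtain ⟨h9, h10⟩ := ZLow.allIrr_append.1 h8
        rw [h7, wt_append hA u c h9 h10, mul_comm, ← wt_append hA u c h10 h9, List.take_append_drop]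
    · rw [nsmul_eq_mul]; simp

/-! ### back to words -/

lemma top_le_topW {u c : ℝ} (l N : ℕ) (s : ℤ) :
    mass (wt A u c) (ZLow.Top l N s) ≤ mass (exA A u c 0) (ZLow.TopW l N s) := by
  refine mass_le_of_injOn (fun ps => ps.flatten) ?_ ?_ (fun _ _ => le_rfl)
  · intro a ha b hb hab
    exact factor_unique ha.1.1.1 hb.1.1.1 hab
  · intro ps hps
    obtain ⟨⟨⟨h1, h2, h3⟩, h4, h5⟩, h6⟩ := hps
    refine ⟨isBr_flatten h1, h3, h4, h5, ?_⟩
    intro t ht
    obtain ⟨qs, t', hq, rfl, h7⟩ := ZLow.prefix_flatten ht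
    have h8 := h6 qs hq
    have h9 := abs_le.1 (abs_Y_le t')
    have h10 : t'.length ≤ l := by
      rcases h7 with rfl | ⟨p, hp, htp⟩
      · simp
      · exact htp.length_le.trans (h2 p hp)
    rw [Y_append]
    have h11 : ((t'.length : ℕ) : ℤ) ≤ l := by exact_mod_cast h10
    omega

lemma topW_le_botW (hA : IsClass A) {u c : ℝ} (l N : ℕ) (s : ℤ) :
    mass (exA A u c 0) (ZLow.TopW l N s) ≤ mass (exA A u c 0) (ZLow.BotW l N s) := by
  refine mass_le_of_injOn flipY ?_ ?_ ?_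
  · intro x _ y _ hxy
    rw [← flipY_flipY x, hxy, flipY_flipY]
  · rintro w ⟨h1, h2, h3, h4, h5⟩
    refine ⟨h1.flipY, by simpa using h2, by simpa using h3, by simp [h4], ?_⟩
    intro t ht
    have := h5 _ (prefix_flipY.1 ht)
    rw [Y_flipY] at this
    omega
  · intro w _
    rw [exA_flipY0 hA]

/-! ### polygons from pairs of bridges -/

lemma isBr_EN (k : ℕ) : IsBr (Dir.E :: List.replicate k Dir.N) := by
  apply isBr_cons_of
  · rintro t ⟨p, q, hpq⟩ _ hy
    have h1 : t = List.replicate t.length Dir.N := by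
      rw [List.eq_replicate_iff]
      refine ⟨rfl, fun b hb => ?_⟩
      have : b ∈ List.replicate k Dir.N := by
        rw [← hpq]
        exact List.mem_append_left _ (List.mem_append_right _ hb)
      exact List.eq_of_mem_replicate this
    rw [h1, ZLow.Y_replicate_N] at hy
    exact List.length_eq_zero_iff.1 (by exact_mod_cast hy)
  · intro t ht
    obtain ⟨i, _, rfl⟩ := prefix_replicate ht
    rw [ZLow.X_replicate_N]
  · intro t ht
    obtain ⟨i, _, rfl⟩ := prefix_replicate ht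
    rw [ZLow.X_replicate_N, ZLow.X_replicate_N]

lemma rv_replicate_N (k : ℕ) : rv (List.replicate k Dir.N) = List.replicate k Dir.S := by
  simp [rv, Dir.op]

lemma inA_clos (hA : IsClass A) {n k l N : ℕ} {s : ℤ} {P Q : Word} (hP : P ∈ ZLow.TopW l N s)
    (hQ : Q ∈ ZLow.BotW l N s) (hPA : P ∈ A) (hQA : Q ∈ A) (hn : 2 * N + k + 1 = n)
    (hw : width (loop (2 * n) (ZLow.clos k P Q)) = 2 * s + 1) :
    InA A n (loop (2 * n) (ZLow.clos k P Q)) := by
  obtain ⟨hP1, hP2, hP3, hP4, _⟩ := hP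
  obtain ⟨hQ1, hQ2, hQ3, hQ4, _⟩ := hQ
  have hPE : IsBr (P ++ [Dir.E]) := hP1.append isBr_singleton_E
  have hQE : IsBr (Q ++ (Dir.E :: List.replicate k Dir.N)) := hQ1.append (isBr_EN k)
  have ea : Dir.E :: (List.replicate k Dir.N ++ P ++ [Dir.E]) =
      (Dir.E :: List.replicate k Dir.N) ++ (P ++ [Dir.E]) := by simp
  have eb : Dir.E :: (Q ++ [Dir.E] ++ List.replicate k Dir.N) =
      [Dir.E] ++ (Q ++ (Dir.E :: List.replicate k Dir.N)) := by simp
  refine ⟨0, List.replicate k Dir.N ++ P ++ [Dir.E], Q ++ [Dir.E] ++ List.replicate k Dir.N,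
    ⟨?_, ?_, ?_, ?_, ?_, ?_, ?_⟩, ?_, ?_⟩
  · rw [ea]; exact (isBr_EN k).append hPE
  · rw [eb]; exact isBr_singleton_E.append hQE
  · rw [hw]
    simp [hP3, Dir.dx]
  · rw [hw]
    simp [hQ3, Dir.dx]
  · simp [hP4, hQ4, Dir.dy]
  · simp [hP2, hQ2]; omega
  · have e1 : ZLow.clos k P Q = List.replicate k Dir.N ++ P ++ [Dir.E] ++
        rv (Q ++ [Dir.E] ++ List.replicate k Dir.N) := by
      rw [rv_append (Q ++ [Dir.E]), rv_replicate_N]
      simp [ZLow.clos]
    rw [← e1]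
    funext j
    simp [rot, loop]
  · rw [ea, hA.mul (isBr_EN k) hPE, hA.mul hP1 isBr_singleton_E]
    exact ⟨hA.EN k, hPA, hA.E⟩
  · rw [eb, hA.mul isBr_singleton_E hQE, hA.mul hQ1 (isBr_EN k)]
    exact ⟨hA.E, hQA, hA.EN k⟩

lemma pairs_le (hA : IsClass A) {u c : ℝ} {n k l N : ℕ} {s : ℤ} (hk : 2 * l < k)
    (hn : 2 * N + k + 1 = n) :
    ENNReal.ofReal (Real.exp (2 * c + 4 * u * N)) *
      (mass (exA A u c 0) (ZLow.TopW l N s) * mass (exA A u c 0) (ZLow.BotW l N s)) ≤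
      mass (fun v : ZMod (2 * n) → ℤ × ℤ => ENNReal.ofReal (Real.exp (2 * c * width v)))
        {v | IsSAP (2 * n) v ∧ InA A n v} := by
  rw [mass_exA, mass_exA, ← mass_prod, ← mass_const_mul]
  have key : ∀ p ∈ (ZLow.TopW l N s ∩ A) ×ˢ (ZLow.BotW l N s ∩ A),
      (IsSAP (2 * n) (loop (2 * n) (ZLow.clos k p.1 p.2)) ∧
        InA A n (loop (2 * n) (ZLow.clos k p.1 p.2))) ∧
      width (loop (2 * n) (ZLow.clos k p.1 p.2)) = 2 * s + 1 := by
    rintro ⟨P, Q⟩ ⟨⟨hP, hPA⟩, ⟨hQ, hQA⟩⟩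
    simp only at hP hPA hQ hQA
    have hP' := hP
    have hQ' := hQ
    obtain ⟨hP1, hP2, hP3, hP4, hP5⟩ := hP
    obtain ⟨hQ1, hQ2, hQ3, hQ4, hQ5⟩ := hQ
    have hlen : P.length + Q.length + 2 * k + 2 = 2 * n := by
      have e1 : P.length = 2 * N := hP2
      have e2 : Q.length = 2 * N := hQ2
      omega
    have := build_sap (n := n) (k := k) (h := l) hP1 hQ1 (by rw [hP3, hQ3]) hP4 hQ4 hP5 hQ5 hk hlen
    rw [hP3] at this
    exact ⟨⟨this.1, inA_clos hA hP' hQ' hPA hQA hn this.2⟩, this.2⟩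
  refine mass_le_of_injOn (fun p : Word × Word => loop (2 * n) (ZLow.clos k p.1 p.2)) ?_ ?_ ?_
  · rintro ⟨P, Q⟩ ⟨⟨hP, _⟩, ⟨hQ, _⟩⟩ ⟨P', Q'⟩ ⟨⟨hP', _⟩, ⟨hQ', _⟩⟩ hab
    simp only at hP hQ hP' hQ' hab
    obtain ⟨e1, e2, e3⟩ := ZLow.clos_facts hP hQ hn
    obtain ⟨f1, f2, f3⟩ := ZLow.clos_facts hP' hQ' hn
    have h1 := ZLow.loop_inj (by omega) e1 f1 (by rw [e2, f2]) (by rw [e3, f3]) hab
    obtain ⟨h2, h3⟩ := ZLow.clos_inj hP.2.1 hP'.2.1 h1
    rw [h2, h3]
  · intro p hp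
    exact (key p hp).1
  · intro p hp
    have hw := (key p hp).2
    obtain ⟨⟨hP, _⟩, ⟨hQ, _⟩⟩ := hp
    rw [hw]
    unfold ex
    rw [hP.2.1, hQ.2.1, hP.2.2.1, hQ.2.2.1, ← ENNReal.ofReal_mul (Real.exp_pos _).le,
      ← ENNReal.ofReal_mul (Real.exp_pos _).le, ← Real.exp_add, ← Real.exp_add]
    apply ENNReal.ofReal_le_ofReal
    apply Real.exp_le_exp.2
    push_cast
    apply le_of_eq
    ring

/-! ### arithmetic -/

/-- the lower bound for the mass of the half polygons -/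
lemma mass_topW (hA : IsClass A) {u c : ℝ} (h : ParamsA A u c) {κ δ M' : ℝ} (hκ : 0 < κ) (hδ : 0 < δ)
    (hlow : ∀ n : ℕ, ENNReal.ofReal κ ≤ mass (exA A u c 0) {w | IsBr w ∧ w.length = n})
    (hM : mass (exA A (u - δ) c 0) Irr ≤ ENNReal.ofReal M') {l N n : ℕ} (hn : 1 ≤ n)
    (hN : 2 * N + 1 ≤ n) (hl : (n : ℝ) * (Real.exp (-δ * l) * M') ≤ κ / 2) :
    ∃ s : ℤ, ENNReal.ofReal ((κ / 2) ^ 2 / (n : ℝ) ^ 5) ≤ mass (exA A u c 0) (ZLow.TopW l N s) := by
  have hn0 : (0 : ℝ) < n := by exact_mod_cast hn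
  have hNn : ((2 * N + 1 : ℕ) : ℝ) ≤ n := by exact_mod_cast hN
  have h1 : ENNReal.ofReal (κ / 2) ≤ mass (wt A u c) (ZLow.Gd l N) := by
    refine ZLow.half_step ?_ hl ((hlow N).trans (mass_short hA h l N))
    rw [ENNReal.ofReal_mul hn0.le, ENNReal.ofReal_mul (Real.exp_pos _).le]
    have h2 : ((N + 1 : ℕ) : ℝ≥0∞) ≤ ENNReal.ofReal (n : ℝ) := by
      rw [ENNReal.ofReal_natCast]
      exact_mod_cast (by omega : N + 1 ≤ n)
    gcongr
    refine (tail_bound hδ l).trans ?_
    gcongr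
  obtain ⟨s, hh, hp⟩ := pigeon (A := A) (u := u) (c := c) l N
  refine ⟨s, ?_⟩
  have h2 : ENNReal.ofReal (κ / 2 / (n : ℝ) ^ 2) ≤ mass (wt A u c) (ZLow.Gsh l N s hh) := by
    refine ZLow.div_step (by positivity) ?_ (h1.trans hp)
    push_cast at hNn ⊢
    nlinarith
  have h3 : ENNReal.ofReal ((κ / 2 / (n : ℝ) ^ 2) * (κ / 2 / (n : ℝ) ^ 2)) ≤
      mass (wt A u c) (ZLow.Z0 l N s) := by
    rw [ENNReal.ofReal_mul (by positivity)]
    exact le_trans (mul_le_mul' h2 h2) (concat hA l N s hh)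
  have h4 : ENNReal.ofReal ((κ / 2 / (n : ℝ) ^ 2) * (κ / 2 / (n : ℝ) ^ 2) / n) ≤
      mass (wt A u c) (ZLow.Top l N s) := ZLow.div_step hn0 hNn (h3.trans (rotate_top hA l N s))
  have h5 : (κ / 2 / (n : ℝ) ^ 2) * (κ / 2 / (n : ℝ) ^ 2) / n = (κ / 2) ^ 2 / (n : ℝ) ^ 5 := by
    field_simp
  rw [h5] at h4
  exact h4.trans (top_le_topW l N s)

end ZLowK

open ZLowK

/-- the partition function of the polygons of the class is at least `exp (2 u n)` up to a power of `n` -/
theorem Z_lowerA {A : Set Word} (hA : IsClass A) {u c : ℝ} (h : ParamsA A u c) :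
    ∃ K : ℕ, ∀ᶠ n : ℕ in atTop, ENNReal.ofReal (Real.exp (2 * u * n) / (n : ℝ) ^ K) ≤
      mass (fun v : ZMod (2 * n) → ℤ × ℤ => ENNReal.ofReal (Real.exp (2 * c * width v)))
        {v | IsSAP (2 * n) v ∧ InA A n v} := by
  obtain ⟨κ, hκ, hlow⟩ := h.low
  obtain ⟨δ, hδ, hM⟩ := h.tail
  set M' := (mass (exA A (u - δ) c 0) Irr).toReal with hM'def
  have hM' : 0 ≤ M' := ENNReal.toReal_nonneg
  have hMle : mass (exA A (u - δ) c 0) Irr ≤ ENNReal.ofReal M' := by
    rw [hM'def, ENNReal.ofReal_toReal hM]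
  have hu := h.u_pos
  have hc := h.c_nonneg
  let C : ℝ := 2 / δ
  have hC : 0 < C := by positivity
  refine ⟨11 + ⌈4 * u * C⌉₊, ?_⟩
  have E1 : ∀ᶠ n : ℕ in atTop, 2 * C * Real.log n ≤ (n : ℝ) / 2 := by
    have h1 := (Real.isLittleO_log_id_atTop.const_mul_left (2 * C)).def (c := 1 / 2) (by norm_num)
    have h2 := tendsto_natCast_atTop_atTop (R := ℝ) |>.eventually h1
    filter_upwards [h2] with n hn
    simp only [id, Real.norm_eq_abs] at hn
    rw [abs_of_nonneg (by positivity : (0 : ℝ) ≤ (n : ℝ))] at hn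
    exact (le_abs_self _).trans (hn.trans (by linarith))
  have E2 : ∀ᶠ n : ℕ in atTop, 2 * M' / κ ≤ (n : ℝ) :=
    tendsto_natCast_atTop_atTop.eventually_ge_atTop _
  have E3 : ∀ᶠ n : ℕ in atTop, Real.exp (10 * u) / (κ / 2) ^ 4 ≤ (n : ℝ) :=
    tendsto_natCast_atTop_atTop.eventually_ge_atTop _
  have E4 : ∀ᶠ n : ℕ in atTop, 20 ≤ n := eventually_ge_atTop _
  filter_upwards [E1, E2, E3, E4] with n e1 e2 e3 e4
  have hn1 : (1 : ℝ) ≤ n := by exact_mod_cast (by omega : 1 ≤ n)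
  have hn20 : (20 : ℝ) ≤ n := by exact_mod_cast e4
  have hn0 : (0 : ℝ) < n := by linarith
  have hlog : 0 ≤ Real.log n := Real.log_nonneg hn1
  set l : ℕ := ⌈C * Real.log n⌉₊ with hl
  have hl1 : C * Real.log n ≤ l := Nat.le_ceil _
  have hl2 : (l : ℝ) < C * Real.log n + 1 := Nat.ceil_lt_add_one (by positivity)
  have hln : (2 * (l : ℝ)) + 3 ≤ n := by linarith
  have hln' : 2 * l + 3 ≤ n := by exact_mod_cast hln
  obtain ⟨k, N, hk1, hk2, hkN⟩ : ∃ k N : ℕ, 2 * l < k ∧ k ≤ 2 * l + 2 ∧ 2 * N + k + 1 = n := by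
    rcases Nat.even_or_odd' (n - (2 * l + 2)) with ⟨N, hN | hN⟩
    · exact ⟨2 * l + 1, N, by omega, by omega, by omega⟩
    · exact ⟨2 * l + 2, N, by omega, by omega, by omega⟩
  have hexp : Real.exp (-δ * l) ≤ 1 / (n : ℝ) ^ 2 := by
    have h1 : -δ * l ≤ -(2 * Real.log n) := by
      have : δ * (C * Real.log n) ≤ δ * l := by gcongr
      have h2 : δ * (C * Real.log n) = 2 * Real.log n := by
        simp only [C]; field_simp
      linarith
    calc Real.exp (-δ * l) ≤ Real.exp (-(2 * Real.log n)) := Real.exp_le_exp.2 h1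
      _ = 1 / (n : ℝ) ^ 2 := by
        rw [Real.exp_neg, one_div, ← Nat.cast_ofNat (R := ℝ), ← Real.log_pow, Real.exp_log (by positivity)]
  obtain ⟨s, hs⟩ := mass_topW hA h hκ hδ hlow hMle (l := l) (N := N) (n := n) (by omega) (by omega)
    (by
      calc (n : ℝ) * (Real.exp (-δ * l) * M') ≤ n * (1 / (n : ℝ) ^ 2 * M') := by gcongr
        _ = M' / n := by field_simp
        _ ≤ κ / 2 := by
          rw [div_le_iff₀ hn0]
          rw [div_le_iff₀ hκ] at e2
          linarith)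
  have hs' := hs.trans (topW_le_botW hA (u := u) (c := c) l N s)
  refine le_trans ?_ (pairs_le hA (u := u) (c := c) hk1 hkN (s := s))
  have h6 : ENNReal.ofReal (Real.exp (2 * c + 4 * u * N) *
      ((κ / 2) ^ 2 / (n : ℝ) ^ 5 * ((κ / 2) ^ 2 / (n : ℝ) ^ 5))) ≤
      ENNReal.ofReal (Real.exp (2 * c + 4 * u * N)) *
      (mass (exA A u c 0) (ZLow.TopW l N s) * mass (exA A u c 0) (ZLow.BotW l N s)) := by
    rw [ENNReal.ofReal_mul (Real.exp_pos _).le, ENNReal.ofReal_mul (by positivity)]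
    gcongr
  refine le_trans (ENNReal.ofReal_le_ofReal ?_) h6
  -- real inequality
  have hNr : (N : ℝ) * 2 = n - k - 1 := by
    have : ((2 * N + k + 1 : ℕ) : ℝ) = n := by rw [hkN]
    push_cast at this; linarith
  have hkr : (k : ℝ) ≤ 2 * l + 2 := by exact_mod_cast hk2
  have h7 : Real.exp (2 * u * n) * (Real.exp (-(10 * u)) * Real.exp (-(4 * u * C * Real.log n))) ≤
      Real.exp (2 * c + 4 * u * N) := by
    rw [← Real.exp_add, ← Real.exp_add]
    apply Real.exp_le_exp.2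
    have h8 : 4 * u * N = 2 * u * (n - k - 1) := by rw [← hNr]; ring
    rw [h8]
    have h9 : u * (k : ℝ) ≤ u * (2 * (C * Real.log n + 1) + 2) := by
      gcongr; linarith
    nlinarith
  have h10 : Real.exp (-(4 * u * C * Real.log n)) ≥ 1 / (n : ℝ) ^ ⌈4 * u * C⌉₊ := by
    rw [ge_iff_le, one_div, ← Real.exp_log (x := (n : ℝ) ^ ⌈4 * u * C⌉₊) (by positivity),
      ← Real.exp_neg, Real.log_pow]
    apply Real.exp_le_exp.2
    have := Nat.le_ceil (4 * u * C)
    nlinarith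
  have h11 : 1 / (n : ℝ) ≤ Real.exp (-(10 * u)) * (κ / 2) ^ 4 := by
    rw [div_le_iff₀ (by positivity)] at e3
    rw [Real.exp_neg, div_le_iff₀ hn0]
    have h12 := Real.exp_pos (10 * u)
    have h13 : 1 ≤ (Real.exp (10 * u))⁻¹ * ((n : ℝ) * (κ / 2) ^ 4) := by
      rw [inv_mul_eq_div, le_div_iff₀ h12]
      linarith
    linarith
  calc Real.exp (2 * u * n) / (n : ℝ) ^ (11 + ⌈4 * u * C⌉₊)
      = Real.exp (2 * u * n) * (1 / (n : ℝ) ^ ⌈4 * u * C⌉₊) * (1 / n) / (n : ℝ) ^ 10 := by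
        rw [pow_add]; field_simp
    _ ≤ Real.exp (2 * u * n) * (Real.exp (-(4 * u * C * Real.log n))) *
        (Real.exp (-(10 * u)) * (κ / 2) ^ 4) / (n : ℝ) ^ 10 := by
        gcongr
    _ = Real.exp (2 * u * n) * (Real.exp (-(10 * u)) * Real.exp (-(4 * u * C * Real.log n))) *
        ((κ / 2) ^ 2 / (n : ℝ) ^ 5 * ((κ / 2) ^ 2 / (n : ℝ) ^ 5)) := by
        field_simp
    _ ≤ _ := by gcongr

end Pool.Agent.SAPK
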