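import Pool.Agent.SAPK.TailsK
import Pool.Agent.SAPK.ParamsK
import Pool.Agent.SAPK.GapK
import Pool.Agent.SAPK.ZLowK
import Pool.Agent.SAPK.ArcsK

/-!
Transfer from polygons to pairs of bridges of a class, and the final assembly.
-/

namespace Pool.Agent.SAPK

open scoped ENNReal
open Filter Pool.Agent.SAPF

/-- transfer inequality for a class -/
lemma transferA {A : Set Word} {u c : ℝ} {n : ℕ} (hn : 2 ≤ n)
    (V : Set (ZMod (2 * n) → ℤ × ℤ)) (bad : Word × Word → Prop) (hV : ∀ v ∈ V, InA A n v)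
    (hbad : ∀ v ∈ V, ∀ i a b, IsArcs n v i a b → Dir.E :: a ∈ A → Dir.E :: b ∈ A →
      bad (Dir.E :: a, Dir.E :: b)) :
    mass (wv c) V ≤ (2 * n : ℕ) * ENNReal.ofReal (Real.exp (u * (2 * n + 2) - 2 * c)) *
      mass (pwA A u c) {p | p ∈ Pairs n ∧ bad p} := by
  have : NeZero (2 * n) := ⟨by omega⟩
  have h1 : mass (wv c) V ≤ mass (fun q : ZMod (2 * n) × (Word × Word) =>
      (1 : ℝ≥0∞) * (ENNReal.ofReal (Real.exp (u * (2 * n + 2) - 2 * c)) * pwA A u c q.2))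
      ((Set.univ : Set (ZMod (2 * n))) ×ˢ {p | p ∈ Pairs n ∧ bad p}) := by
    refine mass_le_of_section
      (fun q => rot q.1 (loop (2 * n) (q.2.1.tail ++ rv q.2.2.tail))) ?_
    intro v hv
    obtain ⟨i, a, b, h, ha, hb⟩ := hV v hv
    refine ⟨(i, (Dir.E :: a, Dir.E :: b)), ⟨Set.mem_univ _, ⟨?_, ?_⟩⟩, h.eq.symm, ?_⟩
    · refine ⟨h.bra, h.brb, ?_⟩
      have := h.len
      simp only [List.length_cons]
      omega
    · exact hbad v hv i a b h ha hb
    · rw [one_mul]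
      unfold wv pwA
      simp only
      rw [exA_of_mem ha, exA_of_mem hb]
      unfold ex
      rw [← ENNReal.ofReal_mul (Real.exp_pos _).le, ← ENNReal.ofReal_mul (Real.exp_pos _).le,
        ← Real.exp_add, ← Real.exp_add]
      apply ENNReal.ofReal_le_ofReal
      apply Real.exp_le_exp.2
      have hl : (a.length : ℝ) + b.length = 2 * n := by exact_mod_cast h.len
      have hXa : ((X a : ℤ) : ℝ) = width v := by rw [h.Xa]
      have hXb : ((X b : ℤ) : ℝ) = width v := by rw [h.Xb]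
      simp only [List.length_cons, X_cons, Y_cons, Dir.dx, Dir.dy]
      push_cast
      rw [hXa, hXb]
      have hu : u * ((a.length : ℝ) + b.length) = u * (2 * n) := by rw [hl]
      linarith
  refine h1.trans ?_
  rw [mass_prod (fun _ : ZMod (2 * n) => (1 : ℝ≥0∞))
    (fun p => ENNReal.ofReal (Real.exp (u * (2 * n + 2) - 2 * c)) * pwA A u c p), mass_const_mul]
  have : mass (fun _ : ZMod (2 * n) => (1 : ℝ≥0∞)) Set.univ = (2 * n : ℕ) := by
    rw [mass_eq_indicator]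
    simp [tsum_fintype, ZMod.card]
  rw [this, mul_assoc]

/-- polygons with two arcs in the class -/
def SA (A : Set Word) (n : ℕ) : Set (ZMod (2 * n) → ℤ × ℤ) := {v | IsSAP (2 * n) v ∧ InA A n v}

/-- mean area (uniform measure) over a set of polygons -/
noncomputable def meanA {m : ℕ} (S : Set (ZMod m → ℤ × ℤ)) : ℝ :=
  (∑ᶠ v ∈ S, (area v : ℝ)) / S.ncard

lemma finite_SA (A : Set Word) {n : ℕ} (hn : 2 ≤ n) : (SA A n).Finite :=
  (finite_SAP hn).subset fun _ hv => hv.1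

set_option maxHeartbeats 1000000 in
theorem mainA {A : Set Word} (hA : IsClass A) {u : ℝ} (hP : ParamsA A u 0) : ∃ n₀ : ℕ, ∀ n ≥ n₀,
    (n : ℝ) ^ (3 / 2 : ℝ) / (Real.log n) ^ 6 ≤ meanA (SA A n) ∧
      meanA (SA A n) ≤ (n : ℝ) ^ (3 / 2 : ℝ) * (Real.log n) ^ 4 := by
  classical
  obtain ⟨K, hK⟩ := Z_lowerA hA hP
  have hC1 := upper_tailA hA hP (K + 6)
  have hC2 := lower_tailA hA hP (K + 6)
  have hη : ∀ᶠ n : ℕ in atTop, 2 * Real.exp (2 * u) / (n : ℝ) ^ 5 ≤ 1 / 2 ∧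
      4 * (n : ℝ) ^ 2 * (2 * Real.exp (2 * u) / (n : ℝ) ^ 5) ≤ 1 := by
    have hlim : ∀ᶠ n : ℕ in atTop, 8 * Real.exp (2 * u) + 1 ≤ (n : ℝ) :=
      (tendsto_natCast_atTop_atTop).eventually_ge_atTop _
    filter_upwards [hlim] with n hn
    have he : 0 < Real.exp (2 * u) := Real.exp_pos _
    have hn1 : (1 : ℝ) ≤ n := by linarith
    have hn3 : (n : ℝ) ≤ (n : ℝ) ^ 3 := by
      calc (n : ℝ) = (n : ℝ) ^ 1 := (pow_one _).symm
        _ ≤ (n : ℝ) ^ 3 := pow_le_pow_right₀ hn1 (by norm_num)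
    have hn5 : (n : ℝ) ≤ (n : ℝ) ^ 5 := by
      calc (n : ℝ) = (n : ℝ) ^ 1 := (pow_one _).symm
        _ ≤ (n : ℝ) ^ 5 := pow_le_pow_right₀ hn1 (by norm_num)
    have hp : (0 : ℝ) < (n : ℝ) ^ 5 := by positivity
    constructor
    · rw [div_le_div_iff₀ hp (by norm_num)]
      linarith
    · have : 4 * (n : ℝ) ^ 2 * (2 * Real.exp (2 * u) / (n : ℝ) ^ 5) =
          8 * Real.exp (2 * u) / (n : ℝ) ^ 3 := by
        field_simp
        ring
      rw [this, div_le_one (by positivity)]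
      linarith
  have hlog : ∀ᶠ n : ℕ in atTop, 3 ≤ Real.log n :=
    (Real.tendsto_log_atTop.comp tendsto_natCast_atTop_atTop).eventually_ge_atTop _
  have hev := (((hK.and hC1).and hC2).and (hη.and hlog)).and (eventually_ge_atTop 2)
  rw [eventually_atTop] at hev
  obtain ⟨n₀, hn₀⟩ := hev
  refine ⟨n₀, fun n hn => ?_⟩
  obtain ⟨⟨⟨⟨hZ, hT1⟩, hT2⟩, ⟨⟨hη1, hη2⟩, hlog3⟩⟩, hn2⟩ := hn₀ n hn
  have : NeZero (2 * n) := ⟨by omega⟩
  have hnpos : (0 : ℝ) < n := by
    have : 0 < n := by omega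
    exact_mod_cast this
  set η : ℝ := 2 * Real.exp (2 * u) / (n : ℝ) ^ 5 with hηdef
  have hfin : (SA A n).Finite := finite_SA A hn2
  set F : Finset (ZMod (2 * n) → ℤ × ℤ) := hfin.toFinset with hF
  have hmemF : ∀ v, v ∈ F ↔ v ∈ SA A n := fun v => by rw [hF, Set.Finite.mem_toFinset]
  set e : (ZMod (2 * n) → ℤ × ℤ) → ℝ := fun _ => 1 with he
  have hepos : ∀ v, 0 < e v := fun v => one_pos
  have hmassF : ∀ (R : (ZMod (2 * n) → ℤ × ℤ) → Prop) [DecidablePred R],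
      mass (wv 0) {v | v ∈ SA A n ∧ R v} = ENNReal.ofReal (∑ v ∈ F.filter R, e v) := by
    intro R _
    rw [mass_eq_indicator, tsum_eq_sum (s := F.filter R), ENNReal.ofReal_sum_of_nonneg]
    · refine Finset.sum_congr rfl fun v hv => ?_
      rw [Finset.mem_filter, hmemF] at hv
      rw [Set.indicator_of_mem (show v ∈ {v | v ∈ SA A n ∧ R v} from hv)]
      simp only [wv, he, mul_zero, zero_mul, Real.exp_zero]
    · exact fun v _ => (hepos v).le
    · intro v hv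
      rw [Finset.mem_filter, hmemF] at hv
      exact Set.indicator_of_notMem (show v ∉ {v | v ∈ SA A n ∧ R v} from hv) _
  have hZ' : Real.exp (2 * u * n) / (n : ℝ) ^ K ≤ ∑ v ∈ F, e v := by
    have h3 := hmassF (fun _ => True)
    have h4 : {v : ZMod (2 * n) → ℤ × ℤ | v ∈ SA A n ∧ True} =
        {v | IsSAP (2 * n) v ∧ InA A n v} := by
      ext v; simp [SA]
    rw [h4, Finset.filter_true_of_mem (fun _ _ => trivial)] at h3
    have h6 : ENNReal.ofReal (Real.exp (2 * u * n) / (n : ℝ) ^ K) ≤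
        ENNReal.ofReal (∑ v ∈ F, e v) := by
      rw [← h3]; exact hZ
    exact (ENNReal.ofReal_le_ofReal_iff (Finset.sum_nonneg fun v _ => (hepos v).le)).1 h6
  have hWpos : 0 < ∑ v ∈ F, e v := lt_of_lt_of_le (by positivity) hZ'
  have hne : F.Nonempty := by
    by_contra h
    rw [Finset.not_nonempty_iff_eq_empty] at h
    rw [h] at hWpos
    simp at hWpos
  -- the bad sets
  have hbad : ∀ (R : (ZMod (2 * n) → ℤ × ℤ) → Prop) [DecidablePred R] (bad : Word × Word → Prop),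
      (∀ v, v ∈ SA A n → R v → ∀ i a b, IsArcs n v i a b → Dir.E :: a ∈ A → Dir.E :: b ∈ A →
        bad (Dir.E :: a, Dir.E :: b)) →
      mass (pwA A u 0) {p | p ∈ Pairs n ∧ bad p} ≤ ENNReal.ofReal (1 / (n : ℝ) ^ (K + 6)) →
      ∑ v ∈ F.filter R, e v ≤ η * ∑ v ∈ F, e v := by
    intro R _ bad hR hm
    have h3 := transferA (A := A) (u := u) (c := 0) hn2 {v | v ∈ SA A n ∧ R v} bad
      (fun v hv => hv.1.2) (fun v hv => hR v hv.1 hv.2)
    rw [hmassF] at h3
    have h4 := h3.trans (mul_le_mul_right hm _)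
    rw [show ((2 * n : ℕ) : ℝ≥0∞) = ENNReal.ofReal ((2 * n : ℕ) : ℝ) by
        rw [ENNReal.ofReal_natCast], ← ENNReal.ofReal_mul (by positivity),
      ← ENNReal.ofReal_mul (by positivity), ENNReal.ofReal_le_ofReal_iff (by positivity)] at h4
    refine h4.trans ?_
    calc ((2 * n : ℕ) : ℝ) * Real.exp (u * (2 * n + 2) - 2 * 0) * (1 / (n : ℝ) ^ (K + 6))
        ≤ ((2 * n : ℕ) : ℝ) * Real.exp (2 * u * n + 2 * u) * (1 / (n : ℝ) ^ (K + 6)) := by
          gcongr
          linarith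
      _ = η * (Real.exp (2 * u * n) / (n : ℝ) ^ K) := by
          rw [hηdef, Real.exp_add]
          push_cast
          field_simp
          ring
      _ ≤ _ := by gcongr
  have hnum : (∑ᶠ v ∈ SA A n, (area v : ℝ)) = ∑ v ∈ F, (area v : ℝ) * e v := by
    rw [finsum_mem_eq_finite_toFinset_sum _ hfin]
    simp [he, hF]
  have hden : ((SA A n).ncard : ℝ) = ∑ v ∈ F, e v := by
    rw [Set.ncard_eq_toFinset_card _ hfin]
    simp [he, hF]
  have hmean : meanA (SA A n) = (∑ v ∈ F, (area v : ℝ) * e v) / ∑ v ∈ F, e v := by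
    unfold meanA; rw [hnum, hden]
  set hh : ℝ := Real.sqrt n * (Real.log n) ^ (3 : ℝ) with hhdef
  have hhnn : 0 ≤ hh := by positivity
  set B : ℝ := (n : ℝ) ^ (3 / 2 : ℝ) / (Real.log n) ^ (5 : ℝ) with hBdef
  have hBnn : 0 ≤ B := by positivity
  let P : (ZMod (2 * n) → ℤ × ℤ) → Prop := fun v => ∀ i a b, IsArcs n v i a b →
    Dir.E :: a ∈ A → Dir.E :: b ∈ A → ∃ t, (t <+: Dir.E :: a ∨ t <+: Dir.E :: b) ∧ hh < |(Y t : ℝ)|
  let Q : (ZMod (2 * n) → ℤ × ℤ) → Prop := fun v => (area v : ℝ) ≤ B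
  have key := average_bounds F e (fun v => (area v : ℝ)) (fun v _ => hepos v)
    (fun v _ => by positivity) P Q hne (η := η) (U := 2 * n * hh) (M := 4 * (n : ℝ) ^ 2) (A := B)
    (by positivity) (by positivity) hBnn
    (hbad P (fun p => ∃ t, (t <+: p.1 ∨ t <+: p.2) ∧ hh < |(Y t : ℝ)|)
      (fun v _ hPv i a b hab ha hb => hPv i a b hab ha hb) hT1)
    (hbad Q (fun p => (∀ r : ℕ, 1 ≤ r → ∀ ps, AllIrr ps → ps.flatten = p.2 →
        ((r * farP r (colH p.1) 0 0 ps : ℕ) : ℝ) ≤ B) ∧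
      (∀ r : ℕ, 1 ≤ r → ∀ ps, AllIrr ps → ps.flatten = p.1 →
        ((r * farP r (colH p.2) 0 0 ps : ℕ) : ℝ) ≤ B))
      (fun v _ hQv i a b hab _ _ => by
        refine ⟨fun r hr ps hps hfl => ?_, fun r hr ps hps hfl => ?_⟩
        · have := le_area_b hn2 hab hr hps hfl
          exact le_trans (by exact_mod_cast this) hQv
        · have := le_area_a hn2 hab hr hps hfl
          exact le_trans (by exact_mod_cast this) hQv) hT2)
    (by
      intro v hv hPv
      have hPv' : ∃ i a b, IsArcs n v i a b ∧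
          ∀ t, (t <+: Dir.E :: a ∨ t <+: Dir.E :: b) → |(Y t : ℝ)| ≤ hh := by
        by_contra hcon
        apply hPv
        intro i a b hab _ _
        by_contra hno
        apply hcon
        refine ⟨i, a, b, hab, fun t ht => ?_⟩
        by_contra hlt
        exact hno ⟨t, ht, not_le.1 hlt⟩
      obtain ⟨i, a, b, hab, hall⟩ := hPv'
      have hH : ∀ t, (t <+: Dir.E :: a ∨ t <+: Dir.E :: b) → |Y t| ≤ (⌊hh⌋₊ : ℤ) := by
        intro t ht
        have h3 := hall t ht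
        have h4 : ((|Y t|).toNat : ℝ) ≤ hh := by
          have : (((|Y t|).toNat : ℤ) : ℝ) = |(Y t : ℝ)| := by
            rw [Int.toNat_of_nonneg (abs_nonneg _)]; push_cast; rfl
          rw [← this] at h3
          exact_mod_cast h3
        have h5 := Nat.le_floor h4
        have h6 : ((|Y t|).toNat : ℤ) = |Y t| := Int.toNat_of_nonneg (abs_nonneg _)
        rw [← h6]
        exact_mod_cast h5
      have h7 := area_le hn2 hab (H := ⌊hh⌋₊)
        (fun t ht => by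
          have := hH (Dir.E :: t) (Or.inl (List.cons_prefix_cons.2 ⟨rfl, ht⟩))
          simpa [Dir.dy] using this)
        (fun t ht => by
          have := hH (Dir.E :: t) (Or.inr (List.cons_prefix_cons.2 ⟨rfl, ht⟩))
          simpa [Dir.dy] using this)
      have h8 : ((area v : ℤ) : ℝ) ≤ (width v : ℝ) * (2 * (⌊hh⌋₊ : ℝ)) := by exact_mod_cast h7
      have h9 : (width v : ℝ) ≤ n := by exact_mod_cast hab.width_le
      have h10 : (0 : ℝ) ≤ width v := by exact_mod_cast hab.width_nonneg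
      have h11 := Nat.floor_le hhnn
      have h12 : (0 : ℝ) ≤ (⌊hh⌋₊ : ℝ) := by positivity
      calc (area v : ℝ) = ((area v : ℤ) : ℝ) := by push_cast; rfl
        _ ≤ (width v : ℝ) * (2 * (⌊hh⌋₊ : ℝ)) := h8
        _ ≤ (n : ℝ) * (2 * hh) := by gcongr
        _ = 2 * n * hh := by ring)
    (by
      intro v hv
      obtain ⟨i, a, b, hab⟩ := exists_arcs hn2 ((hmemF v).1 hv).1
      have hl := hab.len
      have h7 := area_le hn2 hab (H := 2 * n)
        (fun t ht => by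
          have h3 := abs_Y_le t
          have h4 := ht.length_le
          push_cast
          omega)
        (fun t ht => by
          have h3 := abs_Y_le t
          have h4 := ht.length_le
          push_cast
          omega)
      have h8 : ((area v : ℤ) : ℝ) ≤ (width v : ℝ) * (2 * ((2 * n : ℕ) : ℝ)) := by exact_mod_cast h7
      have h9 : (width v : ℝ) ≤ n := by exact_mod_cast hab.width_le
      calc (area v : ℝ) = ((area v : ℤ) : ℝ) := by push_cast; rfl
        _ ≤ (width v : ℝ) * (2 * ((2 * n : ℕ) : ℝ)) := h8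
        _ ≤ (n : ℝ) * (2 * ((2 * n : ℕ) : ℝ)) := by gcongr
        _ = 4 * (n : ℝ) ^ 2 := by push_cast; ring)
    (by
      intro v hv hQv
      exact (not_le.1 hQv).le)
  rw [hmean]
  have hlpos : 0 < Real.log n := by linarith
  have hl1 : 1 ≤ Real.log n := by linarith
  have hn32 : (0 : ℝ) ≤ (n : ℝ) ^ (3 / 2 : ℝ) := by positivity
  have hn321 : (1 : ℝ) ≤ (n : ℝ) ^ (3 / 2 : ℝ) := by
    apply Real.one_le_rpow _ (by norm_num)
    have : 1 ≤ n := by omega
    exact_mod_cast this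
  constructor
  · refine le_trans ?_ key.1
    have h3 : B / 2 ≤ B * (1 - η) := by nlinarith
    refine le_trans ?_ h3
    have hL5 : (Real.log n) ^ (5 : ℝ) = (Real.log n) ^ 5 := by
      rw [show (5 : ℝ) = ((5 : ℕ) : ℝ) by norm_num, Real.rpow_natCast]
    rw [hBdef, div_div, hL5]
    apply div_le_div_of_nonneg_left hn32 (by positivity)
    calc (Real.log n) ^ 5 * 2 ≤ (Real.log n) ^ 5 * Real.log n := by gcongr; linarith
      _ = (Real.log n) ^ 6 := by ring
  · refine key.2.trans ?_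
    have hsq : (n : ℝ) * Real.sqrt n = (n : ℝ) ^ (3 / 2 : ℝ) := by
      rw [Real.sqrt_eq_rpow]
      nth_rewrite 1 [← Real.rpow_one (n : ℝ)]
      rw [← Real.rpow_add hnpos]
      norm_num
    have hL3 : (Real.log n) ^ (3 : ℝ) = (Real.log n) ^ 3 := by
      rw [show (3 : ℝ) = ((3 : ℕ) : ℝ) by norm_num, Real.rpow_natCast]
    have h3 : 2 * n * hh = 2 * ((n : ℝ) ^ (3 / 2 : ℝ) * (Real.log n) ^ 3) := by
      rw [hhdef, ← hsq, hL3]; ring
    rw [h3]
    have h5 : (1 : ℝ) ≤ (Real.log n) ^ 3 := one_le_pow₀ hl1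
    calc 2 * ((n : ℝ) ^ (3 / 2 : ℝ) * (Real.log n) ^ 3) + 4 * (n : ℝ) ^ 2 * η
        ≤ 2 * ((n : ℝ) ^ (3 / 2 : ℝ) * (Real.log n) ^ 3) +
          1 * ((n : ℝ) ^ (3 / 2 : ℝ) * (Real.log n) ^ 3) := by
          refine add_le_add le_rfl ?_
          refine hη2.trans ?_
          rw [one_mul]
          nlinarith
      _ = (n : ℝ) ^ (3 / 2 : ℝ) * ((Real.log n) ^ 3 * 3) := by ring
      _ ≤ (n : ℝ) ^ (3 / 2 : ℝ) * ((Real.log n) ^ 3 * Real.log n) := by gcongr
      _ = (n : ℝ) ^ (3 / 2 : ℝ) * (Real.log n) ^ 4 := by ring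

/-- counting polygons with the trivial weight -/
lemma mass_wv_zero {m : ℕ} {S : Set (ZMod m → ℤ × ℤ)} (hS : S.Finite) :
    mass (wv 0) S = ENNReal.ofReal (S.ncard : ℝ) := by
  rw [ENNReal.ofReal_natCast, Set.ncard_eq_toFinset_card _ hS, mass_eq_indicator,
    tsum_eq_sum (s := hS.toFinset)]
  · rw [Finset.sum_congr rfl (g := fun _ => (1 : ℝ≥0∞))]
    · simp
    · intro v hv
      rw [Set.Finite.mem_toFinset] at hv
      rw [Set.indicator_of_mem hv]
      simp [wv]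
  · intro v hv
    rw [Set.Finite.mem_toFinset] at hv
    exact Set.indicator_of_notMem hv _

lemma ncard_SAP_le {U : ℝ} (hU : chi U ≠ ∞) : ∃ C : ℝ, 0 < C ∧ ∀ n : ℕ, 2 ≤ n →
    ({v : ZMod (2 * n) → ℤ × ℤ | IsSAP (2 * n) v}.ncard : ℝ) ≤
      C * n * Real.exp (2 * U * n) := by
  refine ⟨2 * Real.exp (2 * U) * ((chi U).toReal + 1) ^ 2, by positivity, fun n hn => ?_⟩
  have hfin := finite_SAP hn
  have h1 := transfer (u := U) (c := 0) hn {v | IsSAP (2 * n) v} (fun _ => True)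
    (fun v hv => hv) (fun v hv i a b h => trivial)
  rw [mass_wv_zero hfin] at h1
  have h2 : mass (pw U 0) {p | p ∈ Pairs n ∧ True} ≤ (chi U) ^ 2 := by
    calc mass (pw U 0) {p | p ∈ Pairs n ∧ True}
        ≤ mass (fun p : Word × Word => ex U 0 0 p.1 * ex U 0 0 p.2)
          ({w | SAW w} ×ˢ {w | SAW w}) := by
          refine mass_mono ?_
          rintro ⟨p, q⟩ ⟨⟨hp, hq, -⟩, -⟩
          exact ⟨hp.saw, hq.saw⟩
      _ = (chi U) ^ 2 := by rw [mass_prod, sq]; rfl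
  have h3 : (chi U) ^ 2 ≤ ENNReal.ofReal (((chi U).toReal + 1) ^ 2) := by
    rw [ENNReal.ofReal_pow (by positivity)]
    gcongr
    rw [← ENNReal.ofReal_toReal hU]
    apply ENNReal.ofReal_le_ofReal
    rw [ENNReal.toReal_ofReal ENNReal.toReal_nonneg]
    linarith
  have h4 := h1.trans (mul_le_mul_right (h2.trans h3) _)
  rw [show ((2 * n : ℕ) : ℝ≥0∞) = ENNReal.ofReal ((2 * n : ℕ) : ℝ) by
      rw [ENNReal.ofReal_natCast], ← ENNReal.ofReal_mul (by positivity),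
    ← ENNReal.ofReal_mul (by positivity), ENNReal.ofReal_le_ofReal_iff (by positivity)] at h4
  refine h4.trans (le_of_eq ?_)
  rw [show U * (2 * n + 2) - 2 * 0 = 2 * U * n + 2 * U by ring, Real.exp_add]
  push_cast
  ring

lemma ncard_SA_ge {A : Set Word} (hA : IsClass A) {u : ℝ} (hP : ParamsA A u 0) : ∃ K : ℕ,
    ∀ᶠ n : ℕ in atTop, Real.exp (2 * u * n) / (n : ℝ) ^ K ≤ ((SA A n).ncard : ℝ) := by
  obtain ⟨K, hK⟩ := Z_lowerA hA hP
  refine ⟨K, ?_⟩
  filter_upwards [hK, eventually_ge_atTop 2] with n h1 h2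
  have h3 := mass_wv_zero (finite_SA A h2)
  have h4 : mass (wv 0) (SA A n) = mass (fun v : ZMod (2 * n) → ℤ × ℤ =>
      ENNReal.ofReal (Real.exp (2 * 0 * width v))) {v | IsSAP (2 * n) v ∧ InA A n v} := rfl
  rw [← h4, h3, ENNReal.ofReal_le_ofReal_iff (by positivity)] at h1
  exact h1

lemma SA_Ak {n : ℕ} (hn : 2 ≤ n) (k : ℕ) :
    SA (Ak k) n = {v | IsSAP (2 * n) v ∧ InK k v} := by
  ext v
  constructor
  · rintro ⟨h1, h2⟩
    exact ⟨h1, (inK_iff hn k h1).2 h2⟩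
  · rintro ⟨h1, h2⟩
    exact ⟨h1, (inK_iff hn k h1).1 h2⟩

/-- polygons of bounded backtracking: mean area -/
theorem mainK (k : ℕ) : ∃ n₀ : ℕ, ∀ n ≥ n₀,
    (n : ℝ) ^ (3 / 2 : ℝ) / (Real.log n) ^ 6 ≤
        meanA {v : ZMod (2 * n) → ℤ × ℤ | IsSAP (2 * n) v ∧ InK k v} ∧
      meanA {v : ZMod (2 * n) → ℤ × ℤ | IsSAP (2 * n) v ∧ InK k v} ≤
        (n : ℝ) ^ (3 / 2 : ℝ) * (Real.log n) ^ 4 := by
  obtain ⟨u, u', hu', hu, hR, hfin, h1, h2⟩ := exists_uk k
  have hP := params_ofA (isClass_Ak k) le_rfl hu' hu hfin h1 h2 (mass_gapK le_rfl hR h1)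
  obtain ⟨n₀, h⟩ := mainA (isClass_Ak k) hP
  refine ⟨max n₀ 2, fun n hn => ?_⟩
  have h3 := h n (le_trans (le_max_left _ _) hn)
  rw [SA_Ak (le_trans (le_max_right _ _) hn)] at h3
  exact h3

/-- polygons of bounded backtracking: growth -/
theorem growthK (ε : ℝ) (hε : 0 < ε) : ∃ k₀ : ℕ, ∀ k ≥ k₀, ∃ n₀ : ℕ, ∀ n ≥ n₀,
    Real.exp (-ε * n) * ({v : ZMod (2 * n) → ℤ × ℤ | IsSAP (2 * n) v}.ncard : ℝ) ≤
      ({v : ZMod (2 * n) → ℤ × ℤ | IsSAP (2 * n) v ∧ InK k v}.ncard : ℝ) := by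
  obtain ⟨k₀, hk₀⟩ := growth_k (ε / 4) (by positivity)
  refine ⟨k₀, fun k hk => ?_⟩
  obtain ⟨u, u', hu', hu, hR, hfin, h1, h2⟩ := exists_uk k
  have hP := params_ofA (isClass_Ak k) le_rfl hu' hu hfin h1 h2 (mass_gapK le_rfl hR h1)
  obtain ⟨K, hK⟩ := ncard_SA_ge (isClass_Ak k) hP
  obtain ⟨C, hC, hup⟩ := ncard_SAP_le (hk₀ k hk u h1)
  have hlim : Tendsto (fun n : ℕ => C * ((n : ℝ) ^ (K + 1) * Real.exp (-(ε / 2) * n))) atTop
      (nhds (C * 0)) := by
    apply Tendsto.const_mul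
    have h5 := Real.tendsto_pow_mul_exp_neg_atTop_nhds_zero (K + 1)
    have h6 : Tendsto (fun n : ℕ => (ε / 2) * (n : ℝ)) atTop atTop :=
      Tendsto.const_mul_atTop (by positivity) tendsto_natCast_atTop_atTop
    have h7 := (h5.comp h6).const_mul (1 / (ε / 2) ^ (K + 1))
    rw [mul_zero] at h7
    refine h7.congr fun n => ?_
    simp only [Function.comp]
    rw [mul_pow]
    have : (ε / 2) ^ (K + 1) ≠ 0 := by positivity
    field_simp
  rw [mul_zero] at hlim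
  have hev := ((hlim.eventually_le_const (show (0 : ℝ) < 1 by norm_num)).and hK).and
    (eventually_ge_atTop 2)
  rw [eventually_atTop] at hev
  obtain ⟨n₀, hn₀⟩ := hev
  refine ⟨n₀, fun n hn => ?_⟩
  obtain ⟨⟨h8, h9⟩, h10⟩ := hn₀ n hn
  rw [SA_Ak h10] at h9
  refine le_trans ?_ h9
  have h11 := hup n h10
  have hnpos : (0 : ℝ) < n := by
    have : 0 < n := by omega
    exact_mod_cast this
  rw [le_div_iff₀ (by positivity)]
  calc Real.exp (-ε * n) * ({v : ZMod (2 * n) → ℤ × ℤ | IsSAP (2 * n) v}.ncard : ℝ) *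
        (n : ℝ) ^ K
      ≤ Real.exp (-ε * n) * (C * n * Real.exp (2 * (u + ε / 4) * n)) * (n : ℝ) ^ K := by
        gcongr
    _ = (C * ((n : ℝ) ^ (K + 1) * Real.exp (-(ε / 2) * n))) * Real.exp (2 * u * n) := by
        have h12 : Real.exp (-ε * n) * Real.exp (2 * (u + ε / 4) * n) =
            Real.exp (-(ε / 2) * n) * Real.exp (2 * u * n) := by
          rw [← Real.exp_add, ← Real.exp_add]
          congr 1
          ring
        calc Real.exp (-ε * n) * (C * n * Real.exp (2 * (u + ε / 4) * n)) * (n : ℝ) ^ K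
            = C * (n * (n : ℝ) ^ K) *
              (Real.exp (-ε * n) * Real.exp (2 * (u + ε / 4) * n)) := by ring
          _ = C * (n * (n : ℝ) ^ K) * (Real.exp (-(ε / 2) * n) * Real.exp (2 * u * n)) := by
              rw [h12]
          _ = _ := by ring
    _ ≤ 1 * Real.exp (2 * u * n) := by gcongr
    _ = Real.exp (2 * u * n) := one_mul _

end Pool.Agent.SAPK
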