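import Pool.Agent.SAPK.DefsK

/-!
Renewal theory for the bridges of a class: the irreducible bridges have total mass one, bounds for
the bridges of given length.
-/

namespace Pool.Agent.SAPK

open scoped ENNReal
open Filter Pool.Agent.SAPF

theorem mass_listsA {A : Set Word} (hA : IsClass A) {u c θ : ℝ} {S : Set Word} (hS : S ⊆ Irr)
    (k : ℕ) : mass (fun ps : List Word => exA A u c θ ps.flatten)
      {ps | ps.length = k ∧ ∀ p ∈ ps, p ∈ S} = (mass (exA A u c θ) S) ^ k := by
  induction k with
  | zero =>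
    have : {ps : List Word | ps.length = 0 ∧ ∀ p ∈ ps, p ∈ S} = {[]} := by
      ext ps
      simp only [Set.mem_ofPred_eq, Set.mem_singleton_iff, List.length_eq_zero_iff]
      constructor
      · exact fun h => h.1
      · rintro rfl
        exact ⟨rfl, fun p hp => by simp at hp⟩
    rw [this, mass_singleton, pow_zero]
    simpa using exA_nil hA
  | succ k ih =>
    have hset : {ps : List Word | ps.length = k + 1 ∧ ∀ p ∈ ps, p ∈ S} =
        (fun x : Word × List Word => x.1 :: x.2) ''
          (S ×ˢ {ps : List Word | ps.length = k ∧ ∀ p ∈ ps, p ∈ S}) := by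
      ext ps
      simp only [Set.mem_ofPred_eq, Set.mem_image, Set.mem_prod, Prod.exists]
      constructor
      · rintro ⟨h1, h2⟩
        cases ps with
        | nil => simp at h1
        | cons p ps =>
          refine ⟨p, ps, ⟨h2 p (by simp), ?_, fun q hq => h2 q (by simp [hq])⟩, rfl⟩
          simpa using h1
      · rintro ⟨p, qs, ⟨h1, h2, h3⟩, rfl⟩
        refine ⟨by simp [h2], ?_⟩
        intro q hq
        rcases List.mem_cons.1 hq with rfl | hq
        · exact h1
        · exact h3 q hq
    have hinj : Set.InjOn (fun x : Word × List Word => x.1 :: x.2)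
        (S ×ˢ {ps : List Word | ps.length = k ∧ ∀ p ∈ ps, p ∈ S}) := by
      rintro ⟨a, b⟩ _ ⟨a', b'⟩ _ h
      simp only [List.cons.injEq] at h
      exact Prod.ext h.1 h.2
    rw [hset, mass_image _ hinj, pow_succ, mul_comm, ← ih, ← mass_prod]
    refine mass_congr ?_
    rintro ⟨a, b⟩ ⟨ha, hb1, hb2⟩
    simp only [List.flatten_cons]
    exact exA_append hA (hS ha).br (isBr_flatten fun q hq => hS (hb2 q hq))

section renewal
variable {φ : Word → ℝ≥0∞} {sz : Word → ℕ}

/-- product structure -/
lemma mass_brZ_eqA (hφ : ∀ v w, IsBr v → IsBr w → φ (v ++ w) = φ v * φ w) (hs : IsSize sz)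
    {n : ℕ} (hn : 1 ≤ n) :
    mass φ (BrZ sz n) =
      mass (fun x : Word × Word => φ x.1 * φ x.2) {x | IsIrr x.1 ∧ IsBr x.2 ∧ sz x.1 + sz x.2 = n} := by
  have hset : BrZ sz n = (fun x : Word × Word => x.1 ++ x.2) ''
      {x | IsIrr x.1 ∧ IsBr x.2 ∧ sz x.1 + sz x.2 = n} := by
    ext w
    simp only [BrZ, Set.mem_ofPred_eq, Set.mem_image, Prod.exists]
    constructor
    · rintro ⟨h1, h2⟩
      have h0 : w ≠ [] := by
        rintro rfl
        rw [hs.nil] at h2
        omega
      obtain ⟨p, v, rfl, hp, hv⟩ := exists_first_irr h1 h0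
      exact ⟨p, v, ⟨hp, hv, by rw [← hs.add hp.br hv]; exact h2⟩, rfl⟩
    · rintro ⟨p, v, ⟨hp, hv, h⟩, rfl⟩
      exact ⟨hp.br.append hv, by rw [hs.add hp.br hv]; exact h⟩
  have hinj : Set.InjOn (fun x : Word × Word => x.1 ++ x.2)
      {x | IsIrr x.1 ∧ IsBr x.2 ∧ sz x.1 + sz x.2 = n} := by
    rintro ⟨a, b⟩ ⟨ha, hb, -⟩ ⟨a', b'⟩ ⟨ha', hb', -⟩ h
    have := irr_append_inj ha ha' hb hb' h
    exact Prod.ext this.1 this.2
  rw [hset, mass_image _ hinj]
  exact mass_congr fun x hx => hφ x.1 x.2 hx.1.br hx.2.1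

/-- the renewal equation -/
lemma renewalA (hφ : ∀ v w, IsBr v → IsBr w → φ (v ++ w) = φ v * φ w) (hs : IsSize sz) {n : ℕ}
    (hn : 1 ≤ n) :
    mass φ (BrZ sz n) =
      ∑ k ∈ Finset.range (n + 1), mass φ (IrrZ sz k) * mass φ (BrZ sz (n - k)) := by
  rw [mass_brZ_eqA hφ hs hn]
  have h1 : ∀ k, mass φ (IrrZ sz k) * mass φ (BrZ sz (n - k)) =
      mass (fun x : Word × Word => φ x.1 * φ x.2) (IrrZ sz k ×ˢ BrZ sz (n - k)) :=
    fun k => (mass_prod _ _ _ _).symm
  rw [Finset.sum_congr rfl fun k _ => h1 k]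
  simp only [mass_eq_indicator]
  rw [← Summable.tsum_finsetSum (fun _ _ => ENNReal.summable)]
  refine tsum_congr fun x => ?_
  by_cases hx : IsIrr x.1 ∧ IsBr x.2 ∧ sz x.1 + sz x.2 = n
  · rw [Set.indicator_of_mem (show x ∈ {x : Word × Word | IsIrr x.1 ∧ IsBr x.2 ∧
      sz x.1 + sz x.2 = n} from hx)]
    rw [Finset.sum_eq_single (sz x.1)]
    · rw [Set.indicator_of_mem]
      exact ⟨⟨hx.1, rfl⟩, ⟨hx.2.1, by omega⟩⟩
    · intro k _ hk
      rw [Set.indicator_of_notMem]
      exact fun hh => hk hh.1.2.symm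
    · intro h
      exact absurd (Finset.mem_range.2 (by omega)) h
  · rw [Set.indicator_of_notMem (show x ∉ {x : Word × Word | IsIrr x.1 ∧ IsBr x.2 ∧
      sz x.1 + sz x.2 = n} from hx)]
    symm
    refine Finset.sum_eq_zero fun k hk => ?_
    rw [Set.indicator_of_notMem]
    intro hh
    have hk' := Finset.mem_range.1 hk
    refine hx ⟨hh.1.1, hh.2.1, ?_⟩
    have e1 := hh.1.2
    have e2 := hh.2.2
    omega

/-- if the irreducible bridges have mass at most one, so have the bridges of each size -/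
lemma mass_brZ_le_oneA (hφ : ∀ v w, IsBr v → IsBr w → φ (v ++ w) = φ v * φ w) (h1 : φ [] = 1)
    (hs : IsSize sz) (hle : mass φ Irr ≤ 1) (n : ℕ) : mass φ (BrZ sz n) ≤ 1 := by
  induction n using Nat.strong_induction_on with
  | _ n ih =>
    rcases Nat.eq_zero_or_pos n with rfl | hn
    · exact (mass_brZ_zero hs h1).le
    · rw [renewalA hφ hs hn]
      calc ∑ k ∈ Finset.range (n + 1), mass φ (IrrZ sz k) * mass φ (BrZ sz (n - k))
          ≤ ∑ k ∈ Finset.range (n + 1), mass φ (IrrZ sz k) := by
            refine Finset.sum_le_sum fun k _ => ?_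
            rcases Nat.eq_zero_or_pos k with rfl | hk
            · rw [mass_irrZ_zero hs]; simp
            · calc mass φ (IrrZ sz k) * mass φ (BrZ sz (n - k)) ≤ mass φ (IrrZ sz k) * 1 := by
                    gcongr
                    exact ih (n - k) (by omega)
                _ = mass φ (IrrZ sz k) := mul_one _
        _ ≤ ∑' k, mass φ (IrrZ sz k) := ENNReal.sum_le_tsum _
        _ = mass φ Irr := tsum_irrZ φ sz
        _ ≤ 1 := hle

/-- all bridges: the empty one, and the products -/
lemma mass_br_geA (hφ : ∀ v w, IsBr v → IsBr w → φ (v ++ w) = φ v * φ w) :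
    mass φ Irr * mass φ Br ≤ mass φ Br := by
  rw [← mass_prod]
  refine mass_le_of_injOn (fun x : Word × Word => x.1 ++ x.2) ?_ ?_ ?_
  · rintro ⟨a, b⟩ ⟨ha, hb⟩ ⟨a', b'⟩ ⟨ha', hb'⟩ h
    have := irr_append_inj ha ha' hb hb' h
    exact Prod.ext this.1 this.2
  · rintro ⟨a, b⟩ ⟨ha, hb⟩
    exact IsBr.append (IsIrr.br ha) hb
  · rintro ⟨a, b⟩ ⟨ha, hb⟩
    exact (hφ a b (IsIrr.br ha) hb).ge

end renewal

section cls
variable {A : Set Word}

lemma exA_mono_X {u c c' : ℝ} (h : c ≤ c') {w : Word} (hw : 0 ≤ X w) :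
    exA A u c 0 w ≤ exA A u c' 0 w := by
  by_cases hwA : w ∈ A
  · rw [exA_of_mem hwA, exA_of_mem hwA]
    exact ex_mono_X h hw
  · rw [exA_of_notMem hwA, exA_of_notMem hwA]

/-- subcritical in the span variable -/
lemma mass_irr_le_of_ltA (hA : IsClass A) {u c d : ℝ} (hd : 0 < d)
    (h1 : ∀ s : ℕ, mass (exA A u c 0) (BrS s) ≤ 1) : mass (exA A u (c - d) 0) Irr ≤ 1 := by
  have hB : mass (exA A u (c - d) 0) Br ≤ ∑' s : ℕ, ENNReal.ofReal (Real.exp (-d)) ^ s := by
    rw [← tsum_brZ _ (fun w => (X w).toNat)]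
    refine ENNReal.tsum_le_tsum fun s => ?_
    rw [← BrS_eq]
    have : ∀ w ∈ BrS (s : ℤ), exA A u (c - d) 0 w =
        ENNReal.ofReal (Real.exp (-d)) ^ s * exA A u c 0 w := by
      intro w hw
      by_cases hwA : w ∈ A
      · rw [exA_of_mem hwA, exA_of_mem hwA]
        unfold ex
        rw [← ENNReal.ofReal_pow (Real.exp_pos _).le, ← ENNReal.ofReal_mul (by positivity),
          ← Real.exp_nat_mul, ← Real.exp_add]
        congr 2
        have h2 : ((X w : ℤ) : ℝ) = s := by rw [hw.2]; simp
        rw [h2]; ring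
      · rw [exA_of_notMem hwA, exA_of_notMem hwA, mul_zero]
    rw [mass_congr this, mass_const_mul]
    calc ENNReal.ofReal (Real.exp (-d)) ^ s * mass (exA A u c 0) (BrS s)
        ≤ ENNReal.ofReal (Real.exp (-d)) ^ s * 1 := by gcongr; exact h1 s
      _ = _ := mul_one _
  have hlt : ENNReal.ofReal (Real.exp (-d)) < 1 := by
    rw [← ENNReal.ofReal_one]
    exact (ENNReal.ofReal_lt_ofReal_iff one_pos).2 (by
      rw [← Real.exp_zero]; exact Real.exp_lt_exp.2 (by linarith))
  have hfin : mass (exA A u (c - d) 0) Br ≠ ∞ := by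
    refine ne_top_of_le_ne_top ?_ hB
    rw [ENNReal.tsum_geometric]
    exact ENNReal.inv_ne_top.2 (tsub_pos_of_lt hlt).ne'
  have hpos : mass (exA A u (c - d) 0) Br ≠ 0 := by
    have : exA A u (c - d) 0 [] ≤ mass (exA A u (c - d) 0) Br :=
      le_mass (show [] ∈ Br from isBr_nil)
    rw [exA_nil hA] at this
    exact (lt_of_lt_of_le one_pos this).ne'
  have h3 := mass_br_geA (φ := exA A u (c - d) 0) (fun v w hv hw => exA_append hA hv hw)
  by_contra hcon
  rw [not_le] at hcon
  have h4 : 1 * mass (exA A u (c - d) 0) Br <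
      mass (exA A u (c - d) 0) Irr * mass (exA A u (c - d) 0) Br :=
    ENNReal.mul_lt_mul_left hpos hfin hcon
  rw [one_mul] at h4
  exact absurd h3 (not_le.2 h4)

/-- convexity of the exponential weights -/
lemma exA_convex (u c c' t : ℝ) (ht : 0 ≤ t) (ht1 : t ≤ 1) (w : Word) :
    exA A u ((1 - t) * c + t * c') 0 w ≤
      ENNReal.ofReal (1 - t) * exA A u c 0 w + ENNReal.ofReal t * exA A u c' 0 w := by
  by_cases hwA : w ∈ A
  · rw [exA_of_mem hwA, exA_of_mem hwA, exA_of_mem hwA]
    exact ex_convex u c c' t ht ht1 w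
  · rw [exA_of_notMem hwA]
    exact zero_le

theorem mass_irr_eq_oneA (hA : IsClass A) {u c : ℝ}
    (h1 : ∀ s : ℕ, mass (exA A u c 0) (BrS s) ≤ 1)
    (h2 : ∀ c' > c, ∃ s : ℕ, 1 < mass (exA A u c' 0) (BrS s))
    (h3 : ∃ ε > 0, mass (exA A u (c + ε) 0) Irr ≠ ∞) : mass (exA A u c 0) Irr = 1 := by
  apply le_antisymm
  · -- finite sums are limits
    refine mass_le_of_finset fun F hF => ?_
    have hcont : Tendsto (fun d : ℝ => ∑ w ∈ F, exA A u (c - d) 0 w) (nhdsWithin 0 (Set.Ioi 0))
        (nhds (∑ w ∈ F, exA A u c 0 w)) := by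
      apply Tendsto.mono_left _ nhdsWithin_le_nhds
      refine tendsto_finsetSum _ fun w _ => ?_
      by_cases hwA : w ∈ A
      · have e1 : (fun d : ℝ => exA A u (c - d) 0 w) = fun d : ℝ => ex u (c - d) 0 w :=
          funext fun d => exA_of_mem hwA
        rw [e1, exA_of_mem hwA]
        have : Continuous fun d : ℝ => ex u (c - d) 0 w := by
          unfold ex
          exact ENNReal.continuous_ofReal.comp (Real.continuous_exp.comp (by fun_prop))
        have h := this.tendsto 0
        simpa using h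
      · have e1 : (fun d : ℝ => exA A u (c - d) 0 w) = fun _ : ℝ => 0 :=
          funext fun d => exA_of_notMem hwA
        rw [e1, exA_of_notMem hwA]
        exact tendsto_const_nhds
    refine le_of_tendsto hcont ?_
    filter_upwards [self_mem_nhdsWithin] with d hd
    exact (sum_le_mass hF).trans (mass_irr_le_of_ltA hA hd h1)
  · by_contra hcon
    rw [not_le] at hcon
    obtain ⟨ε, hε, hfin⟩ := h3
    -- a convex combination with mass at most one
    set G := mass (exA A u c 0) Irr with hG
    set H := mass (exA A u (c + ε) 0) Irr with hH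
    have hGfin : G ≠ ∞ := (hcon.trans ENNReal.one_lt_top).ne
    obtain ⟨t, ht0, ht1, ht⟩ : ∃ t : ℝ, 0 < t ∧ t ≤ 1 ∧
        ENNReal.ofReal (1 - t) * G + ENNReal.ofReal t * H ≤ 1 := by
      have hGr : G.toReal < 1 := by
        rw [← ENNReal.toReal_one]
        exact (ENNReal.toReal_lt_toReal hGfin ENNReal.one_ne_top).2 hcon
      have hH0 : 0 ≤ H.toReal := ENNReal.toReal_nonneg
      have hG0 : 0 ≤ G.toReal := ENNReal.toReal_nonneg
      refine ⟨(1 - G.toReal) / (1 + H.toReal), by apply div_pos <;> linarith, ?_, ?_⟩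
      · rw [div_le_one (by linarith)]; linarith
      · have ht1 : (1 - G.toReal) / (1 + H.toReal) ≤ 1 := by
          rw [div_le_one (by linarith)]; linarith
        have ht0 : 0 ≤ (1 - G.toReal) / (1 + H.toReal) := by
          apply div_nonneg <;> linarith
        set t := (1 - G.toReal) / (1 + H.toReal) with htdef
        rw [← ENNReal.ofReal_toReal hGfin, ← ENNReal.ofReal_toReal hfin,
          ← ENNReal.ofReal_mul (by linarith), ← ENNReal.ofReal_mul ht0,
          ← ENNReal.ofReal_add (by apply mul_nonneg <;> linarith) (by positivity),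
          ← ENNReal.ofReal_one]
        apply ENNReal.ofReal_le_ofReal
        have h5 : t * (1 + H.toReal) = 1 - G.toReal := by
          rw [htdef]; field_simp
        nlinarith
    have hle : mass (exA A u ((1 - t) * c + t * (c + ε)) 0) Irr ≤ 1 := by
      refine le_trans ?_ ht
      rw [hG, hH, ← mass_const_mul, ← mass_const_mul, ← mass_add]
      exact mass_mono_fun fun w _ => exA_convex u c (c + ε) t ht0.le ht1 w
    obtain ⟨s, hs⟩ := h2 ((1 - t) * c + t * (c + ε)) (by nlinarith)
    rw [BrS_eq] at hs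
    exact absurd (mass_brZ_le_oneA (fun v w hv hw => exA_append hA hv hw) (exA_nil hA)
      isSize_span hle s) (not_le.2 hs)

lemma mass_irr_tailA {u u' c : ℝ} (hc : 0 ≤ c) (hu : u' < u)
    (hfin' : ∃ c'' : ℝ, mass (exA A u' (-c'') 0) Br ≠ ∞)
    (h3 : ∃ ε > 0, mass (exA A u (c + ε) 0) Irr ≠ ∞) :
    ∃ δ > 0, mass (exA A (u - δ) c 0) Irr ≠ ∞ := by
  obtain ⟨ε, hε, hfin⟩ := h3
  obtain ⟨c₀, hc₀⟩ := hfin'
  obtain ⟨c'', hc''0, hc''⟩ : ∃ c'' : ℝ, 0 ≤ c'' ∧ mass (exA A u' (-c'') 0) Br ≠ ∞ := by
    refine ⟨max c₀ 0, le_max_right _ _, ne_top_of_le_ne_top hc₀ ?_⟩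
    refine mass_mono_fun fun w hw => exA_mono_X (by linarith [le_max_left c₀ 0]) ?_
    exact IsBr.X_nonneg hw
  have hcε : 0 < c + ε + c'' := by linarith
  have ht : 0 < ε / (c + ε + c'') := by positivity
  have ht1 : ε / (c + ε + c'') ≤ 1 := by rw [div_le_one hcε]; linarith
  refine ⟨ε / (c + ε + c'') * (u - u'), mul_pos ht (by linarith), ?_⟩
  have hle : mass (exA A (u - ε / (c + ε + c'') * (u - u')) c 0) Irr ≤
      mass (exA A u (c + ε) 0) Irr + mass (exA A u' (-c'') 0) Irr := by
    rw [← mass_add]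
    refine mass_mono_fun fun w _ => ?_
    by_cases hwA : w ∈ A
    · rw [exA_of_mem hwA, exA_of_mem hwA, exA_of_mem hwA]
      unfold ex
      rw [← ENNReal.ofReal_add (Real.exp_pos _).le (Real.exp_pos _).le]
      apply ENNReal.ofReal_le_ofReal
      set t := ε / (c + ε + c'') with htdef
      have hct : (1 - t) * (c + ε) - t * c'' = c := by
        rw [htdef]; field_simp; ring
      set P : ℝ := -u * w.length + (c + ε) * X w + 0 * Y w with hP
      set Q : ℝ := -u' * w.length + (-c'') * X w + 0 * Y w with hQ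
      have hexp : -(u - t * (u - u')) * w.length + c * X w + 0 * Y w = (1 - t) * P + t * Q := by
        rw [hP, hQ]
        nth_rewrite 1 [← hct]
        ring
      rw [hexp]
      rcases le_total P Q with h | h
      · have : (1 - t) * P + t * Q ≤ Q := by nlinarith
        have h1 := Real.exp_le_exp.2 this
        have h2 := Real.exp_pos P
        linarith
      · have : (1 - t) * P + t * Q ≤ P := by nlinarith
        have h1 := Real.exp_le_exp.2 this
        have h2 := Real.exp_pos Q
        linarith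
    · rw [exA_of_notMem hwA]
      exact zero_le
  refine ne_top_of_le_ne_top (ENNReal.add_ne_top.2 ⟨hfin, ?_⟩) hle
  refine ne_top_of_le_ne_top hc'' ?_
  exact mass_mono fun w hw => IsIrr.br hw

/-! ### bridges of given length -/

variable {u c : ℝ}

lemma brZ_succ_geA (hA : IsClass A) (u c : ℝ) (n : ℕ) :
    exA A u c 0 [Dir.E] * mass (exA A u c 0) (BrZ List.length n) ≤
      mass (exA A u c 0) (BrZ List.length (n + 1)) := by
  rw [← mass_const_mul]
  refine mass_le_of_injOn (fun w => [Dir.E] ++ w) ?_ ?_ ?_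
  · intro a _ b _ h
    exact List.append_cancel_left h
  · rintro w ⟨h1, h2⟩
    refine ⟨isBr_singleton_E.append h1, ?_⟩
    rw [List.length_append, h2]
    simp [Nat.add_comm]
  · intro w hw
    exact (exA_append hA isBr_singleton_E hw.1).ge

lemma brZ_add_geA (hA : IsClass A) (u c : ℝ) (n k : ℕ) :
    exA A u c 0 [Dir.E] ^ k * mass (exA A u c 0) (BrZ List.length n) ≤
      mass (exA A u c 0) (BrZ List.length (n + k)) := by
  induction k with
  | zero => simp
  | succ k ih =>
    calc exA A u c 0 [Dir.E] ^ (k + 1) * mass (exA A u c 0) (BrZ List.length n)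
        = exA A u c 0 [Dir.E] *
            (exA A u c 0 [Dir.E] ^ k * mass (exA A u c 0) (BrZ List.length n)) := by
          ring
      _ ≤ exA A u c 0 [Dir.E] * mass (exA A u c 0) (BrZ List.length (n + k)) := by gcongr
      _ ≤ _ := brZ_succ_geA hA u c (n + k)

/-- the tail of the law of the length of an irreducible bridge -/
noncomputable def tlA (A : Set Word) (u c : ℝ) (n : ℕ) : ℝ≥0∞ :=
  ∑' j, mass (exA A u c 0) (IrrZ List.length (j + (n + 1)))

lemma tlA_zero (hone : mass (exA A u c 0) Irr = 1) : tlA A u c 0 = 1 := by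
  have h := tsum_irrZ (exA A u c 0) List.length
  rw [hone, tsum_eq_zero_add' ENNReal.summable, mass_irrZ_zero isSize_length, zero_add] at h
  exact h

lemma tlA_succ (A : Set Word) (u c : ℝ) (n : ℕ) :
    tlA A u c n = mass (exA A u c 0) (IrrZ List.length (n + 1)) + tlA A u c (n + 1) := by
  unfold tlA
  rw [tsum_eq_zero_add' ENNReal.summable, zero_add]
  congr 1
  refine tsum_congr fun j => ?_
  congr 2
  ring

lemma tlA_le_one (hone : mass (exA A u c 0) Irr = 1) (n : ℕ) : tlA A u c n ≤ 1 := by
  induction n with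
  | zero => exact (tlA_zero hone).le
  | succ n ih =>
    refine le_trans ?_ ih
    rw [tlA_succ A u c n]
    exact le_add_self

lemma tlA_conv (hA : IsClass A) (hone : mass (exA A u c 0) Irr = 1) (n : ℕ) :
    ∑ k ∈ Finset.range (n + 1), tlA A u c k * mass (exA A u c 0) (BrZ List.length (n - k)) = 1 := by
  induction n with
  | zero =>
    simp [tlA_zero hone, mass_brZ_zero isSize_length (exA_nil (u := u) (c := c) (θ := 0) hA)]
  | succ n ih =>
    rw [Finset.sum_range_succ', tlA_zero hone, one_mul]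
    have hren := renewalA (φ := exA A u c 0) (fun v w hv hw => exA_append hA hv hw) isSize_length
      (n := n + 1) (by omega)
    rw [Finset.sum_range_succ', mass_irrZ_zero isSize_length, zero_mul, add_zero] at hren
    simp only [Nat.sub_zero]
    rw [hren, ← Finset.sum_add_distrib, ← ih]
    refine Finset.sum_congr rfl fun k hk => ?_
    have hk' := Finset.mem_range.1 hk
    have e1 : n + 1 - (k + 1) = n - k := by omega
    rw [e1, tlA_succ A u c k]
    ring

lemma mass_shiftA (A : Set Word) (u δ c : ℝ) (n : ℕ) :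
    mass (exA A u c 0) (IrrZ List.length n) =
      ENNReal.ofReal (Real.exp (-δ)) ^ n * mass (exA A (u - δ) c 0) (IrrZ List.length n) := by
  rw [← mass_const_mul]
  refine mass_congr fun w hw => ?_
  by_cases hwA : w ∈ A
  · rw [exA_of_mem hwA, exA_of_mem hwA]
    unfold ex
    rw [← ENNReal.ofReal_pow (Real.exp_pos _).le, ← ENNReal.ofReal_mul (by positivity),
      ← Real.exp_nat_mul, ← Real.exp_add]
    congr 2
    have h2 : ((w.length : ℕ) : ℝ) = n := by rw [hw.2]
    rw [h2]; ring
  · rw [exA_of_notMem hwA, exA_of_notMem hwA, mul_zero]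

lemma tlA_le {δ : ℝ} (hδ : 0 < δ) (n : ℕ) :
    tlA A u c n ≤ ENNReal.ofReal (Real.exp (-δ)) ^ n * mass (exA A (u - δ) c 0) Irr := by
  have hr : ENNReal.ofReal (Real.exp (-δ)) ≤ 1 := by
    rw [← ENNReal.ofReal_one]
    exact ENNReal.ofReal_le_ofReal (by
      rw [← Real.exp_zero]; exact Real.exp_le_exp.2 (by linarith))
  calc tlA A u c n = ∑' j, ENNReal.ofReal (Real.exp (-δ)) ^ (j + (n + 1)) *
          mass (exA A (u - δ) c 0) (IrrZ List.length (j + (n + 1))) :=
        tsum_congr fun j => mass_shiftA A u δ c _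
    _ ≤ ∑' j, ENNReal.ofReal (Real.exp (-δ)) ^ n *
          mass (exA A (u - δ) c 0) (IrrZ List.length (j + (n + 1))) := by
        refine ENNReal.tsum_le_tsum fun j => ?_
        gcongr ?_ * _
        exact pow_le_pow_right_of_le_one' hr (by omega)
    _ = ENNReal.ofReal (Real.exp (-δ)) ^ n *
          ∑' j, mass (exA A (u - δ) c 0) (IrrZ List.length (j + (n + 1))) := ENNReal.tsum_mul_left
    _ ≤ ENNReal.ofReal (Real.exp (-δ)) ^ n * mass (exA A (u - δ) c 0) Irr := by
        gcongr
        rw [← tsum_irrZ _ List.length]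
        exact ENNReal.tsum_comp_le_tsum_of_injective (f := fun j : ℕ => j + (n + 1))
          (fun a b h => by simpa using h) _

lemma tsum_tlA_ne_top (htail : ∃ δ > 0, mass (exA A (u - δ) c 0) Irr ≠ ∞) :
    ∑' n, tlA A u c n ≠ ∞ := by
  obtain ⟨δ, hδ, hfin⟩ := htail
  refine ne_top_of_le_ne_top ?_ (ENNReal.tsum_le_tsum fun n => tlA_le (A := A) (u := u) (c := c)
    hδ n)
  rw [ENNReal.tsum_mul_right, ENNReal.tsum_geometric]
  refine ENNReal.mul_ne_top (ENNReal.inv_ne_top.2 (tsub_pos_of_lt ?_).ne') hfin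
  rw [← ENNReal.ofReal_one]
  exact (ENNReal.ofReal_lt_ofReal_iff one_pos).2 (by
    rw [← Real.exp_zero]; exact Real.exp_lt_exp.2 (by linarith))

theorem mass_len_lowA (hA : IsClass A) (hone : mass (exA A u c 0) Irr = 1)
    (htail : ∃ δ > 0, mass (exA A (u - δ) c 0) Irr ≠ ∞) :
    ∃ κ > 0, ∀ n : ℕ, ENNReal.ofReal κ ≤ mass (exA A u c 0) (BrZ List.length n) := by
  have hup := mass_brZ_le_oneA (fun v w hv hw => exA_append hA hv hw) (exA_nil hA) isSize_length
    hone.le
  have ht := ENNReal.tendsto_sum_nat_add (tlA A u c) (tsum_tlA_ne_top htail)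
  obtain ⟨J, hJ⟩ : ∃ J, ∑' k, tlA A u c (k + J) < 2⁻¹ := by
    have := ht.eventually (gt_mem_nhds (show (0 : ℝ≥0∞) < 2⁻¹ by simp))
    exact this.exists
  set a := exA A u c 0 [Dir.E] with ha
  have ha1 : a ≤ 1 := by
    refine le_trans ?_ (hup 1)
    exact le_mass (show [Dir.E] ∈ BrZ List.length 1 from ⟨isBr_singleton_E, rfl⟩)
  have ha0 : 0 < a := by
    rw [ha, exA_of_mem hA.E]
    exact ex_pos _ _ _ _
  have hatop : a ≠ ∞ := exA_ne_top _
  have key : ∀ n, a ^ J * 2⁻¹ ≤ (J : ℝ≥0∞) * mass (exA A u c 0) (BrZ List.length n) := by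
    intro n
    set v := fun m => mass (exA A u c 0) (BrZ List.length m) with hv
    have hW : ∑ k ∈ Finset.range (n + 1), tlA A u c k * v (n - k) = 1 := tlA_conv hA hone n
    have hstep : a ^ J ≤ (J : ℝ≥0∞) * v n + a ^ J * 2⁻¹ := by
      calc a ^ J = a ^ J * ∑ k ∈ Finset.range (n + 1), tlA A u c k * v (n - k) := by
            rw [hW, mul_one]
        _ ≤ a ^ J * ∑ k ∈ Finset.range (n + 1), ((if k < J then v (n - k) else 0) +
              (if J ≤ k then tlA A u c k else 0)) := by
            gcongr with k hk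
            by_cases hkJ : k < J
            · rw [if_pos hkJ, if_neg (by omega), add_zero]
              calc tlA A u c k * v (n - k) ≤ 1 * v (n - k) := by gcongr; exact tlA_le_one hone k
                _ = _ := one_mul _
            · rw [if_neg hkJ, if_pos (by omega), zero_add]
              calc tlA A u c k * v (n - k) ≤ tlA A u c k * 1 := by gcongr; exact hup _
                _ = _ := mul_one _
        _ = (∑ k ∈ Finset.range (n + 1), a ^ J * (if k < J then v (n - k) else 0)) +
              a ^ J * ∑ k ∈ Finset.range (n + 1), (if J ≤ k then tlA A u c k else 0) := by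
            rw [Finset.sum_add_distrib, mul_add, Finset.mul_sum]
        _ ≤ (J : ℝ≥0∞) * v n + a ^ J * 2⁻¹ := by
            gcongr ?_ + a ^ J * ?_
            · calc ∑ k ∈ Finset.range (n + 1), a ^ J * (if k < J then v (n - k) else 0)
                  ≤ ∑ k ∈ Finset.range (n + 1), (if k ∈ Finset.range J then v n else 0) := by
                    refine Finset.sum_le_sum fun k hk => ?_
                    by_cases hkJ : k < J
                    · rw [if_pos hkJ, if_pos (Finset.mem_range.2 hkJ)]
                      have hk' := Finset.mem_range.1 hk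
                      have h1 := brZ_add_geA hA u c (n - k) k
                      have e1 : n - k + k = n := by omega
                      rw [e1] at h1
                      refine le_trans ?_ h1
                      gcongr ?_ * _
                      exact pow_le_pow_right_of_le_one' ha1 hkJ.le
                    · rw [if_neg hkJ]; simp
                _ ≤ ∑ k ∈ Finset.range J, v n := by
                    rw [← Finset.sum_filter]
                    refine Finset.sum_le_sum_of_subset ?_
                    intro k hk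
                    exact (Finset.mem_filter.1 hk).2
                _ = (J : ℝ≥0∞) * v n := by simp
            · calc ∑ k ∈ Finset.range (n + 1), (if J ≤ k then tlA A u c k else 0)
                  ≤ ∑' k, (if J ≤ k then tlA A u c k else 0) := ENNReal.sum_le_tsum _
                _ = (∑ k ∈ Finset.range J, (if J ≤ k then tlA A u c k else 0)) +
                      ∑' k, (if J ≤ k + J then tlA A u c (k + J) else 0) :=
                    (ENNReal.summable.sum_add_tsum_nat_add' ).symm
                _ = ∑' k, tlA A u c (k + J) := by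
                    rw [Finset.sum_eq_zero, zero_add]
                    · refine tsum_congr fun k => if_pos (by omega)
                    · intro k hk
                      have := Finset.mem_range.1 hk
                      exact if_neg (by omega)
                _ ≤ 2⁻¹ := hJ.le
    have hfin : a ^ J * 2⁻¹ ≠ ∞ :=
      ENNReal.mul_ne_top (ENNReal.pow_ne_top hatop) (by simp)
    have hsplit : a ^ J * 2⁻¹ + a ^ J * 2⁻¹ = a ^ J := by
      rw [← mul_add, ENNReal.inv_two_add_inv_two, mul_one]
    rw [← hsplit] at hstep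
    have h5 : a ^ J * 2⁻¹ + a ^ J * 2⁻¹ ≤ (J : ℝ≥0∞) * v n + a ^ J * 2⁻¹ := by
      simpa [hsplit] using hstep
    exact (ENNReal.add_le_add_iff_right hfin).1 h5
  have haJ : 0 < a ^ J * 2⁻¹ := by
    refine ENNReal.mul_pos (ENNReal.pow_pos ha0 J).ne' (by simp)
  have haJtop : a ^ J * 2⁻¹ ≠ ∞ :=
    ENNReal.mul_ne_top (ENNReal.pow_ne_top hatop) (by simp)
  refine ⟨(a ^ J * 2⁻¹ / (J + 1)).toReal, ?_, ?_⟩
  · refine ENNReal.toReal_pos ?_ ?_
    · exact (ENNReal.div_pos haJ.ne' (by finiteness)).ne'
    · exact ENNReal.div_ne_top haJtop (by positivity)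
  · intro n
    rw [ENNReal.ofReal_toReal (ENNReal.div_ne_top haJtop (by positivity))]
    refine ENNReal.div_le_of_le_mul ?_
    calc a ^ J * 2⁻¹ ≤ (J : ℝ≥0∞) * mass (exA A u c 0) (BrZ List.length n) := key n
      _ ≤ mass (exA A u c 0) (BrZ List.length n) * (J + 1) := by
          rw [mul_comm]
          gcongr
          exact le_self_add

end cls

theorem params_ofA {A : Set Word} (hA : IsClass A) {u u' c : ℝ} (hc : 0 ≤ c) (hu' : 0 < u')
    (hu : u' < u) (hfin : ∃ c'' : ℝ, mass (exA A u' (-c'') 0) Br ≠ ∞)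
    (h1 : ∀ s : ℕ, mass (exA A u c 0) (BrS s) ≤ 1)
    (h2 : ∀ c' > c, ∃ s : ℕ, 1 < mass (exA A u c' 0) (BrS s))
    (h3 : ∃ ε > 0, mass (exA A u (c + ε) 0) Irr ≠ ∞) : ParamsA A u c := by
  have hone := mass_irr_eq_oneA hA h1 h2 h3
  have htail := mass_irr_tailA hc hu hfin h3
  exact
    { u_pos := hu'.trans hu
      c_nonneg := hc
      one := hone
      tail := htail
      low := mass_len_lowA hA hone htail
      up := mass_brZ_le_oneA (fun v w hv hw => exA_append hA hv hw) (exA_nil hA) isSize_length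
        hone.le }

end Pool.Agent.SAPK
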