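import Pool.Agent.SAPK.RenewK
import Pool.Agent.SAPK.FlipK

/-!
Tail estimates for a class of words (compare `SAPF/TailsA`, `SAPF/TailsB`).
-/

namespace Pool.Agent.SAPK

open scoped ENNReal
open Filter Pool.Agent.SAPF

/-- weight of a pair -/
noncomputable def pwA (A : Set Word) (u c : ℝ) (p : Word × Word) : ℝ≥0∞ :=
  exA A u c 0 p.1 * exA A u c 0 p.2

lemma exA_mono {A : Set Word} {u c θ u' c' θ' : ℝ} {x : ℝ≥0∞} {w : Word}
    (h : ex u c θ w ≤ x * ex u' c' θ' w) : exA A u c θ w ≤ x * exA A u' c' θ' w := by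
  by_cases hw : w ∈ A
  · rwa [exA_of_mem hw, exA_of_mem hw]
  · rw [exA_of_notMem hw]; exact zero_le

/-- products of bridges -/
lemma mass_le_mulA {A : Set Word} (hA : IsClass A) {u c θ : ℝ} {S B C : Set Word} (hB : B ⊆ Br)
    (hC : C ⊆ Br) (h : ∀ w ∈ S, ∃ u ∈ B, ∃ v ∈ C, w = u ++ v) :
    mass (exA A u c θ) S ≤ mass (exA A u c θ) B * mass (exA A u c θ) C :=
  mass_le_mul (fun _ ha _ hb => (exA_append hA (hB ha) (hC hb)).le) h

section
variable {A : Set Word} (hA : IsClass A)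
include hA

lemma mass_AL_symmA (u c θ : ℝ) (l : ℕ) :
    mass (exA A u c θ) (AL l) ≤ mass (exA A u c (-θ)) (AL l) := by
  refine mass_le_of_injOn flipY ?_ ?_ ?_
  · intro a _ b _ hab
    have := congrArg flipY hab
    simpa using this
  · intro a ha
    exact ⟨ha.1.flipY, by simpa using ha.2⟩
  · intro a _
    rw [exA_flipY hA, neg_neg]

lemma mass_AL_leA {u c : ℝ} (hone : mass (exA A u c 0) Irr = 1) (θ : ℝ) (l : ℕ) :
    mass (exA A u c θ) (AL l) ≤ ENNReal.ofReal (Real.exp ((θ * l) ^ 2 / 2)) := by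
  have h1 : mass (exA A u c θ) (AL l) + mass (exA A u c (-θ)) (AL l) ≤
      ENNReal.ofReal (2 * Real.cosh (θ * l)) * mass (exA A u c 0) (AL l) := by
    rw [← mass_add, ← mass_const_mul]
    refine mass_mono_fun fun p hp => ?_
    by_cases hpA : p ∈ A
    swap
    · rw [exA_of_notMem hpA, exA_of_notMem hpA, exA_of_notMem hpA]; simp
    rw [exA_of_mem hpA, exA_of_mem hpA, exA_of_mem hpA]
    unfold ex
    rw [← ENNReal.ofReal_add (Real.exp_pos _).le (Real.exp_pos _).le,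
      ← ENNReal.ofReal_mul (by positivity)]
    apply ENNReal.ofReal_le_ofReal
    have h2 : Real.exp (-u * p.length + c * X p + θ * Y p) +
        Real.exp (-u * p.length + c * X p + -θ * Y p) =
        2 * Real.cosh (θ * Y p) * Real.exp (-u * p.length + c * X p + 0 * Y p) := by
      rw [Real.cosh_eq, Real.exp_add, Real.exp_add (-u * p.length + c * X p) (-θ * Y p),
        Real.exp_add (-u * p.length + c * X p) (0 * Y p)]
      simp
      ring
    rw [h2]
    have h3 : Real.cosh (θ * Y p) ≤ Real.cosh (θ * l) := by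
      rw [Real.cosh_le_cosh, abs_mul, abs_mul]
      apply mul_le_mul_of_nonneg_left _ (abs_nonneg _)
      have h4 : |(Y p : ℝ)| ≤ p.length := by exact_mod_cast abs_Y_le p
      have h5 : (p.length : ℝ) ≤ l := by exact_mod_cast hp.2
      rw [abs_of_nonneg (by positivity : (0 : ℝ) ≤ (l : ℝ))]
      linarith
    gcongr
  have h2 : mass (exA A u c 0) (AL l) ≤ 1 := by
    rw [← hone]
    exact mass_mono fun p hp => hp.1
  have h3 : mass (exA A u c (-θ)) (AL l) = mass (exA A u c θ) (AL l) := by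
    refine le_antisymm ?_ (mass_AL_symmA hA u c θ l)
    have := mass_AL_symmA hA u c (-θ) l
    rwa [neg_neg] at this
  rw [h3] at h1
  have h4 : 2 * mass (exA A u c θ) (AL l) ≤ 2 * ENNReal.ofReal (Real.cosh (θ * l)) := by
    calc 2 * mass (exA A u c θ) (AL l)
        = mass (exA A u c θ) (AL l) + mass (exA A u c θ) (AL l) := two_mul _
      _ ≤ ENNReal.ofReal (2 * Real.cosh (θ * l)) * mass (exA A u c 0) (AL l) := h1
      _ ≤ ENNReal.ofReal (2 * Real.cosh (θ * l)) * 1 := by gcongr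
      _ = 2 * ENNReal.ofReal (Real.cosh (θ * l)) := by
        rw [mul_one, ENNReal.ofReal_mul (by norm_num)]; simp
  have h5 : mass (exA A u c θ) (AL l) ≤ ENNReal.ofReal (Real.cosh (θ * l)) := by
    rw [ENNReal.mul_le_mul_iff_right (by norm_num) (by norm_num)] at h4
    exact h4
  refine h5.trans (ENNReal.ofReal_le_ofReal ?_)
  exact Real.cosh_le_exp_half_sq _

omit hA in
lemma mass_BM_leA {u c : ℝ} (h : ParamsA A u c) (M : ℕ) :
    mass (exA A u c 0) (BM M) ≤ (M + 1 : ℕ) := by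
  have h1 : BM M ⊆ ⋃ i : Fin (M + 1), {w | IsBr w ∧ w.length = i} := by
    intro w hw
    rw [Set.mem_iUnion]
    exact ⟨⟨w.length, by have := hw.2; omega⟩, hw.1, rfl⟩
  refine (mass_mono h1).trans ((mass_iUnion_le _ _).trans ?_)
  rw [tsum_fintype]
  calc ∑ i : Fin (M + 1), mass (exA A u c 0) {w | IsBr w ∧ w.length = i}
      ≤ ∑ _i : Fin (M + 1), 1 := Finset.sum_le_sum fun i _ => h.up i
    _ = (M + 1 : ℕ) := by simp

omit hA in
lemma exists_LP_boundA {u c : ℝ} (h : ParamsA A u c) : ∃ δ > 0, ∃ B : ℝ, 0 < B ∧ ∀ l : ℕ,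
    mass (exA A u c 0) (LP l) ≤ ENNReal.ofReal (B * Real.exp (-δ * l)) := by
  obtain ⟨δ, hδ, hfin⟩ := h.tail
  refine ⟨δ, hδ, (mass (exA A (u - δ) c 0) Irr).toReal + 1, by positivity, fun l => ?_⟩
  have h1 : mass (exA A u c 0) (LP l) ≤
      mass (fun p => ENNReal.ofReal (Real.exp (-δ * l)) * exA A (u - δ) c 0 p) (LP l) := by
    refine mass_mono_fun fun p hp => exA_mono ?_
    unfold ex
    rw [← ENNReal.ofReal_mul (Real.exp_pos _).le, ← Real.exp_add]
    apply ENNReal.ofReal_le_ofReal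
    apply Real.exp_le_exp.2
    have h2 : (l : ℝ) ≤ p.length := by exact_mod_cast hp.2.le
    nlinarith
  refine h1.trans ?_
  rw [mass_const_mul]
  have h2 : mass (exA A (u - δ) c 0) (LP l) ≤
      ENNReal.ofReal ((mass (exA A (u - δ) c 0) Irr).toReal + 1) := by
    calc mass (exA A (u - δ) c 0) (LP l) ≤ mass (exA A (u - δ) c 0) Irr :=
          mass_mono fun p hp => hp.1
      _ = ENNReal.ofReal (mass (exA A (u - δ) c 0) Irr).toReal := (ENNReal.ofReal_toReal hfin).symm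
      _ ≤ _ := ENNReal.ofReal_le_ofReal (by linarith)
  calc ENNReal.ofReal (Real.exp (-δ * l)) * mass (exA A (u - δ) c 0) (LP l)
      ≤ ENNReal.ofReal (Real.exp (-δ * l)) *
        ENNReal.ofReal ((mass (exA A (u - δ) c 0) Irr).toReal + 1) := by gcongr
    _ = _ := by rw [← ENNReal.ofReal_mul (Real.exp_pos _).le, mul_comm]

lemma mass_LongW_leA {u c : ℝ} (h : ParamsA A u c) (M l : ℕ) :
    mass (exA A u c 0) (LongW M l) ≤ (M + 1 : ℕ) * mass (exA A u c 0) (LP l) * (M + 1 : ℕ) := by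
  have h1 : mass (exA A u c 0) (LongW M l) ≤
      mass (exA A u c 0) {w | ∃ a ∈ BM M, ∃ p ∈ LP l, w = a ++ p} * mass (exA A u c 0) (BM M) := by
    refine mass_le_mulA hA ?_ (fun w hw => hw.1) ?_
    · rintro w ⟨a, ha, p, hp, rfl⟩
      exact ha.1.append hp.1.br
    rintro w ⟨⟨hbr, hlen⟩, ps, hps, rfl, p, hp, hl⟩
    obtain ⟨s, t, rfl⟩ := List.append_of_mem hp
    have hs : AllIrr s := fun q hq => hps q (by simp [hq])
    have ht : AllIrr t := fun q hq => hps q (by simp [hq])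
    have hpi : IsIrr p := hps p (by simp)
    rw [List.flatten_append, List.flatten_cons, List.length_append, List.length_append] at hlen
    refine ⟨s.flatten ++ p, ⟨s.flatten, ⟨isBr_flatten hs, by omega⟩, p, ⟨hpi, hl⟩, rfl⟩,
      t.flatten, ⟨isBr_flatten ht, by omega⟩, by simp⟩
  have h2 : mass (exA A u c 0) {w | ∃ a ∈ BM M, ∃ p ∈ LP l, w = a ++ p} ≤
      mass (exA A u c 0) (BM M) * mass (exA A u c 0) (LP l) := by
    refine mass_le_mulA hA (fun w hw => hw.1) (fun w hw => hw.1.br) ?_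
    rintro w ⟨a, ha, p, hp, rfl⟩
    exact ⟨a, ha, p, hp, rfl⟩
  have h3 := mass_BM_leA h M
  calc _ ≤ _ := h1
    _ ≤ mass (exA A u c 0) (BM M) * mass (exA A u c 0) (LP l) * mass (exA A u c 0) (BM M) := by
        gcongr
    _ ≤ _ := by gcongr

lemma mass_SW_leA {u c : ℝ} (hone : mass (exA A u c 0) Irr = 1) (θ : ℝ) (M l : ℕ) :
    mass (exA A u c θ) (SW M l) ≤
      ENNReal.ofReal ((M + 1) * Real.exp (M * ((θ * l) ^ 2 / 2))) := by
  have h1 : mass (exA A u c θ) (SW M l) ≤ mass (fun ps : List Word => exA A u c θ ps.flatten)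
      (⋃ j : Fin (M + 1), {ps | ps.length = (j : ℕ) ∧ ∀ p ∈ ps, p ∈ AL l}) := by
    refine mass_le_of_section List.flatten ?_
    rintro w ⟨ps, hlen, hps, rfl⟩
    refine ⟨ps, ?_, rfl, le_rfl⟩
    rw [Set.mem_iUnion]
    exact ⟨⟨ps.length, by omega⟩, rfl, hps⟩
  refine h1.trans ((mass_iUnion_le _ _).trans ?_)
  rw [tsum_fintype]
  have hM := mass_AL_leA hA hone θ l
  have hexp1 : 1 ≤ Real.exp ((θ * l) ^ 2 / 2) := Real.one_le_exp (by positivity)
  calc ∑ j : Fin (M + 1), mass (fun ps : List Word => exA A u c θ ps.flatten)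
        {ps | ps.length = (j : ℕ) ∧ ∀ p ∈ ps, p ∈ AL l}
      ≤ ∑ _j : Fin (M + 1), ENNReal.ofReal (Real.exp (M * ((θ * l) ^ 2 / 2))) := by
        refine Finset.sum_le_sum fun j _ => ?_
        rw [mass_listsA hA (fun p hp => hp.1)]
        calc mass (exA A u c θ) (AL l) ^ (j : ℕ)
            ≤ ENNReal.ofReal (Real.exp ((θ * l) ^ 2 / 2)) ^ (j : ℕ) := by gcongr
          _ = ENNReal.ofReal (Real.exp ((θ * l) ^ 2 / 2) ^ (j : ℕ)) :=
            (ENNReal.ofReal_pow (Real.exp_pos _).le _).symm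
          _ ≤ ENNReal.ofReal (Real.exp ((θ * l) ^ 2 / 2) ^ M) := by
            apply ENNReal.ofReal_le_ofReal
            exact pow_le_pow_right₀ hexp1 (by have := j.2; omega)
          _ = _ := by rw [← Real.exp_nat_mul]
    _ = _ := by
        rw [Finset.sum_const, Finset.card_univ, Fintype.card_fin, nsmul_eq_mul,
          ENNReal.ofReal_mul (by positivity)]
        congr 1
        rw [show ((M : ℝ) + 1) = ((M + 1 : ℕ) : ℝ) by push_cast; ring, ENNReal.ofReal_natCast]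

lemma mass_high_leA {u c : ℝ} (hone : mass (exA A u c 0) Irr = 1) (M l : ℕ) (θ h : ℝ)
    (hθ : 0 ≤ θ) :
    mass (exA A u c 0) {w | w ∈ SW M l ∧ h ≤ |(Y w : ℝ)|} ≤
      ENNReal.ofReal (2 * (M + 1) * Real.exp (M * ((θ * l) ^ 2 / 2) - θ * h)) := by
  have h1 : mass (exA A u c 0) {w | w ∈ SW M l ∧ h ≤ |(Y w : ℝ)|} ≤
      mass (fun w => ENNReal.ofReal (Real.exp (-θ * h)) *
        (exA A u c θ w + exA A u c (-θ) w)) (SW M l) := by
    refine (mass_mono_fun fun w hw => ?_).trans (mass_mono fun w hw => hw.1)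
    have h2 : exA A u c 0 w ≤ ENNReal.ofReal (Real.exp (-θ * h)) * exA A u c θ w ∨
        exA A u c 0 w ≤ ENNReal.ofReal (Real.exp (-θ * h)) * exA A u c (-θ) w := by
      rcases le_abs'.1 hw.2 with h3 | h3
      · right
        apply exA_mono
        unfold ex
        rw [← ENNReal.ofReal_mul (Real.exp_pos _).le, ← Real.exp_add]
        apply ENNReal.ofReal_le_ofReal
        apply Real.exp_le_exp.2
        nlinarith
      · left
        apply exA_mono
        unfold ex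
        rw [← ENNReal.ofReal_mul (Real.exp_pos _).le, ← Real.exp_add]
        apply ENNReal.ofReal_le_ofReal
        apply Real.exp_le_exp.2
        nlinarith
    rw [mul_add]
    rcases h2 with h2 | h2
    · exact h2.trans le_self_add
    · exact h2.trans le_add_self
  refine h1.trans ?_
  rw [mass_const_mul, mass_add]
  have h2 := mass_SW_leA hA hone θ M l (c := c)
  have h3 := mass_SW_leA hA hone (-θ) M l (c := c)
  rw [show ((-θ) * (l : ℝ)) ^ 2 = (θ * l) ^ 2 by ring] at h3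
  calc ENNReal.ofReal (Real.exp (-θ * h)) *
        (mass (exA A u c θ) (SW M l) + mass (exA A u c (-θ)) (SW M l))
      ≤ ENNReal.ofReal (Real.exp (-θ * h)) *
        (ENNReal.ofReal ((M + 1) * Real.exp (M * ((θ * l) ^ 2 / 2))) +
          ENNReal.ofReal ((M + 1) * Real.exp (M * ((θ * l) ^ 2 / 2)))) := by gcongr
    _ = ENNReal.ofReal (2 * (M + 1) * Real.exp (M * ((θ * l) ^ 2 / 2) - θ * h)) := by
        rw [← ENNReal.ofReal_add (by positivity) (by positivity),
          ← ENNReal.ofReal_mul (Real.exp_pos _).le]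
        congr 1
        rw [sub_eq_add_neg, Real.exp_add, show -θ * h = -(θ * h) by ring]
        ring

lemma mass_HighW_leA {u c : ℝ} (hp : ParamsA A u c) (M l : ℕ) (θ h : ℝ) (hθ : 0 ≤ θ) :
    mass (exA A u c 0) (HighW M h) ≤ mass (exA A u c 0) (LongW M l) +
      ENNReal.ofReal (2 * (M + 1) * Real.exp (M * ((θ * l) ^ 2 / 2) - θ * (h - l))) *
        (M + 1 : ℕ) := by
  have h1 : HighW M h ⊆ LongW M l ∪
      {w | ∃ a ∈ {w | w ∈ SW M l ∧ h - l ≤ |(Y w : ℝ)|}, ∃ b ∈ BM M, w = a ++ b} := by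
    rintro w ⟨⟨hbr, hlen⟩, t, ht, hht⟩
    obtain ⟨ps, hps, rfl⟩ := exists_factor hbr
    by_cases hl : ∃ p ∈ ps, l < p.length
    · left; exact ⟨⟨hbr, hlen⟩, ps, hps, rfl, hl⟩
    · right
      push Not at hl
      obtain ⟨as, bs, rfl, hab⟩ := exists_piece_prefix hl ht
      have has : AllIrr as := fun q hq => hps q (by simp [hq])
      have hbs : AllIrr bs := fun q hq => hps q (by simp [hq])
      rw [List.flatten_append, List.length_append] at hlen
      have hla := length_le_of_allIrr has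
      refine ⟨as.flatten, ⟨⟨as, by omega, fun p hp => ⟨has p hp, hl p (by simp [hp])⟩, rfl⟩, ?_⟩,
        bs.flatten, ⟨isBr_flatten hbs, by omega⟩, by simp⟩
      have : |(Y t : ℝ)| ≤ |(Y as.flatten : ℝ)| + l := by exact_mod_cast hab
      linarith
  refine (mass_mono h1).trans ((mass_union_le _ _ _).trans ?_)
  gcongr
  refine (mass_le_mulA hA (B := {w | w ∈ SW M l ∧ h - l ≤ |(Y w : ℝ)|}) (C := BM M)
    ?_ (fun w hw => hw.1) (fun w hw => hw)).trans ?_
  · rintro w ⟨⟨ps, -, hps, rfl⟩, -⟩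
    exact isBr_flatten fun p hp => (hps p hp).1
  have h2 := mass_high_leA hA hp.one M l θ (h - l) hθ (c := c)
  have h3 := mass_BM_leA hp M
  gcongr

set_option maxHeartbeats 1000000 in
theorem upper_tailA {u c : ℝ} (h : ParamsA A u c) (K : ℕ) : ∀ᶠ n : ℕ in atTop,
    mass (pwA A u c) {p | p ∈ Pairs n ∧ ∃ t, (t <+: p.1 ∨ t <+: p.2) ∧
      Real.sqrt n * (Real.log n) ^ (3 : ℝ) < |(Y t : ℝ)|} ≤
        ENNReal.ofReal (1 / (n : ℝ) ^ K) := by
  obtain ⟨δ, hδ, B, hB, hLP⟩ := exists_LP_boundA h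
  set A' : ℝ := (K + 5) / δ with hA'
  have hApos : 0 < A' := by positivity
  have e1 := eventually_log_ge (1 + 1 / A' + 4 * A' * (K + 6))
  have e2 := eventually_nat_ge (54 * (B + 2 * Real.exp 1) + 4)
  filter_upwards [e1, e2, eventually_ge_atTop 3] with n h1 h2 hn3
  set L := Real.log n with hL
  have hn : (0 : ℝ) < n := by
    have : 0 < n := by omega
    exact_mod_cast this
  have hn1 : (1 : ℝ) ≤ n := by
    have : 1 ≤ n := by omega
    exact_mod_cast this
  have hAi : 0 < 1 / A' := by positivity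
  have hAK : 0 ≤ 4 * A' * (K + 6) := by positivity
  have hL1 : 1 ≤ L := by linarith
  have hLpos : 0 < L := by linarith
  have hAL : 1 ≤ A' * L := by
    have : 1 / A' ≤ L := by linarith
    rw [div_le_iff₀ hApos] at this
    linarith
  set l := ⌈A' * L⌉₊ with hl
  have hl1 : A' * L ≤ l := Nat.le_ceil _
  have hl2 : (l : ℝ) ≤ 2 * A' * L := by
    have := Nat.ceil_lt_add_one (by positivity : 0 ≤ A' * L)
    linarith
  have hlpos : (0 : ℝ) < l := by linarith
  set M := 2 * n + 2 with hM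
  set hh : ℝ := Real.sqrt n * L ^ (3 : ℝ) with hhh
  have hsub : {p : Word × Word | p ∈ Pairs n ∧ ∃ t, (t <+: p.1 ∨ t <+: p.2) ∧ hh < |(Y t : ℝ)|} ⊆
      (HighW M hh ×ˢ BM M) ∪ (BM M ×ˢ HighW M hh) := by
    rintro ⟨α, β⟩ ⟨⟨hα, hβ, hlen⟩, t, ht, hht⟩
    simp only at hα hβ hlen ht
    have hαM : α ∈ BM M := ⟨hα, by omega⟩
    have hβM : β ∈ BM M := ⟨hβ, by omega⟩
    rcases ht with ht | ht
    · left; exact ⟨⟨hαM, t, ht, hht⟩, hβM⟩
    · right; exact ⟨hαM, ⟨hβM, t, ht, hht⟩⟩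
  refine (mass_mono hsub).trans ((mass_union_le _ _ _).trans ?_)
  have hp1 : mass (pwA A u c) (HighW M hh ×ˢ BM M) =
      mass (exA A u c 0) (HighW M hh) * mass (exA A u c 0) (BM M) :=
    mass_prod (exA A u c 0) (exA A u c 0) _ _
  have hp2 : mass (pwA A u c) (BM M ×ˢ HighW M hh) =
      mass (exA A u c 0) (BM M) * mass (exA A u c 0) (HighW M hh) :=
    mass_prod (exA A u c 0) (exA A u c 0) _ _
  rw [hp1, hp2]
  set θ : ℝ := 1 / (l * Real.sqrt M) with hθ
  have hMpos : (0 : ℝ) < (M : ℝ) := by rw [hM]; positivity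
  have hsM : 0 < Real.sqrt M := Real.sqrt_pos.2 hMpos
  have hHigh := mass_HighW_leA hA h M l θ hh (by positivity)
  have hLong := mass_LongW_leA hA h M l
  have hBM := mass_BM_leA h M
  have hLPl := hLP l
  have hexp1 : (M : ℝ) * ((θ * l) ^ 2 / 2) = 1 / 2 := by
    rw [hθ]
    field_simp
    rw [Real.sq_sqrt hMpos.le]
  have hM3 : ((M : ℝ) + 1) ≤ 3 * n := by
    rw [hM]; push_cast
    have : (3 : ℝ) ≤ n := by exact_mod_cast hn3
    linarith
  have hsM2 : Real.sqrt M ≤ 2 * Real.sqrt n := by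
    have : (2 : ℝ) * Real.sqrt n = Real.sqrt (4 * n) := by
      rw [Real.sqrt_mul (by norm_num)]
      congr 1
      rw [show (4 : ℝ) = 2 ^ 2 by norm_num, Real.sqrt_sq (by norm_num)]
    rw [this]
    apply Real.sqrt_le_sqrt
    rw [hM]; push_cast
    have : (3 : ℝ) ≤ n := by exact_mod_cast hn3
    linarith
  have hL3 : L ^ (3 : ℝ) = L ^ 3 := by
    rw [show (3 : ℝ) = ((3 : ℕ) : ℝ) by norm_num, Real.rpow_natCast]
  have hexp2 : (K + 5) * L ≤ θ * (hh - l) - 1 / 2 := by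
    have h3 : θ * l ≤ 1 / 2 := by
      rw [hθ]
      have : 1 / ((l : ℝ) * Real.sqrt M) * l = 1 / Real.sqrt M := by field_simp
      rw [this]
      have h4 : 2 ≤ Real.sqrt M := by
        apply Real.le_sqrt_of_sq_le
        rw [hM]; push_cast
        nlinarith
      rw [div_le_div_iff₀ hsM (by norm_num)]
      linarith
    have h4 : L ^ 2 / (4 * A') ≤ θ * hh := by
      rw [hθ, hhh, hL3, div_mul_eq_mul_div, one_mul, div_le_div_iff₀ (by positivity) (by positivity)]
      calc L ^ 2 * (l * Real.sqrt M) ≤ L ^ 2 * ((2 * A' * L) * (2 * Real.sqrt n)) := by gcongr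
        _ = Real.sqrt n * L ^ 3 * (4 * A') := by ring
    have h5 : (K + 6) * L ≤ L ^ 2 / (4 * A') := by
      rw [le_div_iff₀ (by positivity)]
      have : 4 * A' * (K + 6) ≤ L := by linarith
      nlinarith
    have h6 : θ * (hh - l) = θ * hh - θ * l := by ring
    rw [h6]
    linarith
  have hnK : Real.exp (-((K : ℝ) + 5) * L) = 1 / (n : ℝ) ^ (K + 5) := by
    rw [hL, show -((K : ℝ) + 5) * Real.log n = Real.log n * (-((K + 5 : ℕ) : ℝ)) by push_cast; ring,
      Real.exp_mul, Real.exp_log hn, Real.rpow_neg hn.le, Real.rpow_natCast, one_div]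
  have hE1 : Real.exp (-δ * l) ≤ 1 / (n : ℝ) ^ (K + 5) := by
    rw [← hnK]
    apply Real.exp_le_exp.2
    have : δ * (A' * L) ≤ δ * l := by gcongr
    have h7 : δ * (A' * L) = (K + 5) * L := by rw [hA']; field_simp
    linarith
  have hE2 : Real.exp ((M : ℝ) * ((θ * l) ^ 2 / 2) - θ * (hh - l)) ≤
      Real.exp 1 * (1 / (n : ℝ) ^ (K + 5)) := by
    rw [← hnK, ← Real.exp_add]
    apply Real.exp_le_exp.2
    rw [hexp1]
    linarith
  have hcast : ((M + 1 : ℕ) : ℝ≥0∞) = ENNReal.ofReal ((M : ℝ) + 1) := by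
    rw [show ((M : ℝ) + 1) = ((M + 1 : ℕ) : ℝ) by push_cast; ring, ENNReal.ofReal_natCast]
  have hbound : mass (exA A u c 0) (HighW M hh) ≤
      ENNReal.ofReal ((3 * n) ^ 2 * ((B + 2 * Real.exp 1) * (1 / (n : ℝ) ^ (K + 5)))) := by
    calc mass (exA A u c 0) (HighW M hh)
        ≤ ENNReal.ofReal ((M : ℝ) + 1) * ENNReal.ofReal (B * Real.exp (-δ * l)) *
            ENNReal.ofReal ((M : ℝ) + 1) +
          ENNReal.ofReal (2 * (M + 1) * Real.exp (M * ((θ * l) ^ 2 / 2) - θ * (hh - l))) *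
            ENNReal.ofReal ((M : ℝ) + 1) := by
          rw [← hcast]
          refine hHigh.trans ?_
          gcongr
          exact hLong.trans (by gcongr)
      _ = ENNReal.ofReal (((M : ℝ) + 1) * (B * Real.exp (-δ * l)) * ((M : ℝ) + 1) +
          2 * (M + 1) * Real.exp (M * ((θ * l) ^ 2 / 2) - θ * (hh - l)) * ((M : ℝ) + 1)) := by
          exact ofReal_combo (by positivity) (by positivity) (by positivity)
      _ ≤ _ := by
          apply ENNReal.ofReal_le_ofReal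
          calc ((M : ℝ) + 1) * (B * Real.exp (-δ * l)) * ((M : ℝ) + 1) +
                2 * (M + 1) * Real.exp (M * ((θ * l) ^ 2 / 2) - θ * (hh - l)) * ((M : ℝ) + 1)
              ≤ (3 * n) * (B * (1 / (n : ℝ) ^ (K + 5))) * (3 * n) +
                2 * (3 * n) * (Real.exp 1 * (1 / (n : ℝ) ^ (K + 5))) * (3 * n) := by gcongr
            _ = _ := by ring
  have hfin : ∀ x : ℝ≥0∞, x ≤ ENNReal.ofReal ((3 * n) ^ 2 * ((B + 2 * Real.exp 1) *
      (1 / (n : ℝ) ^ (K + 5)))) → x * mass (exA A u c 0) (BM M) ≤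
      ENNReal.ofReal (1 / (n : ℝ) ^ K / 2) := by
    intro x hx
    calc x * mass (exA A u c 0) (BM M) ≤ ENNReal.ofReal ((3 * n) ^ 2 * ((B + 2 * Real.exp 1) *
      (1 / (n : ℝ) ^ (K + 5)))) * ENNReal.ofReal ((M : ℝ) + 1) := by
          rw [← hcast]; gcongr
      _ = ENNReal.ofReal ((3 * n) ^ 2 * ((B + 2 * Real.exp 1) *
      (1 / (n : ℝ) ^ (K + 5))) * ((M : ℝ) + 1)) := by
          rw [← ENNReal.ofReal_mul (by positivity)]
      _ ≤ _ := by
          apply ENNReal.ofReal_le_ofReal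
          exact final_bound hn hM3 (by positivity)
            (by linarith) hn1
  rw [mul_comm (mass (exA A u c 0) (BM M)) (mass (exA A u c 0) (HighW M hh))]
  calc _ ≤ ENNReal.ofReal (1 / (n : ℝ) ^ K / 2) + ENNReal.ofReal (1 / (n : ℝ) ^ K / 2) := by
        gcongr <;> exact hfin _ hbound
    _ = _ := by
        rw [← ENNReal.ofReal_add (by positivity) (by positivity)]
        congr 1; ring

lemma mass_RW_leA {u c : ℝ} (hp : ParamsA A u c) {ε ρ : ℝ} (hρ1 : ρ < 1) (hρ0 : 0 < ρ)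
    (hε : 0 < ε)
    (hfew : ∀ k : ℕ, mass (fun ps : List Word => exA A u c 0 ps.flatten)
      {ps | ps.length = k ∧ AllIrr ps ∧ (ps.countP (fun p => decide (Flp p)) : ℝ) < ε * k} ≤
        ENNReal.ofReal (ρ ^ k)) (D : ℤ → Finset ℤ) (a : ℝ)
    (M l n J k0 q r : ℕ) (hD : ∀ x, (D x).card ≤ l) (hk0 : ∀ k : ℕ, n + 1 ≤ k * l → k0 ≤ k)
    (hr : 1 ≤ r) (hJ : ((J * (4 * q) : ℕ) : ℝ) ≤ ε * k0) (hq : 64 * r ^ 2 * l ^ 2 ≤ q)
    (ha : a < ((r * q : ℕ) : ℝ)) :
    mass (exA A u c 0) (RW M l n D a) ≤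
      (M + 1 : ℕ) * (ENNReal.ofReal (ρ ^ k0) + (1 / 2) ^ J) := by
  have h1 : mass (exA A u c 0) (RW M l n D a) ≤ mass (fun ps : List Word => exA A u c 0 ps.flatten)
      (⋃ j : Fin (M + 1), {ps | ps.length = (j : ℕ) ∧ AllIrr ps ∧ n + 1 ≤ (j : ℕ) * l ∧
        ∀ r : ℕ, 1 ≤ r → ((r * farP r D 0 0 ps : ℕ) : ℝ) ≤ a}) := by
    refine mass_le_of_section List.flatten ?_
    rintro w ⟨ps, hlen, hps, rfl, hl, hc⟩
    refine ⟨ps, ?_, rfl, le_rfl⟩
    rw [Set.mem_iUnion]
    exact ⟨⟨ps.length, by omega⟩, rfl, hps, hl, hc⟩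
  refine h1.trans ((mass_iUnion_le _ _).trans ?_)
  rw [tsum_fintype]
  calc _ ≤ ∑ _j : Fin (M + 1), (ENNReal.ofReal (ρ ^ k0) + (1 / 2) ^ J) := by
        refine Finset.sum_le_sum fun j _ => ?_
        by_cases hj : n + 1 ≤ (j : ℕ) * l
        · have hkj := hk0 _ hj
          have h2 : {ps : List Word | ps.length = (j : ℕ) ∧ AllIrr ps ∧ n + 1 ≤ (j : ℕ) * l ∧
              ∀ r : ℕ, 1 ≤ r → ((r * farP r D 0 0 ps : ℕ) : ℝ) ≤ a} ⊆
              {ps | ps.length = (j : ℕ) ∧ AllIrr ps ∧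
                (ps.countP (fun p => decide (Flp p)) : ℝ) < ε * (j : ℕ)} ∪
              {ps | ps.length = (j : ℕ) ∧ AllIrr ps ∧
                J * (4 * q) ≤ ps.countP (fun p => decide (Flp p)) ∧ farP r D 0 0 ps < q} := by
            rintro ps ⟨hlen, hps, -, hc⟩
            by_cases hcount : (ps.countP (fun p => decide (Flp p)) : ℝ) < ε * (j : ℕ)
            · left; exact ⟨hlen, hps, hcount⟩
            · right
              refine ⟨hlen, hps, ?_, ?_⟩
              · have h3 : ((J * (4 * q) : ℕ) : ℝ) ≤ (ps.countP (fun p => decide (Flp p)) : ℝ) := by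
                  refine hJ.trans (le_trans ?_ (not_lt.1 hcount))
                  gcongr
                exact_mod_cast h3
              · have h3 := lt_of_le_of_lt (hc r hr) ha
                have h4 : r * farP r D 0 0 ps < r * q := by exact_mod_cast h3
                exact Nat.lt_of_mul_lt_mul_left h4
          refine (mass_mono h2).trans ((mass_union_le _ _ _).trans ?_)
          refine add_le_add ((hfew _).trans (ENNReal.ofReal_le_ofReal ?_))
            (flip_boundA hA hp.one D l r q J _ hD hq)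
          exact pow_le_pow_of_le_one hρ0.le hρ1.le hkj
        · have h2 : {ps : List Word | ps.length = (j : ℕ) ∧ AllIrr ps ∧ n + 1 ≤ (j : ℕ) * l ∧
              ∀ r : ℕ, 1 ≤ r → ((r * farP r D 0 0 ps : ℕ) : ℝ) ≤ a} = ∅ := by
            refine Set.eq_empty_of_forall_notMem ?_
            rintro ps ⟨-, -, h3, -⟩
            exact hj h3
          rw [h2, mass_empty]
          exact zero_le
    _ = _ := by
        rw [Finset.sum_const, Finset.card_univ, Fintype.card_fin, nsmul_eq_mul]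

lemma mass_BadL_leA {u c : ℝ} (hp : ParamsA A u c) {ε ρ : ℝ} (hρ1 : ρ < 1) (hρ0 : 0 < ρ)
    (hε : 0 < ε)
    (hfew : ∀ k : ℕ, mass (fun ps : List Word => exA A u c 0 ps.flatten)
      {ps | ps.length = k ∧ AllIrr ps ∧ (ps.countP (fun p => decide (Flp p)) : ℝ) < ε * k} ≤
        ENNReal.ofReal (ρ ^ k)) (a : ℝ)
    (l n J k0 q r : ℕ) (hk0 : ∀ k : ℕ, n + 1 ≤ k * l → k0 ≤ k)
    (hr : 1 ≤ r) (hJ : ((J * (4 * q) : ℕ) : ℝ) ≤ ε * k0) (hq : 64 * r ^ 2 * l ^ 2 ≤ q)
    (ha : a < ((r * q : ℕ) : ℝ)) :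
    mass (pwA A u c) (BadL n a) ≤
      2 * ((2 * n + 2 + 1 : ℕ) * mass (exA A u c 0) (LongW (2 * n + 2) l)) +
      (2 * n + 2 + 1 : ℕ) * ((2 * n + 2 + 1 : ℕ) * (ENNReal.ofReal (ρ ^ k0) + (1 / 2) ^ J)) := by
  set M := 2 * n + 2 with hM
  have hsub : BadL n a ⊆ ((LongW M l ×ˢ BM M) ∪ (BM M ×ˢ LongW M l)) ∪
      {p | p.1 ∈ BM M \ LongW M l ∧ p.2 ∈ RW M l n (colH p.1) a} := by
    rintro ⟨α, β⟩ ⟨⟨hα, hβ, hlen⟩, hlong, hc⟩
    simp only at hα hβ hlen hlong hc
    have hαM : α ∈ BM M := ⟨hα, by omega⟩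
    have hβM : β ∈ BM M := ⟨hβ, by omega⟩
    by_cases h1 : α ∈ LongW M l
    · left; left; exact ⟨h1, hβM⟩
    by_cases h2 : β ∈ LongW M l
    · left; right; exact ⟨hαM, h2⟩
    right
    refine ⟨⟨hαM, h1⟩, ?_⟩
    obtain ⟨ps, hps, hfl⟩ := exists_factor hβ
    have hl : ∀ p ∈ ps, p.length ≤ l := by
      by_contra hcon
      push Not at hcon
      exact h2 ⟨hβM, ps, hps, hfl, hcon⟩
    have h3 : ps.flatten.length ≤ ps.length * l := by
      clear hfl hc
      induction ps with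
      | nil => simp
      | cons p ps ih =>
        have h4 := ih (fun q hq => hps q (by simp [hq])) (fun q hq => hl q (by simp [hq]))
        have h5 := hl p (by simp)
        simp only [List.flatten_cons, List.length_append, List.length_cons, add_mul, one_mul]
        omega
    have h4 := length_le_of_allIrr hps
    refine ⟨ps, ?_, hps, hfl, ?_, fun r hr => hc r hr ps hps hfl⟩
    · rw [hfl] at h4; omega
    · rw [hfl] at h3; omega
  refine (mass_mono hsub).trans ((mass_union_le _ _ _).trans ?_)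
  have hp1 : mass (pwA A u c) (LongW M l ×ˢ BM M) =
      mass (exA A u c 0) (LongW M l) * mass (exA A u c 0) (BM M) :=
    mass_prod (exA A u c 0) (exA A u c 0) _ _
  have hp2 : mass (pwA A u c) (BM M ×ˢ LongW M l) =
      mass (exA A u c 0) (BM M) * mass (exA A u c 0) (LongW M l) :=
    mass_prod (exA A u c 0) (exA A u c 0) _ _
  have hBM := mass_BM_leA hp M
  have hp3 : mass (pwA A u c) {p | p.1 ∈ BM M \ LongW M l ∧ p.2 ∈ RW M l n (colH p.1) a} ≤
      mass (exA A u c 0) (BM M \ LongW M l) *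
        ((M + 1 : ℕ) * (ENNReal.ofReal (ρ ^ k0) + (1 / 2) ^ J)) := by
    refine mass_sigma_leT (φ := exA A u c 0) (ψ := exA A u c 0)
      (B := fun α => RW M l n (colH α) a) ?_
    intro α hα
    refine mass_RW_leA hA hp hρ1 hρ0 hε hfew _ a M l n J k0 q r ?_ hk0 hr hJ hq ha
    intro x
    obtain ⟨ps, hps, hfl⟩ := exists_factor hα.1.1
    rw [← hfl]
    refine card_colH_le hps ?_ x
    by_contra hcon
    push Not at hcon
    exact hα.2 ⟨hα.1, ps, hps, hfl, hcon⟩
  refine add_le_add ?_ (hp3.trans ?_)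
  · refine (mass_union_le _ _ _).trans ?_
    rw [hp1, hp2, two_mul]
    refine add_le_add ?_ ?_
    · rw [mul_comm]; gcongr
    · gcongr
  · gcongr
    exact (mass_mono Set.sdiff_subset).trans hBM

set_option maxHeartbeats 1000000 in
theorem lower_tailA {u c : ℝ} (h : ParamsA A u c) (K : ℕ) : ∀ᶠ n : ℕ in atTop,
    mass (pwA A u c) {p | p ∈ Pairs n ∧
      (∀ r : ℕ, 1 ≤ r → ∀ ps, AllIrr ps → ps.flatten = p.2 →
        ((r * farP r (colH p.1) 0 0 ps : ℕ) : ℝ) ≤ (n : ℝ) ^ (3 / 2 : ℝ) / (Real.log n) ^ (5 : ℝ)) ∧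
      (∀ r : ℕ, 1 ≤ r → ∀ ps, AllIrr ps → ps.flatten = p.1 →
        ((r * farP r (colH p.2) 0 0 ps : ℕ) : ℝ) ≤ (n : ℝ) ^ (3 / 2 : ℝ) / (Real.log n) ^ (5 : ℝ))} ≤
      ENNReal.ofReal (1 / (n : ℝ) ^ K) := by
  obtain ⟨δ, hδ, B, hB, hLP⟩ := exists_LP_boundA h
  obtain ⟨ε, hε, ρ, hρ1, hρ0, hfew⟩ := few_flipsA hA h
  set A₁ : ℝ := (K + 5) / δ with hA₁
  have hApos : 0 < A₁ := by positivity
  set A' : ℝ := (K + 5) / Real.log 2 with hA'
  have hlog2 : 0 < Real.log 2 := Real.log_pos (by norm_num)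
  have hA'pos : 0 < A' := by positivity
  have hlr : 0 < -Real.log ρ := by
    have := Real.log_neg hρ0 hρ1
    linarith
  have e0 := numerics hApos hA'pos hε
  have e1 := eventually_log_ge 1
  have e2 := eventually_nat_ge (54 * (4 * B + 4) + 4)
  have e3 := eventually_pow_log_le (((K + 5) / (-Real.log ρ)) ^ 2) 2
  filter_upwards [e0, e1, e2, e3, eventually_ge_atTop 3] with n h0 h1 h2 h3 hn3
  obtain ⟨l, J, k0, q, r, hl1, hAl, hl2, hJ1, hk0, hr, hJ, hq, ha, hsk⟩ := h0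
  set L := Real.log n with hL
  have hn : (0 : ℝ) < n := by
    have : 0 < n := by omega
    exact_mod_cast this
  have hn1 : (1 : ℝ) ≤ n := by
    have : 1 ≤ n := by omega
    exact_mod_cast this
  have hLpos : 0 < L := by linarith
  set a : ℝ := (n : ℝ) ^ (3 / 2 : ℝ) / L ^ (5 : ℝ) with hadef
  have hb := mass_BadL_leA hA h hρ1 hρ0 hε hfew a l n J k0 q r hk0 hr hJ hq ha
  have hsub : {p : Word × Word | p ∈ Pairs n ∧
      (∀ r : ℕ, 1 ≤ r → ∀ ps, AllIrr ps → ps.flatten = p.2 →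
        ((r * farP r (colH p.1) 0 0 ps : ℕ) : ℝ) ≤ a) ∧
      (∀ r : ℕ, 1 ≤ r → ∀ ps, AllIrr ps → ps.flatten = p.1 →
        ((r * farP r (colH p.2) 0 0 ps : ℕ) : ℝ) ≤ a)} ⊆
      BadL n a ∪ {p | p.swap ∈ BadL n a} := by
    rintro ⟨α, β⟩ ⟨⟨hα, hβ, hlen⟩, hc1, hc2⟩
    simp only at hα hβ hlen hc1 hc2
    by_cases h4 : n + 1 ≤ β.length
    · left; exact ⟨⟨hα, hβ, hlen⟩, h4, hc1⟩
    · right
      refine ⟨⟨hβ, hα, ?_⟩, ?_, hc2⟩
      · simp only [Prod.fst_swap, Prod.snd_swap]; omega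
      · simp only [Prod.snd_swap]; omega
  have hswap : mass (pwA A u c) {p | p.swap ∈ BadL n a} ≤ mass (pwA A u c) (BadL n a) := by
    refine mass_le_of_injOn Prod.swap (Prod.swap_injective.injOn) (fun p hp => hp) ?_
    intro p _
    unfold pwA
    rw [Prod.fst_swap, Prod.snd_swap, mul_comm]
  refine (mass_mono hsub).trans ((mass_union_le _ _ _).trans ?_)
  have hnK : Real.exp (-((K : ℝ) + 5) * L) = 1 / (n : ℝ) ^ (K + 5) := by
    rw [hL, show -((K : ℝ) + 5) * Real.log n = Real.log n * (-((K + 5 : ℕ) : ℝ)) by push_cast; ring,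
      Real.exp_mul, Real.exp_log hn, Real.rpow_neg hn.le, Real.rpow_natCast, one_div]
  set e : ℝ := 1 / (n : ℝ) ^ (K + 5) with he
  have hepos : 0 ≤ e := by positivity
  have hE1 : Real.exp (-δ * l) ≤ e := by
    rw [← hnK]
    apply Real.exp_le_exp.2
    have : δ * (A₁ * L) ≤ δ * l := by gcongr
    have h7 : δ * (A₁ * L) = (K + 5) * L := by rw [hA₁]; field_simp
    linarith
  have hE2 : (ρ : ℝ) ^ k0 ≤ e := by
    have hρk : ρ ^ k0 = Real.exp (k0 * Real.log ρ) := by
      rw [Real.exp_nat_mul, Real.exp_log hρ0]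
    rw [← hnK, hρk]
    apply Real.exp_le_exp.2
    have h8 : (K + 5) / (-Real.log ρ) * L ≤ Real.sqrt n := by
      apply Real.le_sqrt_of_sq_le
      rw [mul_pow]; exact h3
    have h9 : (K + 5) / (-Real.log ρ) * L ≤ k0 := h8.trans hsk
    rw [div_mul_eq_mul_div, div_le_iff₀ hlr] at h9
    linarith
  have hE3 : ((1 : ℝ) / 2) ^ J ≤ e := by
    rw [← hnK, show ((1 : ℝ) / 2) = Real.exp (-Real.log 2) by
      rw [Real.exp_neg, Real.exp_log (by norm_num)]; norm_num, ← Real.exp_nat_mul]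
    apply Real.exp_le_exp.2
    have : A' * L * Real.log 2 ≤ J * Real.log 2 := by gcongr
    have h7 : A' * L * Real.log 2 = (K + 5) * L := by rw [hA']; field_simp
    linarith
  have hM3 : ((2 * n + 2 + 1 : ℕ) : ℝ) ≤ 3 * n := by
    push_cast
    have : (3 : ℝ) ≤ n := by exact_mod_cast hn3
    linarith
  set m : ℝ := ((2 * n + 2 + 1 : ℕ) : ℝ) with hm
  have hmpos : 0 ≤ m := by positivity
  have hcast : ((2 * n + 2 + 1 : ℕ) : ℝ≥0∞) = ENNReal.ofReal m := by
    rw [hm, ENNReal.ofReal_natCast]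
  have hLong := mass_LongW_leA hA h (2 * n + 2) l
  rw [hcast] at hb hLong
  have hhalf : ((1 : ℝ≥0∞) / 2) ^ J = ENNReal.ofReal ((1 / 2 : ℝ) ^ J) := by
    rw [ENNReal.ofReal_pow (by norm_num), ENNReal.ofReal_div_of_pos (by norm_num)]
    simp
  have hBadL : mass (pwA A u c) (BadL n a) ≤ ENNReal.ofReal (m ^ 3 * ((2 * B + 2) * e)) := by
    refine hb.trans ?_
    rw [hhalf]
    calc _ ≤ 2 * (ENNReal.ofReal m * (ENNReal.ofReal m * ENNReal.ofReal (B * Real.exp (-δ * l)) *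
            ENNReal.ofReal m)) +
          ENNReal.ofReal m * (ENNReal.ofReal m *
            (ENNReal.ofReal (ρ ^ k0) + ENNReal.ofReal ((1 / 2) ^ J))) := by
          gcongr
          exact hLong.trans (by gcongr; exact hLP l)
      _ = ENNReal.ofReal (2 * (m * (m * (B * Real.exp (-δ * l)) * m)) +
          m * (m * (ρ ^ k0 + (1 / 2) ^ J))) := by
          have hb1 : 0 ≤ B * Real.exp (-δ * l) := by positivity
          have hb2 : 0 ≤ ρ ^ k0 := by positivity
          have hb3 : (0 : ℝ) ≤ (1 / 2) ^ J := by positivity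
          rw [ENNReal.ofReal_add (by positivity) (by positivity),
            ENNReal.ofReal_mul (p := 2) (by norm_num), ENNReal.ofReal_mul hmpos,
            ENNReal.ofReal_mul (p := m * (B * Real.exp (-δ * l))) (by positivity),
            ENNReal.ofReal_mul hmpos, ENNReal.ofReal_mul (q := m * (ρ ^ k0 + (1 / 2) ^ J)) hmpos,
            ENNReal.ofReal_mul (q := ρ ^ k0 + (1 / 2) ^ J) hmpos, ENNReal.ofReal_add hb2 hb3]
          simp
      _ ≤ _ := by
          apply ENNReal.ofReal_le_ofReal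
          have hm1 : 1 ≤ m := by
            rw [hm]; push_cast; linarith
          calc 2 * (m * (m * (B * Real.exp (-δ * l)) * m)) + m * (m * (ρ ^ k0 + (1 / 2) ^ J))
              ≤ 2 * (m * (m * (B * e) * m)) + m * (m * (e + e)) * m := by
                have : m * (m * (ρ ^ k0 + (1 / 2) ^ J)) ≤ m * (m * (e + e)) := by gcongr
                have h8 : m * (m * (e + e)) ≤ m * (m * (e + e)) * m :=
                  le_mul_of_one_le_right (by positivity) hm1
                have h9 : 2 * (m * (m * (B * Real.exp (-δ * l)) * m)) ≤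
                    2 * (m * (m * (B * e) * m)) := by gcongr
                linarith
            _ = m ^ 3 * ((2 * B + 2) * e) := by ring
  have hfinal : m ^ 3 * ((2 * B + 2) * e) ≤ 1 / (n : ℝ) ^ K / 2 := by
    have h8 := final_bound (n := (n : ℝ)) (Mr := m) (G := 2 * B + 2) (k := K) hn hM3 (by positivity)
      (by linarith) hn1
    refine le_trans ?_ h8
    calc m ^ 3 * ((2 * B + 2) * e) = m ^ 2 * ((2 * B + 2) * e) * m := by ring
      _ ≤ (3 * n) ^ 2 * ((2 * B + 2) * e) * m := by gcongr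
  calc _ ≤ ENNReal.ofReal (1 / (n : ℝ) ^ K / 2) + ENNReal.ofReal (1 / (n : ℝ) ^ K / 2) :=
        add_le_add (hBadL.trans (ENNReal.ofReal_le_ofReal hfinal))
          (hswap.trans (hBadL.trans (ENNReal.ofReal_le_ofReal hfinal)))
    _ = _ := by
        rw [← ENNReal.ofReal_add (by positivity) (by positivity)]
        congr 1; ring

end

end Pool.Agent.SAPK
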